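import Pool.Agent.LibRG65.Defs

/-!
[RG65 C0] MEDIUM. Smoothness of the matrix exponential and of the charts (helper65). Mathlib + Defs.

`contDiff_expm`: in a normed algebra structure on matrices (`open scoped Matrix.Norms.Operator`, or
`attribute [local instance] Matrix.linftyOpNormedRing Matrix.linftyOpNormedAlgebra`) `NormedSpace.exp` is analytic
(`NormedSpace.exp_analytic`), so `C^N` over `ℝ`; `Matrix.of : (ι → ι → ℂ) → Matrix ι ι ℂ` and its inverse are linear maps of finite
dimensional spaces (`LinearMap.toContinuousLinearMap`), so `C^N` (the norms on the two sides differ, the topologies agree).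
`contDiff_pt`: the entries (`contDiff_pi`) are `∑ k, g i k * exp (Xm m E z) k j` (`Matrix.mul_apply`); `z ↦ (i, j) ↦ Xm m E z i j` is a linear
map (a finite sum of `z s * constant`).  `contDiff_pt2`: the same, a product of two such families, each composed with a projection.
-/

set_option autoImplicit false

open MeasureTheory
open scoped InnerProductSpace ComplexOrder Matrix

namespace Pool.Agent.LibRG65

open Pool.Agent.LibTK94 Pool.Agent.LibHK65

variable {n : ℕ} {ι β : Type} [Fintype ι] [DecidableEq ι] [Fintype β] [DecidableEq β]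

open scoped Matrix.Norms.Operator in
set_option backward.isDefEq.respectTransparency false in
private theorem c0_exp (N : ℕ) :
    ContDiff ℝ N (fun a : Matrix ι ι ℂ => NormedSpace.exp a) :=
  AnalyticOnNhd.contDiff fun x _ => NormedSpace.exp_analytic (𝕂 := ℝ) x

open scoped Matrix.Norms.Operator in
set_option backward.isDefEq.respectTransparency false in
theorem contDiff_expm (N : ℕ) :
    ContDiff ℝ N (fun a : ι → ι → ℂ => (fun i j => NormedSpace.exp (Matrix.of a) i j : ι → ι → ℂ)) := by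
  have h1 : ContDiff ℝ N (fun a : ι → ι → ℂ => (Matrix.ofLinearEquiv ℝ a : Matrix ι ι ℂ)) :=
    (LinearMap.toContinuousLinearMap ((Matrix.ofLinearEquiv ℝ :
      (ι → ι → ℂ) ≃ₗ[ℝ] Matrix ι ι ℂ) : (ι → ι → ℂ) →ₗ[ℝ] Matrix ι ι ℂ)).contDiff
  have h2 : ContDiff ℝ N (fun a : Matrix ι ι ℂ =>
      ((Matrix.ofLinearEquiv ℝ).symm a : ι → ι → ℂ)) :=
    (LinearMap.toContinuousLinearMap ((Matrix.ofLinearEquiv ℝ :
      (ι → ι → ℂ) ≃ₗ[ℝ] Matrix ι ι ℂ).symm : Matrix ι ι ℂ →ₗ[ℝ] (ι → ι → ℂ))).contDiff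
  exact h2.comp ((c0_exp N).comp h1)

private theorem c0_Xm (m : ι → V n) (E : β → Matrix ι ι ℂ) (N : ℕ) :
    ContDiff ℝ N (fun z : Fin n ⊕ β → ℂ => (fun i j => Xm m E z i j : ι → ι → ℂ)) := by
  rw [contDiff_pi]
  intro i
  rw [contDiff_pi]
  intro j
  have hfun : (fun z : Fin n ⊕ β → ℂ => Xm m E z i j) = fun z =>
      (if i = j then ∑ k, z (Sum.inl k) * ((m i k : ℝ) : ℂ) else 0) +
        ∑ b, z (Sum.inr b) * E b i j := by
    funext z
    simp only [Xm, Dm, Matrix.add_apply, Matrix.diagonal_apply, Matrix.sum_apply,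
      Matrix.smul_apply, smul_eq_mul]
  rw [hfun]
  refine ContDiff.add ?_ ?_
  · by_cases hij : i = j
    · simp only [hij, if_true]
      exact ContDiff.sum fun k _ => (contDiff_apply ℝ ℂ (Sum.inl k)).mul contDiff_const
    · simp only [hij, if_false]
      exact contDiff_const
  · exact ContDiff.sum fun b _ => (contDiff_apply ℝ ℂ (Sum.inr b)).mul contDiff_const

private theorem c0_expXm (m : ι → V n) (E : β → Matrix ι ι ℂ) (N : ℕ) (k j : ι) :
    ContDiff ℝ N (fun z : Fin n ⊕ β → ℂ => NormedSpace.exp (Xm m E z) k j) := by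
  have h := (contDiff_expm (ι := ι) N).comp (c0_Xm m E N)
  rw [contDiff_pi] at h
  have h' := h k
  rw [contDiff_pi] at h'
  exact h' j

theorem contDiff_pt (m : ι → V n) (E : β → Matrix ι ι ℂ) (g : Matrix ι ι ℂ) (N : ℕ) :
    ContDiff ℝ N (fun z : Fin n ⊕ β → ℂ =>
      (fun i j => (g * NormedSpace.exp (Xm m E z)) i j : ι → ι → ℂ)) := by
  rw [contDiff_pi]
  intro i
  rw [contDiff_pi]
  intro j
  simp only [Matrix.mul_apply]
  exact ContDiff.sum fun k _ => contDiff_const.mul (c0_expXm m E N k j)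

theorem contDiff_pt2 (m : ι → V n) (E : β → Matrix ι ι ℂ) (g : Matrix ι ι ℂ) (N : ℕ) :
    ContDiff ℝ N (fun p : (Fin n ⊕ β → ℂ) × (Fin n ⊕ β → ℂ) =>
      (fun i j => (g * NormedSpace.exp (Xm m E p.1) * NormedSpace.exp (Xm m E p.2)) i j :
        ι → ι → ℂ)) := by
  rw [contDiff_pi]
  intro i
  rw [contDiff_pi]
  intro j
  simp only [Matrix.mul_apply]
  refine ContDiff.sum fun k _ => ContDiff.mul ?_ ((c0_expXm m E N k j).comp contDiff_snd)
  exact ContDiff.sum fun l _ => contDiff_const.mul ((c0_expXm m E N l k).comp contDiff_fst)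

end Pool.Agent.LibRG65
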