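import Pool.Agent.LibRG65.T0
import Pool.Agent.LibRG65.C0

/-!
[RG65 C1] SHORT/MEDIUM. Smoothness of `Φ` in the charts (helper65). Cites T0, C0.

`pt_mem`: `R.G` is a submonoid, `Xm_mem`.  `smooth_pt`: `contDiff_iff_contDiffAt`; at `z` the point `R.pt g z` is in `G`, `hΦ` there, composed with
`contDiff_pt` (`ContDiffAt.comp`; `Matrix.of (fun i j => M i j) = M` is `rfl`).  `smooth_pt2`: the same with `contDiff_pt2`.
`smooth_U`: `Tm m (ofR x)` has the entries `if i = j then exp (∑ ..) else 0`, `C^N` in `x` (or: `R.U Φ x = Φ (R.pt 1 (Sum.elim (ofR x) 0))` by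
`Xm_inl`, `exp_Dm`, and `x ↦ Sum.elim (ofR x) 0` is linear, compare `contDiff_sl_ofR` in LibHK65/F.lean).
`Phi_Tm`: `Tm m w = Tm m (I * ofR y) * Tm m (ofR (reV w))`, `y k = (w k).im` (`Tm_add`), `Tm_K`, `hinv` with `k' = 1`.
`LV_left`: `R.pt (k * g) z = k * R.pt g z`, so the two functions of `z` agree (`hinv` with `k' = 1`, `pt_mem`).
`LV_Tm`: `Tm m w = k * Tm m (ofR (reV w))` as before and `LV_left`.
-/

set_option autoImplicit false

open MeasureTheory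
open scoped InnerProductSpace ComplexOrder Matrix

namespace Pool.Agent.LibRG65

open Pool.Agent.LibTK94 Pool.Agent.LibHK65

variable {n : ℕ} {ι β : Type} [Fintype ι] [DecidableEq ι] [Fintype β] [DecidableEq β]

private theorem c1_split (w : Fin n → ℂ) :
    w = (fun k => Complex.I * ofR (WithLp.toLp 2 fun k => (w k).im : V n) k) + ofR (reV w) := by
  funext k
  simp only [Pi.add_apply, ofR, reV]
  rw [add_comm, mul_comm]
  exact (Complex.re_add_im (w k)).symm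

set_option linter.unusedSectionVars false in
theorem RG.one_K (R : RG n ι β) : (1 : Matrix ι ι ℂ) ∈ R.K := by
  exact ⟨R.G.one_mem, by simp⟩

theorem RG.pt_mem (R : RG n ι β) {g : Matrix ι ι ℂ} (hg : g ∈ R.G) (z : Fin n ⊕ β → ℂ) :
    R.pt g z ∈ R.G := by
  exact R.G.mul_mem hg (R.Xm_mem z)

theorem RG.smooth_pt (R : RG n ι β) {N : ℕ} {Φ : Matrix ι ι ℂ → ℝ} (hΦ : R.Smooth N Φ)
    {g : Matrix ι ι ℂ} (hg : g ∈ R.G) : ContDiff ℝ N (fun z => Φ (R.pt g z)) := by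
  rw [contDiff_iff_contDiffAt]
  intro z
  have h1 := hΦ (R.pt g z) (R.pt_mem hg z)
  have h2 : ContDiffAt ℝ N (fun z : Fin n ⊕ β → ℂ =>
      (fun i j => (g * NormedSpace.exp (Xm R.m R.E z)) i j : ι → ι → ℂ)) z :=
    (contDiff_pt R.m R.E g N).contDiffAt
  have h3 : ContDiffAt ℝ N ((fun a : ι → ι → ℂ => Φ (Matrix.of a)) ∘
      (fun z : Fin n ⊕ β → ℂ =>
        (fun i j => (g * NormedSpace.exp (Xm R.m R.E z)) i j : ι → ι → ℂ))) z :=
    ContDiffAt.comp z h1 h2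
  exact h3

theorem RG.smooth_pt2 (R : RG n ι β) {N : ℕ} {Φ : Matrix ι ι ℂ → ℝ} (hΦ : R.Smooth N Φ)
    {g : Matrix ι ι ℂ} (hg : g ∈ R.G) :
    ContDiff ℝ N (fun p : (Fin n ⊕ β → ℂ) × (Fin n ⊕ β → ℂ) => Φ (R.pt (R.pt g p.1) p.2)) := by
  rw [contDiff_iff_contDiffAt]
  intro p
  have h1 := hΦ (R.pt (R.pt g p.1) p.2) (R.pt_mem (R.pt_mem hg p.1) p.2)
  have h2 : ContDiffAt ℝ N (fun p : (Fin n ⊕ β → ℂ) × (Fin n ⊕ β → ℂ) =>
      (fun i j => (g * NormedSpace.exp (Xm R.m R.E p.1) * NormedSpace.exp (Xm R.m R.E p.2)) i j :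
        ι → ι → ℂ)) p :=
    (contDiff_pt2 R.m R.E g N).contDiffAt
  have h3 : ContDiffAt ℝ N ((fun a : ι → ι → ℂ => Φ (Matrix.of a)) ∘
      (fun p : (Fin n ⊕ β → ℂ) × (Fin n ⊕ β → ℂ) =>
        (fun i j => (g * NormedSpace.exp (Xm R.m R.E p.1) * NormedSpace.exp (Xm R.m R.E p.2)) i j :
          ι → ι → ℂ))) p :=
    ContDiffAt.comp p h1 h2
  exact h3

theorem RG.smooth_U (R : RG n ι β) {N : ℕ} {Φ : Matrix ι ι ℂ → ℝ} (hΦ : R.Smooth N Φ) :
    ContDiff ℝ N (R.U Φ) := by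
  have h1 : ContDiff ℝ N (fun x : V n => (Sum.elim (ofR x) 0 : Fin n ⊕ β → ℂ)) := by
    rw [contDiff_pi]
    rintro (k | l)
    · have h : ContDiff ℝ N (fun x : V n => ((x k : ℝ) : ℂ)) :=
        (Complex.ofRealCLM.comp (EuclideanSpace.proj (𝕜 := ℝ) k)).contDiff
      exact h
    · exact contDiff_const
  have h2 : R.U Φ = (fun z => Φ (R.pt 1 z)) ∘
      (fun x : V n => (Sum.elim (ofR x) 0 : Fin n ⊕ β → ℂ)) := by
    funext x
    simp only [RG.U, Function.comp, RG.pt]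
    rw [one_mul, Xm_inl, exp_Dm]
  rw [h2]
  exact (R.smooth_pt hΦ R.G.one_mem).comp h1

theorem RG.Phi_Tm (R : RG n ι β) {Φ : Matrix ι ι ℂ → ℝ} (hinv : R.Inv Φ) (w : Fin n → ℂ) :
    Φ (Tm R.m w) = Φ (Tm R.m (ofR (reV w))) := by
  have h1 := hinv (Tm R.m (ofR (reV w))) (R.Tm_mem _) _
    (R.Tm_K (WithLp.toLp 2 fun k => (w k).im : V n)) 1 R.one_K
  rw [mul_one, ← Tm_add, ← c1_split w] at h1
  exact h1

theorem RG.LV_left (R : RG n ι β) {Φ : Matrix ι ι ℂ → ℝ} (hinv : R.Inv Φ)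
    {k g : Matrix ι ι ℂ} (hk : k ∈ R.K) (hg : g ∈ R.G) : R.LV Φ (k * g) = R.LV Φ g := by
  have h1 : (fun z => Φ (R.pt (k * g) z)) = fun z => Φ (R.pt g z) := by
    funext z
    have h2 := hinv (R.pt g z) (R.pt_mem hg z) k hk 1 R.one_K
    rw [mul_one] at h2
    rw [← h2]
    simp only [RG.pt]
    rw [mul_assoc]
  simp only [RG.LV]
  rw [h1]

theorem RG.LV_Tm (R : RG n ι β) {Φ : Matrix ι ι ℂ → ℝ} (hinv : R.Inv Φ) (w : Fin n → ℂ) :
    R.LV Φ (Tm R.m w) = R.LV Φ (Tm R.m (ofR (reV w))) := by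
  have h1 := R.LV_left hinv (R.Tm_K (WithLp.toLp 2 fun k => (w k).im : V n))
    (R.Tm_mem (ofR (reV w)))
  rw [← Tm_add, ← c1_split w] at h1
  exact h1

end Pool.Agent.LibRG65
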