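import Pool.Agent.LibRG65.T0
import Pool.Agent.LibRG65.C1
import Pool.Agent.LibHK65.C1
import Pool.Agent.LibTK94.CHess

/-!
[RG65 C2] MEDIUM. The torus block of the Hessian at a point of the torus (helper65).
Cites T0, LibHK65.C1 `D2_comp_clm`, LibTK94.CHess `levi_comp_reV`. Compare LibHK65/C5.lean (`C5_L`, `C5_lev`).

Plan. `A = Tm m (ofR x)`, `f z = F (R.pt A z)` is `C²` (`hF`).  `L w = Sum.elim w 0` (continuous linear, as `C5_L`),
`L (Pi.single j t) = Pi.single (inl j) t`.  `f (L w) = F (A * Tm m w) = F (Tm m (ofR x + w)) = F (Tm m (ofR (reV (ofR x + w)))) = R.U F (x + reV w)`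
(`Xm_inl`, `exp_Dm`, `Tm_add`, `hL`, `reV_ofR`).  By `D2_comp_clm` the `(inl j, inl k)` entry of `lev f 0` is the `(j, k)` entry of
`levi (fun w => R.U F (x + reV w)) 0` (as in `C5_lev`), and `levi_comp_reV` for `U' = fun y => R.U F (x + y)` (`C²`:
`U' y = f (L (ofR y))`) gives `1/4 * Hm U' 0 j k`, `Hm U' 0 = Hm (R.U F) x` (`fderiv_comp_add_left` twice).
-/

set_option autoImplicit false

open MeasureTheory
open scoped InnerProductSpace ComplexOrder Matrix

namespace Pool.Agent.LibRG65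

open Pool.Agent.LibTK94 Pool.Agent.LibHK65

variable {n : ℕ} {ι β : Type} [Fintype ι] [DecidableEq ι] [Fintype β] [DecidableEq β]

/-- the linear map `w ↦ (w, 0)` -/
private noncomputable def c2_L (n : ℕ) (β : Type) [Fintype β] : (Fin n → ℂ) →L[ℝ] (Fin n ⊕ β → ℂ) :=
  ContinuousLinearMap.pi fun s => Sum.elim
    (fun j => (ContinuousLinearMap.proj j : (Fin n → ℂ) →L[ℝ] ℂ)) (fun _ => 0) s

omit [DecidableEq β] in
private theorem c2_L_apply (w : Fin n → ℂ) : c2_L n β w = Sum.elim w 0 := by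
  ext s
  rcases s with j | l
  · rfl
  · rfl

private theorem c2_L_single (j : Fin n) (t : ℂ) :
    c2_L n β (Pi.single j t) = Pi.single (Sum.inl j) t := by
  rw [c2_L_apply]
  ext s
  rcases s with i | l
  · change (Pi.single j t : Fin n → ℂ) i = (Pi.single (Sum.inl j) t : Fin n ⊕ β → ℂ) (Sum.inl i)
    by_cases h : i = j
    · rw [h, Pi.single_eq_same, Pi.single_eq_same]
    · rw [Pi.single_eq_of_ne h, Pi.single_eq_of_ne fun h' => h (Sum.inl.inj h')]
  · change (0 : ℂ) = (Pi.single (Sum.inl j) t : Fin n ⊕ β → ℂ) (Sum.inr l)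
    rw [Pi.single_eq_of_ne fun h => by cases h]

private theorem c2_lev {f : (Fin n ⊕ β → ℂ) → ℝ} (hf : ContDiff ℝ 2 f) (j k : Fin n) :
    lev f 0 (Sum.inl j) (Sum.inl k) = levi (fun w => f (Sum.elim w 0)) 0 j k := by
  have h1 : (fun w : Fin n → ℂ => f (Sum.elim w 0)) = fun w => f (c2_L n β w) := by
    funext w
    rw [c2_L_apply]
  have h2 : ∀ a b, D2 (fun w : Fin n → ℂ => f (Sum.elim w 0)) 0 a b = D2 f 0 (c2_L n β a) (c2_L n β b) := by
    intro a b
    rw [h1, D2_comp_clm (c2_L n β) hf, map_zero]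
  unfold lev levi
  rw [Matrix.of_apply, Matrix.of_apply, h2, h2, h2, h2, c2_L_single, c2_L_single, c2_L_single, c2_L_single]

private theorem c2_ofR : ContDiff ℝ 2 (fun x : V n => (ofR x : Fin n → ℂ)) := by
  refine contDiff_pi.2 fun j => ?_
  exact Complex.ofRealCLM.contDiff.comp ((EuclideanSpace.proj j : V n →L[ℝ] ℝ).contDiff)

private theorem c2_pt (R : RG n ι β) (w w' : Fin n → ℂ) :
    R.pt (Tm R.m w) (Sum.elim w' 0) = Tm R.m (w + w') := by
  rw [RG.pt, Xm_inl, exp_Dm, Tm_add]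

private theorem c2_contDiff_U (R : RG n ι β) {F : Matrix ι ι ℂ → ℝ}
    (hF : ∀ g ∈ R.G, ContDiff ℝ 2 (fun z => F (R.pt g z))) : ContDiff ℝ 2 (R.U F) := by
  have h1 : R.U F = fun x => (fun z => F (R.pt 1 z)) (c2_L n β (ofR x)) := by
    funext x
    show F (Tm R.m (ofR x)) = F (R.pt 1 (c2_L n β (ofR x)))
    have h2 := c2_pt R 0 (ofR x)
    rw [Tm_zero, zero_add] at h2
    rw [c2_L_apply, h2]
  rw [h1]
  exact (hF 1 R.G.one_mem).comp ((c2_L n β).contDiff.comp c2_ofR)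

theorem RG.LV_inl (R : RG n ι β) {F : Matrix ι ι ℂ → ℝ}
    (hF : ∀ g ∈ R.G, ContDiff ℝ 2 (fun z => F (R.pt g z)))
    (hL : ∀ w : Fin n → ℂ, F (Tm R.m w) = F (Tm R.m (ofR (reV w)))) (x : V n) (j k : Fin n) :
    R.LV F (Tm R.m (ofR x)) (Sum.inl j) (Sum.inl k) =
      (((1 / 4 : ℝ) * Hm (R.U F) x j k : ℝ) : ℂ) := by
  have hU := c2_contDiff_U R hF
  have hU' : ContDiff ℝ 2 (fun y => R.U F (x + y)) := hU.comp (contDiff_const.add contDiff_id)
  have h1 : (fun w : Fin n → ℂ => F (R.pt (Tm R.m (ofR x)) (Sum.elim w 0))) =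
      fun w => (fun y => R.U F (x + y)) (reV w) := by
    funext w
    show F (R.pt (Tm R.m (ofR x)) (Sum.elim w 0)) = F (Tm R.m (ofR (x + reV w)))
    rw [c2_pt, hL]
    have e3 : reV ((ofR x : Fin n → ℂ) + w) = x + reV w := by
      ext i
      simp [reV, ofR]
    rw [e3]
  rw [RG.LV, c2_lev (hF _ (R.Tm_mem _)), h1, levi_comp_reV hU', Matrix.map_apply]
  have h2 : (reV (0 : Fin n → ℂ)) = (0 : V n) := by
    ext i
    simp [reV]
  have h3 : Hm (fun y => R.U F (x + y)) 0 j k = Hm (R.U F) x j k := by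
    unfold Hm D2
    rw [Matrix.of_apply, Matrix.of_apply]
    have e1 : fderiv ℝ (fun y => R.U F (x + y)) = fun y => fderiv ℝ (R.U F) (x + y) := by
      funext y
      rw [fderiv_comp_add_left]
    rw [e1, fderiv_comp_add_left, add_zero]
  rw [h2, h3]

theorem RG.contDiff_U (R : RG n ι β) {F : Matrix ι ι ℂ → ℝ}
    (hF : ∀ g ∈ R.G, ContDiff ℝ 2 (fun z => F (R.pt g z))) : ContDiff ℝ 2 (R.U F) :=
  c2_contDiff_U R hF

end Pool.Agent.LibRG65
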