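import Pool.Agent.LibRG65.Defs
import Pool.Agent.LibHK65.C1

/-!
[RG65 C3a] SHORT/MEDIUM. Diagonal substitutions in the complex Hessian (helper65). Cites LibHK65.C1 `D2_comp_clm`.

Plan. `L z = fun s => p s * z s` is a continuous real linear map; `L (Pi.single s t) = Pi.single s (p s * t)
= re (p s * t) • Pi.single s 1 + im (p s * t) • Pi.single s I` (real scalars).  `D2_comp_clm` and the bilinearity of `D2 F 0`
(`map_add`, `map_smul` of `fderiv ℝ (fderiv ℝ F) 0`).  With `p s = a + b I`, `p s' = c + d I` both sides are the same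
polynomial in the four values of `D2 F 0` (`Complex.ext`, `ring`).
-/

set_option autoImplicit false

open MeasureTheory
open scoped InnerProductSpace ComplexOrder Matrix

namespace Pool.Agent.LibRG65

open Pool.Agent.LibTK94 Pool.Agent.LibHK65

variable {n : ℕ} {ι β : Type} [Fintype ι] [DecidableEq ι] [Fintype β] [DecidableEq β]

private theorem c3a_single {κ : Type} [DecidableEq κ] (s : κ) (z : ℂ) :
    (Pi.single s z : κ → ℂ) = z.re • (Pi.single s (1 : ℂ) : κ → ℂ) +
      z.im • (Pi.single s Complex.I : κ → ℂ) := by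
  funext j
  by_cases h : j = s
  · subst h
    simp only [Pi.single_eq_same, Pi.add_apply, Pi.smul_apply, Complex.real_smul]
    rw [mul_one]
    exact (Complex.re_add_im z).symm
  · simp only [Pi.single_eq_of_ne h, Pi.add_apply, Pi.smul_apply, smul_zero, add_zero]

theorem lev_diag {κ : Type} [Fintype κ] [DecidableEq κ] {F : (κ → ℂ) → ℝ} (hF : ContDiff ℝ 2 F)
    (p : κ → ℂ) (s s' : κ) :
    lev (fun z => F (fun s => p s * z s)) 0 s s' =
      p s * (starRingEnd ℂ) (p s') * lev F 0 s s' := by
  let L : (κ → ℂ) →L[ℝ] (κ → ℂ) :=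
    (ContinuousLinearMap.pi (fun s => (p s) • (ContinuousLinearMap.proj (R := ℂ)
      (φ := fun _ : κ => ℂ) s))).restrictScalars ℝ
  have hL : ∀ z : κ → ℂ, L z = fun s => p s * z s := fun z => rfl
  have hL0 : L 0 = 0 := map_zero L
  have hLs : ∀ (s : κ) (t : ℂ), L (Pi.single s t) = Pi.single s (p s * t) := by
    intro s t
    rw [hL]
    funext j
    by_cases h : j = s
    · subst h
      rw [Pi.single_eq_same, Pi.single_eq_same]
    · rw [Pi.single_eq_of_ne h, Pi.single_eq_of_ne h, mul_zero]
  have hD : ∀ a b : κ → ℂ, D2 (fun z => F (fun s => p s * z s)) 0 a b = D2 F 0 (L a) (L b) := by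
    intro a b
    have h := D2_comp_clm L hF 0 a b
    rw [hL0] at h
    exact h
  have hB : ∀ (s s' : κ) (z w : ℂ), D2 F 0 (Pi.single s z) (Pi.single s' w) =
      z.re * (w.re * D2 F 0 (Pi.single s (1 : ℂ)) (Pi.single s' (1 : ℂ)) +
        w.im * D2 F 0 (Pi.single s (1 : ℂ)) (Pi.single s' Complex.I)) +
      z.im * (w.re * D2 F 0 (Pi.single s Complex.I) (Pi.single s' (1 : ℂ)) +
        w.im * D2 F 0 (Pi.single s Complex.I) (Pi.single s' Complex.I)) := by
    intro s s' z w
    rw [c3a_single s z, c3a_single s' w]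
    unfold D2
    simp only [map_add, map_smul, ContinuousLinearMap.add_apply, ContinuousLinearMap.smul_apply,
      smul_eq_mul]
    ring
  unfold lev
  rw [Matrix.of_apply, Matrix.of_apply, hD, hD, hD, hD, hLs, hLs, hLs, hLs, mul_one, mul_one,
    hB s s' (p s) (p s'), hB s s' (p s * Complex.I) (p s' * Complex.I),
    hB s s' (p s) (p s' * Complex.I), hB s s' (p s * Complex.I) (p s')]
  generalize D2 F 0 (Pi.single s (1 : ℂ)) (Pi.single s' (1 : ℂ)) = x1
  generalize D2 F 0 (Pi.single s (1 : ℂ)) (Pi.single s' Complex.I) = x2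
  generalize D2 F 0 (Pi.single s Complex.I) (Pi.single s' (1 : ℂ)) = x3
  generalize D2 F 0 (Pi.single s Complex.I) (Pi.single s' Complex.I) = x4
  generalize p s = u
  generalize p s' = v
  apply Complex.ext
  · simp
    ring
  · simp
    ring

end Pool.Agent.LibRG65
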