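import Pool.Agent.LibRG65.T1
import Pool.Agent.LibRG65.C1
import Pool.Agent.LibRG65.C3a

/-!
[RG65 C3] MEDIUM. The off-diagonal blocks vanish at the points of the torus (helper65). Cites T0, T1, C1, C3a.

Plan. `A = Tm m (ofR x)`, `f z = Φ (R.pt A z)`.  For `y : V n` put `κ = Tm m (I * ofR y) ∈ K` (`Tm_K`), `κ' = Tm m (-(I * ofR y)) = κᴴ ∈ K`
(`Tm_star` or `Tm_K` for `-y`), `κ * κ' = 1` (`Tm_add`, `Tm_zero`).  `κ * (A * exp X) * κ' = A * exp (κ X κ')` (diagonal matrices commute: `Tm_add`;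
`Matrix.exp_conj`).  `κ * Xm z * κ' = Xm (fun s => p s * z s)`, `p (inl j) = 1`, `p (inr b) = exp (I ⟪γ b, y⟫)` (`wt_comm`,
diagonal matrices commute).  So `f (fun s => p s * z s) = f z` by `hinv`, and `lev_diag`: `lev f 0 s s' = p s * conj (p s') * lev f 0 s s'`.
With `v = γ b` or `γ b - γ b'` (`≠ 0`: `root_ne`, `root_inj`) and `y = (π / ‖v‖ ^ 2) • v` the factor is `exp (± I π) = -1`
(`⟪v, y⟫ = π`, `‖..‖ = 1`: `conj (exp (I t)) = exp (-(I t))`), so the entry is `0`.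
-/

set_option autoImplicit false

open MeasureTheory
open scoped InnerProductSpace ComplexOrder Matrix

namespace Pool.Agent.LibRG65

open Pool.Agent.LibTK94 Pool.Agent.LibHK65

variable {n : ℕ} {ι β : Type} [Fintype ι] [DecidableEq ι] [Fintype β] [DecidableEq β]

omit [DecidableEq β] [Fintype β] [Fintype ι] [DecidableEq ι] in
private theorem c3_inner (a y : V n) :
    ∑ k, (Complex.I * ofR y k) * ((a k : ℝ) : ℂ) = Complex.I * ((⟪a, y⟫_ℝ : ℝ) : ℂ) := by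
  rw [PiLp.inner_apply, Complex.ofReal_sum, Finset.mul_sum]
  refine Finset.sum_congr rfl fun k _ => ?_
  have h1 : (inner ℝ (a k) (y k) : ℝ) = y k * a k := rfl
  rw [h1, Complex.ofReal_mul]
  unfold ofR
  ring

omit [DecidableEq β] in
private theorem c3_X (m : ι → V n) (E : β → Matrix ι ι ℂ) {κ κ' : Matrix ι ι ℂ} (hκ : κ * κ' = 1)
    (h1 : ∀ w, κ * Dm m w = Dm m w * κ) (q : β → ℂ) (h2 : ∀ b, κ * E b = q b • (E b * κ))
    (z : Fin n ⊕ β → ℂ) :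
    κ * Xm m E z * κ' = Xm m E (fun s => Sum.elim (fun _ => (1 : ℂ)) q s * z s) := by
  unfold Xm
  rw [mul_add, add_mul, h1, mul_assoc, hκ, mul_one, Finset.mul_sum, Finset.sum_mul]
  congr 1
  · simp only [Sum.elim_inl, one_mul]
  · refine Finset.sum_congr rfl fun b _ => ?_
    rw [Matrix.mul_smul, h2, Matrix.smul_mul, Matrix.smul_mul, mul_assoc, hκ, mul_one, smul_smul]
    simp only [Sum.elim_inr]
    rw [mul_comm]

omit [Fintype ι] in
private theorem c3_DT (m : ι → V n) [Fintype ι] (w w' : Fin n → ℂ) : Tm m w * Dm m w' = Dm m w' * Tm m w := by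
  unfold Tm Dm
  rw [Matrix.diagonal_mul_diagonal, Matrix.diagonal_mul_diagonal]
  congr 1
  funext j
  exact mul_comm _ _

private theorem c3_key (R : RG n ι β) {Φ : Matrix ι ι ℂ → ℝ} (hΦ : R.Smooth 2 Φ) (hinv : R.Inv Φ)
    (x y : V n) (s s' : Fin n ⊕ β) :
    R.LV Φ (Tm R.m (ofR x)) s s' =
      Sum.elim (fun _ => (1 : ℂ)) (fun b => Complex.exp (Complex.I * ((⟪R.γ b, y⟫_ℝ : ℝ) : ℂ))) s *
      (starRingEnd ℂ) (Sum.elim (fun _ => (1 : ℂ))
        (fun b => Complex.exp (Complex.I * ((⟪R.γ b, y⟫_ℝ : ℝ) : ℂ))) s') *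
      R.LV Φ (Tm R.m (ofR x)) s s' := by
  obtain ⟨A, hA⟩ : ∃ A, A = Tm R.m (ofR x) := ⟨_, rfl⟩
  obtain ⟨κ, hκ⟩ : ∃ κ, κ = Tm R.m (fun k => Complex.I * ofR y k) := ⟨_, rfl⟩
  obtain ⟨q, hq⟩ : ∃ q : β → ℂ, q = fun b => Complex.exp (Complex.I * ((⟪R.γ b, y⟫_ℝ : ℝ) : ℂ)) :=
    ⟨_, rfl⟩
  rw [← hA, ← hq]
  have hAG : A ∈ R.G := by
    rw [hA]
    exact R.Tm_mem _
  have hκK : κ ∈ R.K := by
    rw [hκ]
    exact R.Tm_K y
  have h1 : κ * κᴴ = 1 := R.K_mul_star hκK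
  have hAκ : κ * A = A * κ := by
    rw [hκ, hA, ← Tm_add, ← Tm_add, add_comm]
  have hE : ∀ b, κ * R.E b = q b • (R.E b * κ) := by
    intro b
    rw [hκ, R.wt_comm, c3_inner, hq]
  have hD : ∀ w, κ * Dm R.m w = Dm R.m w * κ := by
    intro w
    rw [hκ]
    exact c3_DT R.m _ w
  have hinvκ : κ⁻¹ = κᴴ := Matrix.inv_eq_right_inv h1
  have hunit : IsUnit κ := (Matrix.isUnit_iff_isUnit_det κ).2 (R.inv κ hκK.1).1
  have hf : ∀ z : Fin n ⊕ β → ℂ,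
      Φ (R.pt A (fun s => Sum.elim (fun _ => (1 : ℂ)) q s * z s)) = Φ (R.pt A z) := by
    intro z
    have h2 : R.pt A (fun s => Sum.elim (fun _ => (1 : ℂ)) q s * z s) = κ * R.pt A z * κᴴ := by
      unfold RG.pt
      rw [← c3_X R.m R.E h1 hD q hE z, ← hinvκ, Matrix.exp_conj κ _ hunit, ← mul_assoc, ← mul_assoc,
        ← mul_assoc, hAκ]
    rw [h2]
    exact hinv _ (R.pt_mem hAG z) κ hκK κᴴ (R.K_star hκK)
  have h3 := lev_diag (F := fun z => Φ (R.pt A z)) (R.smooth_pt hΦ hAG)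
    (Sum.elim (fun _ => (1 : ℂ)) q) s s'
  simp only [hf] at h3
  exact h3

omit [Fintype ι] [DecidableEq ι] [Fintype β] [DecidableEq β] in
private theorem c3_pi {v : V n} (hv : v ≠ 0) : ∃ y : V n, ⟪v, y⟫_ℝ = Real.pi := by
  refine ⟨(Real.pi / ‖v‖ ^ 2) • v, ?_⟩
  rw [real_inner_smul_right, real_inner_self_eq_norm_sq]
  exact div_mul_cancel₀ _ (pow_ne_zero 2 (norm_ne_zero_iff.2 hv))

omit [Fintype ι] [DecidableEq ι] [Fintype β] [DecidableEq β] in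
private theorem c3_conj (t : ℝ) : (starRingEnd ℂ) (Complex.exp (Complex.I * (t : ℂ))) =
    Complex.exp (-(Complex.I * (t : ℂ))) := by
  rw [← Complex.exp_conj, map_mul, Complex.conj_I, Complex.conj_ofReal, neg_mul]

private theorem c3_zero {a c : ℂ} (h : a = c * a) (hc : c = -1) : a = 0 := by
  rw [hc] at h
  have h1 : (2 : ℂ) * a = 0 := by linear_combination h
  exact (mul_eq_zero.1 h1).resolve_left two_ne_zero

theorem RG.LV_off (R : RG n ι β) {Φ : Matrix ι ι ℂ → ℝ} (hΦ : R.Smooth 2 Φ) (hinv : R.Inv Φ)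
    (x : V n) :
    (∀ j b, R.LV Φ (Tm R.m (ofR x)) (Sum.inl j) (Sum.inr b) = 0) ∧
    (∀ j b, R.LV Φ (Tm R.m (ofR x)) (Sum.inr b) (Sum.inl j) = 0) ∧
    (∀ b b', b ≠ b' → R.LV Φ (Tm R.m (ofR x)) (Sum.inr b) (Sum.inr b') = 0) := by
  have e1 : Complex.exp (Complex.I * ((Real.pi : ℝ) : ℂ)) = -1 := by
    rw [mul_comm, Complex.exp_pi_mul_I]
  have e2 : Complex.exp (-(Complex.I * ((Real.pi : ℝ) : ℂ))) = -1 := by
    rw [Complex.exp_neg, e1, inv_neg, inv_one]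
  refine ⟨?_, ?_, ?_⟩
  · intro j b
    obtain ⟨y, hy⟩ := c3_pi (R.root_ne b)
    refine c3_zero (c3_key R hΦ hinv x y (Sum.inl j) (Sum.inr b)) ?_
    simp only [Sum.elim_inl, Sum.elim_inr]
    rw [one_mul, c3_conj, hy, e2]
  · intro j b
    obtain ⟨y, hy⟩ := c3_pi (R.root_ne b)
    refine c3_zero (c3_key R hΦ hinv x y (Sum.inr b) (Sum.inl j)) ?_
    simp only [Sum.elim_inl, Sum.elim_inr]
    rw [map_one, mul_one, hy, e1]
  · intro b b' hbb
    have hne : R.γ b - R.γ b' ≠ 0 := fun h => hbb (R.root_inj (sub_eq_zero.1 h))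
    obtain ⟨y, hy⟩ := c3_pi hne
    refine c3_zero (c3_key R hΦ hinv x y (Sum.inr b) (Sum.inr b')) ?_
    simp only [Sum.elim_inr]
    rw [c3_conj, ← Complex.exp_add]
    have h1 : Complex.I * ((⟪R.γ b, y⟫_ℝ : ℝ) : ℂ) + -(Complex.I * ((⟪R.γ b', y⟫_ℝ : ℝ) : ℂ)) =
        Complex.I * ((Real.pi : ℝ) : ℂ) := by
      rw [← hy, inner_sub_left]
      push_cast
      ring
    rw [h1, e1]

end Pool.Agent.LibRG65
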