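import Pool.Agent.LibRG65.Defs

/-!
[RG65 C4a] SHORT/MEDIUM. The second derivative of a composition with a curve (helper65). Mathlib + `D2`.

Plan. `f` is `C²` near `c 0`, so differentiable at all points near `c 0` and `fderiv ℝ f` is differentiable at `c 0`
(`ContDiffAt.eventually`, `ContDiffAt.fderiv_right`).  For `t` near `0` (`c` continuous): `deriv (fun t => f (c t)) t = fderiv ℝ f (c t) (deriv c t)`
(`HasFDerivAt.comp_hasDerivAt`), `Filter.EventuallyEq.deriv_eq`; then `HasDerivAt.clm_apply` at `0` (`deriv c` is differentiable: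
`ContDiff.iterate_deriv'` or `contDiff_succ_iff_deriv`).  `D2_line`: `c t = t • a`: `deriv c = fun _ => a`, `deriv (deriv c) 0 = 0`.
-/

set_option autoImplicit false

open MeasureTheory
open scoped InnerProductSpace ComplexOrder Matrix

namespace Pool.Agent.LibRG65

open Pool.Agent.LibTK94 Pool.Agent.LibHK65

variable {n : ℕ} {ι β : Type} [Fintype ι] [DecidableEq ι] [Fintype β] [DecidableEq β]

theorem second_chain {W : Type} [NormedAddCommGroup W] [NormedSpace ℝ W] {f : W → ℝ}
    {c : ℝ → W} (hc : ContDiff ℝ 2 c) (hf : ContDiffAt ℝ 2 f (c 0)) :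
    deriv (deriv fun t => f (c t)) 0 =
      D2 f (c 0) (deriv c 0) (deriv c 0) + fderiv ℝ f (c 0) (deriv (deriv c) 0) := by
  have hcd : Differentiable ℝ c := hc.differentiable (by norm_num)
  have hc2 : Differentiable ℝ (deriv c) := by
    have h1 : ContDiff ℝ (1 + 1) c := by
      rw [one_add_one_eq_two]
      exact hc
    exact (contDiff_succ_iff_deriv.1 h1).2.2.differentiable (by norm_num)
  have h2 : ∀ᶠ y in nhds (c 0), ContDiffAt ℝ 2 f y := hf.eventually (by simp)
  have h3 : ∀ᶠ t in nhds (0 : ℝ), ContDiffAt ℝ 2 f (c t) :=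
    hc.continuous.continuousAt.eventually h2
  have h4 : (deriv fun t => f (c t)) =ᶠ[nhds 0] fun t => fderiv ℝ f (c t) (deriv c t) := by
    filter_upwards [h3] with t ht
    exact ((ht.differentiableAt (by norm_num)).hasFDerivAt.comp_hasDerivAt t
      (hcd t).hasDerivAt).deriv
  rw [h4.deriv_eq]
  have h5 : DifferentiableAt ℝ (fderiv ℝ f) (c 0) :=
    (hf.fderiv_right (m := 1) (by norm_num)).differentiableAt (by norm_num)
  have h6 : HasDerivAt (fun t => fderiv ℝ f (c t)) (fderiv ℝ (fderiv ℝ f) (c 0) (deriv c 0)) 0 :=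
    h5.hasFDerivAt.comp_hasDerivAt 0 (hcd 0).hasDerivAt
  exact (h6.clm_apply (hc2 0).hasDerivAt).deriv

theorem D2_line {W : Type} [NormedAddCommGroup W] [NormedSpace ℝ W] {F : W → ℝ}
    (hF : ContDiff ℝ 2 F) (a : W) : deriv (deriv fun t : ℝ => F (t • a)) 0 = D2 F 0 a a := by
  have h1 : ContDiff ℝ 2 fun t : ℝ => t • a := contDiff_id.smul contDiff_const
  have h2 : (deriv fun t : ℝ => t • a) = fun _ => a := by
    funext t
    have h3 := ((hasDerivAt_id t).smul_const a).deriv
    rw [one_smul] at h3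
    exact h3
  have h4 := second_chain (f := F) h1 hF.contDiffAt
  rw [h2, deriv_const, map_zero, add_zero] at h4
  rw [h4]
  simp only [zero_smul]

end Pool.Agent.LibRG65
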