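import Pool.Agent.LibRG65.Defs

/-!
[RG65 C4b] MEDIUM. The two-jet of `exp (t X) A exp (t Y)` (helper65). Mathlib only.
-/

set_option autoImplicit false

open MeasureTheory
open scoped InnerProductSpace ComplexOrder Matrix

namespace Pool.Agent.LibRG65

open Pool.Agent.LibTK94 Pool.Agent.LibHK65

variable {n : ℕ} {ι β : Type} [Fintype ι] [DecidableEq ι] [Fintype β] [DecidableEq β]

/-- the curve `exp (t X) A exp (t Y)` -/
noncomputable def jc (A X Y : Matrix ι ι ℂ) (t : ℝ) : ι → ι → ℂ :=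
  fun i j => (NormedSpace.exp (t • X) * A * NormedSpace.exp (t • Y)) i j

section C4bAux

attribute [local instance] Matrix.linftyOpNormedAddCommGroup Matrix.linftyOpNormedSpace
  Matrix.linftyOpNormedRing Matrix.linftyOpNormedAlgebra

/-- the derivative of the curve of matrices -/
theorem C4b_hasDerivAt (A X Y : Matrix ι ι ℂ) (t : ℝ) :
    HasDerivAt (fun t : ℝ => NormedSpace.exp (t • X) * A * NormedSpace.exp (t • Y))
      (X * (NormedSpace.exp (t • X) * A * NormedSpace.exp (t • Y)) +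
        (NormedSpace.exp (t • X) * A * NormedSpace.exp (t • Y)) * Y) t := by
  have h1 : HasDerivAt (fun t : ℝ => NormedSpace.exp (t • X)) (X * NormedSpace.exp (t • X)) t :=
    hasDerivAt_exp_smul_const' X t
  have h2 : HasDerivAt (fun t : ℝ => NormedSpace.exp (t • Y)) (NormedSpace.exp (t • Y) * Y) t :=
    hasDerivAt_exp_smul_const Y t
  have h3 := (h1.mul_const A).mul h2
  have h4 : X * NormedSpace.exp (t • X) * A * NormedSpace.exp (t • Y) +
      NormedSpace.exp (t • X) * A * (NormedSpace.exp (t • Y) * Y) =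
      X * (NormedSpace.exp (t • X) * A * NormedSpace.exp (t • Y)) +
        (NormedSpace.exp (t • X) * A * NormedSpace.exp (t • Y)) * Y := by
    simp only [mul_assoc]
  rw [← h4]
  exact h3

/-- the entries of a differentiable curve of matrices -/
theorem C4b_entry {F : ℝ → Matrix ι ι ℂ} {F' : Matrix ι ι ℂ} {t : ℝ} (h : HasDerivAt F F' t) :
    HasDerivAt (fun t => fun i j => F t i j : ℝ → ι → ι → ℂ) (fun i j => F' i j) t := by
  refine hasDerivAt_pi.2 (fun i => hasDerivAt_pi.2 (fun j => ?_))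
  have hL : ∀ M : Matrix ι ι ℂ, ‖M i j‖ ≤ 1 * ‖M‖ := by
    intro M
    rw [one_mul, Matrix.linfty_opNorm_def]
    have h1 : ‖M i j‖₊ ≤ ∑ j, ‖M i j‖₊ :=
      Finset.single_le_sum (f := fun j => ‖M i j‖₊) (fun _ _ => zero_le) (Finset.mem_univ j)
    have h2 : (∑ j, ‖M i j‖₊) ≤ (Finset.univ : Finset ι).sup fun i => ∑ j, ‖M i j‖₊ :=
      Finset.le_sup (f := fun i => ∑ j, ‖M i j‖₊) (Finset.mem_univ i)
    exact_mod_cast h1.trans h2
  let L : Matrix ι ι ℂ →L[ℝ] ℂ := LinearMap.mkContinuous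
    { toFun := fun M => M i j
      map_add' := fun M N => rfl
      map_smul' := fun r M => rfl } 1 hL
  exact L.hasFDerivAt.comp_hasDerivAt t h

end C4bAux

theorem C4b_jc_hasDerivAt (A X Y : Matrix ι ι ℂ) (t : ℝ) :
    HasDerivAt (jc A X Y) (fun i j => (X * Matrix.of (jc A X Y t) + Matrix.of (jc A X Y t) * Y) i j) t :=
  C4b_entry (C4b_hasDerivAt A X Y t)

/-- the derivative as a sum of curves of the same kind -/
theorem C4b_deriv_jc (A X Y : Matrix ι ι ℂ) :
    deriv (jc A X Y) = fun t => jc (X * A) X Y t + jc (A * Y) X Y t := by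
  funext t
  rw [(C4b_jc_hasDerivAt A X Y t).deriv]
  funext i j
  have e1 : X * NormedSpace.exp (t • X) = NormedSpace.exp (t • X) * X :=
    (((Commute.refl X).smul_right t).exp_right).eq
  have e2 : Y * NormedSpace.exp (t • Y) = NormedSpace.exp (t • Y) * Y :=
    (((Commute.refl Y).smul_right t).exp_right).eq
  have e3 : (Matrix.of (jc A X Y t) : Matrix ι ι ℂ) =
      NormedSpace.exp (t • X) * A * NormedSpace.exp (t • Y) := by
    ext i j; rfl
  rw [e3]
  change _ = (NormedSpace.exp (t • X) * (X * A) * NormedSpace.exp (t • Y)) i j +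
    (NormedSpace.exp (t • X) * (A * Y) * NormedSpace.exp (t • Y)) i j
  rw [Matrix.add_apply]
  congr 1
  · rw [← mul_assoc, ← mul_assoc, e1, mul_assoc (NormedSpace.exp (t • X)) X A]
  · rw [mul_assoc, ← e2]
    simp only [mul_assoc]

theorem C4b_contDiff (k : ℕ) : ∀ A X Y : Matrix ι ι ℂ, ContDiff ℝ k (jc A X Y) := by
  induction k with
  | zero =>
    intro A X Y
    exact contDiff_zero.2 (continuous_iff_continuousAt.2
      (fun t => (C4b_jc_hasDerivAt A X Y t).continuousAt))
  | succ k ih =>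
    intro A X Y
    rw [show ((k + 1 : ℕ) : WithTop ℕ∞) = (k : WithTop ℕ∞) + 1 by push_cast; rfl,
      contDiff_succ_iff_deriv]
    refine ⟨fun t => (C4b_jc_hasDerivAt A X Y t).differentiableAt, by simp, ?_⟩
    rw [C4b_deriv_jc]
    exact (ih (X * A) X Y).add (ih (A * Y) X Y)

theorem contDiff_jc (A X Y : Matrix ι ι ℂ) : ContDiff ℝ 2 (jc A X Y) :=
  C4b_contDiff 2 A X Y

theorem jc_zero (A X Y : Matrix ι ι ℂ) : jc A X Y 0 = fun i j => A i j := by
  funext i j
  simp [jc]

theorem deriv_jc (A X Y : Matrix ι ι ℂ) :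
    deriv (jc A X Y) 0 = fun i j => (X * A + A * Y) i j := by
  rw [C4b_deriv_jc]
  funext i j
  simp [jc]

theorem deriv_deriv_jc (A X Y : Matrix ι ι ℂ) :
    deriv (deriv (jc A X Y)) 0 =
      fun i j => (X * X * A + (2 : ℝ) • (X * A * Y) + A * Y * Y) i j := by
  have h1 : HasDerivAt (fun t => jc (X * A) X Y t + jc (A * Y) X Y t)
      ((fun i j => (X * Matrix.of (jc (X * A) X Y 0) + Matrix.of (jc (X * A) X Y 0) * Y) i j) +
        (fun i j => (X * Matrix.of (jc (A * Y) X Y 0) + Matrix.of (jc (A * Y) X Y 0) * Y) i j)) 0 :=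
    (C4b_jc_hasDerivAt (X * A) X Y 0).add (C4b_jc_hasDerivAt (A * Y) X Y 0)
  rw [C4b_deriv_jc, h1.deriv]
  funext i j
  have e1 : ∀ B : Matrix ι ι ℂ, (Matrix.of (jc B X Y 0) : Matrix ι ι ℂ) = B := by
    intro B
    ext a b
    simp [jc]
  rw [e1, e1]
  change (X * (X * A) + X * A * Y) i j + (X * (A * Y) + A * Y * Y) i j = _
  have e2 : (2 : ℝ) • (X * A * Y) = X * A * Y + X * A * Y := two_smul ℝ _
  have e3 : X * (X * A) + X * A * Y + (X * (A * Y) + A * Y * Y) =
      X * X * A + (2 : ℝ) • (X * A * Y) + A * Y * Y := by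
    rw [e2]
    simp only [mul_assoc]
    abel
  rw [← e3]
  rfl

end Pool.Agent.LibRG65
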