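import Pool.Agent.LibRG65.Defs

/-!
[RG65 C4g] SHORT/MEDIUM. Matrix identities (helper65). Mathlib only, noncommutative algebra.

Put `a = exp g0`, `a⁻¹ = exp (-g0)`.  `hV`: `A V = a • V A`, so `V A = a⁻¹ • A V`; taking adjoints (`hA`, real scalar): `Vᴴ A = a • A Vᴴ`.
With `X = V - Vᴴ`: `X A = A (a⁻¹ • V - a • Vᴴ)`.  First: `X A - a • A X = (a⁻¹ - a) • A V`.
Second: `Y0 = a⁻¹ • V - a • Vᴴ`, `X A = A Y0`, `X X A = A Y0 Y0`, `X A X = A Y0 X`; so the left side is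
`A (Y0 Y0 - 2 a Y0 X + a² X X)`, and expanding in `V V`, `V Vᴴ`, `Vᴴ V`, `Vᴴ Vᴴ`:
`V V: a⁻² - 2 + a² = (a⁻¹ - a)²`; `Vᴴ Vᴴ: a² - 2 a² + a² = 0`; `V Vᴴ: -1 + 2 - a² = 1 - a²`; `Vᴴ V: -1 + 2 a² - a² = a² - 1`.
(`Matrix.mul_sub`, `Matrix.mul_smul`, `Matrix.smul_mul`, `module`-like finish; `exp (2 g0) = a²`.)
-/

set_option autoImplicit false

open MeasureTheory
open scoped InnerProductSpace ComplexOrder Matrix

namespace Pool.Agent.LibRG65

open Pool.Agent.LibTK94 Pool.Agent.LibHK65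

variable {n : ℕ} {ι β : Type} [Fintype ι] [DecidableEq ι] [Fintype β] [DecidableEq β]

omit [DecidableEq ι] in
private theorem c4g_VA {A V : Matrix ι ι ℂ} {g0 : ℝ}
    (hV : A * V = Real.exp g0 • (V * A)) : V * A = Real.exp (-g0) • (A * V) := by
  rw [hV, smul_smul, ← Real.exp_add, neg_add_cancel, Real.exp_zero, one_smul]

omit [DecidableEq ι] in
private theorem c4g_WA {A V : Matrix ι ι ℂ} (hA : Aᴴ = A) {g0 : ℝ}
    (hV : A * V = Real.exp g0 • (V * A)) : Vᴴ * A = Real.exp g0 • (A * Vᴴ) := by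
  have h := congrArg Matrix.conjTranspose hV
  rw [Matrix.conjTranspose_mul, Matrix.conjTranspose_smul, Matrix.conjTranspose_mul, hA] at h
  rw [h]
  simp

theorem jet_one {A V : Matrix ι ι ℂ} (hA : Aᴴ = A) {g0 : ℝ}
    (hV : A * V = Real.exp g0 • (V * A)) :
    (V - Vᴴ) * A + A * ((-Real.exp g0) • (V - Vᴴ)) =
      A * ((Real.exp (-g0) - Real.exp g0) • V) := by
  have h1 := c4g_VA hV
  have h2 := c4g_WA hA hV
  rw [Matrix.sub_mul, h1, h2, Matrix.mul_smul, Matrix.mul_smul, Matrix.mul_sub]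
  module

theorem jet_two {A V : Matrix ι ι ℂ} (hA : Aᴴ = A) {g0 : ℝ}
    (hV : A * V = Real.exp g0 • (V * A)) :
    (V - Vᴴ) * (V - Vᴴ) * A + (2 : ℝ) • ((V - Vᴴ) * A * ((-Real.exp g0) • (V - Vᴴ))) +
        A * ((-Real.exp g0) • (V - Vᴴ)) * ((-Real.exp g0) • (V - Vᴴ)) =
      A * ((Real.exp (-g0) - Real.exp g0) • V) * ((Real.exp (-g0) - Real.exp g0) • V) +
        (1 - Real.exp (2 * g0)) • (A * (V * Vᴴ - Vᴴ * V)) := by
  have h1 := c4g_VA hV
  have h2 := c4g_WA hA hV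
  have hab : Real.exp g0 * Real.exp (-g0) = 1 := by
    rw [← Real.exp_add, add_neg_cancel, Real.exp_zero]
  have h3 : Real.exp (2 * g0) = Real.exp g0 ^ 2 := by
    rw [two_mul, Real.exp_add, sq]
  rw [h3]
  generalize Real.exp g0 = a at *
  generalize Real.exp (-g0) = b at *
  generalize Vᴴ = W at *
  have e1 : V * V * A = (b * b) • (A * (V * V)) := by
    rw [Matrix.mul_assoc, h1, Matrix.mul_smul, ← Matrix.mul_assoc, h1, Matrix.smul_mul, smul_smul,
      Matrix.mul_assoc]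
  have e2 : V * W * A = (a * b) • (A * (V * W)) := by
    rw [Matrix.mul_assoc, h2, Matrix.mul_smul, ← Matrix.mul_assoc, h1, Matrix.smul_mul, smul_smul,
      Matrix.mul_assoc]
  have e3 : W * V * A = (b * a) • (A * (W * V)) := by
    rw [Matrix.mul_assoc, h1, Matrix.mul_smul, ← Matrix.mul_assoc, h2, Matrix.smul_mul, smul_smul,
      Matrix.mul_assoc]
  have e4 : W * W * A = (a * a) • (A * (W * W)) := by
    rw [Matrix.mul_assoc, h2, Matrix.mul_smul, ← Matrix.mul_assoc, h2, Matrix.smul_mul, smul_smul,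
      Matrix.mul_assoc]
  simp only [Matrix.sub_mul, Matrix.mul_sub, Matrix.mul_smul, Matrix.smul_mul, h1, h2, e1, e2, e3,
    e4, smul_sub, smul_smul, Matrix.mul_assoc]
  match_scalars
  · ring
  · linear_combination -hab
  · linear_combination hab
  · ring

end Pool.Agent.LibRG65
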