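import Pool.Agent.LibRG65.T0

/-!
[RG65 T3] MEDIUM. The Lie algebra is stable under `Ad G`, brackets and conjugate transpose (helper65). Cites T0.

`lie_ad`: `exp (t (g X g⁻¹)) = g exp (t X) g⁻¹ ∈ G` (`Matrix.exp_conj`; `IsUnit g` from `IsUnit g.det`), `R.lie`.
`lie_star`: `exp (t Xᴴ) = (exp (t X))ᴴ` (`Matrix.exp_conjTranspose`), `R.star`, `R.lie`.
`lie_bracket`: the range of `Xm` is a complex subspace `S` (T0), closed (finite dimensional: `Submodule.closed_of_finiteDimensional`).  For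
`X, Y ∈ S`: `c t = exp (t X) Y exp (-t X) ∈ S` for real `t` (`lie_ad`; `(exp A)⁻¹ = exp (-A)`), and `c` has the derivative `X Y - Y X` at
`0` (`hasDerivAt_exp_smul_const` etc. in a normed algebra structure on matrices, e.g. `open scoped Matrix.Norms.Operator`), a limit of
`(c t - c 0) / t ∈ S`.
-/

set_option autoImplicit false

open MeasureTheory
open scoped InnerProductSpace ComplexOrder Matrix

namespace Pool.Agent.LibRG65

open Pool.Agent.LibTK94 Pool.Agent.LibHK65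

variable {n : ℕ} {ι β : Type} [Fintype ι] [DecidableEq ι] [Fintype β] [DecidableEq β]

private theorem t3_tend (X Y : Matrix ι ι ℂ) :
    Filter.Tendsto (fun t : ℝ => t⁻¹ • (NormedSpace.exp ((0 + t) • X) * Y *
      NormedSpace.exp (-((0 + t) • X)) - NormedSpace.exp ((0 : ℝ) • X) * Y *
      NormedSpace.exp (-((0 : ℝ) • X)))) (nhdsWithin 0 {0}ᶜ) (nhds (X * Y - Y * X)) := by
  let _ : NormedRing (Matrix ι ι ℂ) := Matrix.linftyOpNormedRing
  let _ : NormedAlgebra ℝ (Matrix ι ι ℂ) := Matrix.linftyOpNormedAlgebra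
  have h1 := hasDerivAt_exp_smul_const (𝕂 := ℝ) X (0 : ℝ)
  have h2 := hasDerivAt_exp_smul_const (𝕂 := ℝ) (-X) (0 : ℝ)
  simp only [smul_neg] at h2
  have h3 := ((h1.mul_const Y).mul h2).tendsto_slope_zero
  have e : NormedSpace.exp ((0 : ℝ) • X) * X * Y * NormedSpace.exp (-((0 : ℝ) • X)) +
      NormedSpace.exp ((0 : ℝ) • X) * Y * (NormedSpace.exp (-((0 : ℝ) • X)) * -X) =
      X * Y - Y * X := by
    rw [zero_smul, neg_zero, NormedSpace.exp_zero]
    simp [sub_eq_add_neg]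
  rw [← e]
  exact h3

theorem RG.lie_ad (R : RG n ι β) {g : Matrix ι ι ℂ} (hg : g ∈ R.G) (z : Fin n ⊕ β → ℂ) :
    ∃ z', g * Xm R.m R.E z * g⁻¹ = Xm R.m R.E z' := by
  have hX := (R.lie (Xm R.m R.E z)).2 ⟨z, rfl⟩
  have h : ∀ t : ℝ, NormedSpace.exp (t • (g * Xm R.m R.E z * g⁻¹)) ∈ R.G := by
    intro t
    have e : t • (g * Xm R.m R.E z * g⁻¹) = g * (t • Xm R.m R.E z) * g⁻¹ := by
      rw [Matrix.mul_smul, Matrix.smul_mul]
    have hu : IsUnit g := (Matrix.isUnit_iff_isUnit_det g).2 (R.inv g hg).1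
    rw [e, Matrix.exp_conj g _ hu]
    exact R.G.mul_mem (R.G.mul_mem hg (hX t)) (R.inv g hg).2
  exact (R.lie _).1 h

theorem RG.lie_star (R : RG n ι β) (z : Fin n ⊕ β → ℂ) :
    ∃ z', (Xm R.m R.E z)ᴴ = Xm R.m R.E z' := by
  have hX := (R.lie (Xm R.m R.E z)).2 ⟨z, rfl⟩
  have h : ∀ t : ℝ, NormedSpace.exp (t • (Xm R.m R.E z)ᴴ) ∈ R.G := by
    intro t
    have e : t • (Xm R.m R.E z)ᴴ = (t • Xm R.m R.E z)ᴴ := by
      rw [Matrix.conjTranspose_smul, star_trivial]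
    rw [e, Matrix.exp_conjTranspose]
    exact R.star _ (hX t)
  exact (R.lie _).1 h

theorem RG.lie_bracket (R : RG n ι β) (z z' : Fin n ⊕ β → ℂ) :
    ∃ z'', Xm R.m R.E z * Xm R.m R.E z' - Xm R.m R.E z' * Xm R.m R.E z = Xm R.m R.E z'' := by
  classical
  set X := Xm R.m R.E z with hXd
  set Y := Xm R.m R.E z' with hYd
  -- the range as a submodule
  let S : Submodule ℂ (Matrix ι ι ℂ) :=
    { carrier := {A | ∃ z, A = Xm R.m R.E z}
      add_mem' := by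
        rintro a b ⟨u, rfl⟩ ⟨v, rfl⟩
        exact ⟨u + v, (Xm_add _ _ _ _).symm⟩
      zero_mem' := ⟨0, (Xm_zero _ _).symm⟩
      smul_mem' := by
        rintro c a ⟨u, rfl⟩
        exact ⟨c • u, (Xm_smul _ _ _ _).symm⟩ }
  have hmem : ∀ A, A ∈ S ↔ ∃ z, A = Xm R.m R.E z := fun A => Iff.rfl
  have hcl : IsClosed (S : Set (Matrix ι ι ℂ)) := Submodule.closed_of_finiteDimensional S
  have hc : ∀ t : ℝ, NormedSpace.exp (t • X) * Y * NormedSpace.exp (-(t • X)) ∈ S := by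
    intro t
    have hg : NormedSpace.exp (t • X) ∈ R.G := (R.lie X).2 ⟨z, rfl⟩ t
    obtain ⟨u, hu⟩ := R.lie_ad hg z'
    refine (hmem _).2 ⟨u, ?_⟩
    rw [← hu, ← hYd, Matrix.exp_neg]
  have hlim := t3_tend X Y
  have hin : ∀ᶠ t : ℝ in nhdsWithin 0 {0}ᶜ, t⁻¹ • (NormedSpace.exp ((0 + t) • X) * Y *
      NormedSpace.exp (-((0 + t) • X)) - NormedSpace.exp ((0 : ℝ) • X) * Y *
      NormedSpace.exp (-((0 : ℝ) • X))) ∈ (S : Set (Matrix ι ι ℂ)) := by
    filter_upwards with t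
    have h1 := S.sub_mem (hc (0 + t)) (hc 0)
    have h2 := S.smul_mem ((t⁻¹ : ℝ) : ℂ) h1
    have e : ((t⁻¹ : ℝ) : ℂ) • (NormedSpace.exp ((0 + t) • X) * Y *
      NormedSpace.exp (-((0 + t) • X)) - NormedSpace.exp ((0 : ℝ) • X) * Y *
      NormedSpace.exp (-((0 : ℝ) • X))) = t⁻¹ • (NormedSpace.exp ((0 + t) • X) * Y *
      NormedSpace.exp (-((0 + t) • X)) - NormedSpace.exp ((0 : ℝ) • X) * Y *
      NormedSpace.exp (-((0 : ℝ) • X))) := by
      ext i j
      simp [Matrix.smul_apply]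
    rw [e] at h2
    exact h2
  have := hcl.mem_of_tendsto hlim hin
  exact (hmem _).1 this

end Pool.Agent.LibRG65
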