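import Pool.Agent.LibRG65.T1
import Pool.Agent.LibRG65.T3
import Pool.Agent.LibRG65.C1
import Pool.Agent.LibRG65.C4a
import Pool.Agent.LibRG65.C4b
import Pool.Agent.LibRG65.C4g
import Pool.Agent.LibHK65.C1

/-!
[RG65 C4c] MEDIUM. The second variation in a root direction (helper65). Cites T0, T1, T3, C1, C4a, C4b, C4g.

Notation: `A = Tm m (ofR x)` (`Aᴴ = A` by `Tm_star` or `posDef_Tm`), `V = Xm z`, `a = exp g0`, `ρ = exp (-g0) - exp g0`, `f = fun a => Φ (Matrix.of a)`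
is `C²` at `A` (`hΦ A`, `Tm_mem`).
(1) `X = V - Vᴴ` is in the Lie algebra (`lie_star`, `Xm_add`, `Xm_smul` with `-1`), skew-hermitian, so `exp (t X) ∈ K`, `exp (t (-a X)) ∈ K`
(`mem_exp_K`, `t • ((-a) • X) = (t * -a) • X`), and `f (jc A X (-a X) t) = Φ A` for all `t` (`hinv`); so its second derivative is `0`.
(2) `f (jc A 0 (ρ V) t) = Φ (A * exp (t • (ρ • V))) = Φ (R.pt A (t • (ρ • z)))` (`Xm_smul`; real scalars), so by `D2_line` its second derivative is
`D2 F 0 (ρ z) (ρ z) = ρ² D2 F 0 z z`, `F z' = Φ (R.pt A z')`.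
(3) `f (jc A 0 (Dm (ofR h)) t) = R.U Φ (x + t h)` (`exp_Dm`, `Tm_add`), first derivative at `0`: `fderiv ℝ f A (A * Dm) = ⟪gradient (R.U Φ) x, h⟫`
(`smooth_U`, `InnerProductSpace.toDual_symm_apply`, chain rule in both ways with `deriv_jc`).
(4) `second_chain` for both curves of (1), (2); the first derivatives at `0` agree (`deriv_jc`, `jet_one`), the second derivatives differ by
`(1 - exp (2 g0)) • (A * Dm)` (`deriv_deriv_jc`, `jet_two`, `hh`), and `fderiv ℝ f A` is linear.  So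
`0 = ρ² D2 F 0 z z + (1 - exp (2 g0)) * ⟪gradient (R.U Φ) x, h⟫`.
-/

set_option autoImplicit false

open MeasureTheory
open scoped InnerProductSpace ComplexOrder Matrix

namespace Pool.Agent.LibRG65

open Pool.Agent.LibTK94 Pool.Agent.LibHK65

variable {n : ℕ} {ι β : Type} [Fintype ι] [DecidableEq ι] [Fintype β] [DecidableEq β]

private theorem c4c_smul (m : ι → V n) (E : β → Matrix ι ι ℂ) (c : ℝ) (z : Fin n ⊕ β → ℂ) :
    Xm m E (c • z) = c • Xm m E z := by
  have h := Xm_smul m E (c : ℂ) z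
  have e1 : (c : ℂ) • z = c • z := by
    funext i
    simp
  have e2 : (c : ℂ) • Xm m E z = c • Xm m E z := by
    ext i j
    simp
  rw [← e1, h, e2]

omit [Fintype β] [DecidableEq β] in
private theorem c4c_Dm_smul (m : ι → V n) (t : ℝ) (h : V n) :
    Dm m (ofR (t • h)) = t • Dm m (ofR h) := by
  rw [Dm_ofR, Dm_ofR]
  ext i j
  simp only [Matrix.smul_apply, Matrix.diagonal_apply, inner_smul_right]
  split_ifs <;> simp

theorem RG.second_var (R : RG n ι β) {Φ : Matrix ι ι ℂ → ℝ} (hΦ : R.Smooth 2 Φ)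
    (hinv : R.Inv Φ) (x : V n) {z : Fin n ⊕ β → ℂ} {g0 : ℝ}
    (hV : Tm R.m (ofR x) * Xm R.m R.E z = Real.exp g0 • (Xm R.m R.E z * Tm R.m (ofR x)))
    {h : V n} (hh : Xm R.m R.E z * (Xm R.m R.E z)ᴴ - (Xm R.m R.E z)ᴴ * Xm R.m R.E z =
      Dm R.m (ofR h)) :
    (Real.exp (-g0) - Real.exp g0) ^ 2 * D2 (fun z' => Φ (R.pt (Tm R.m (ofR x)) z')) 0 z z =
      (Real.exp (2 * g0) - 1) * ⟪gradient (R.U Φ) x, h⟫_ℝ := by
  have hAs : (Tm R.m (ofR x))ᴴ = Tm R.m (ofR x) := (posDef_Tm R.m x).isHermitian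
  have hAG : Tm R.m (ofR x) ∈ R.G := R.Tm_mem _
  have hF : ContDiff ℝ 2 (fun z' => Φ (R.pt (Tm R.m (ofR x)) z')) := R.smooth_pt hΦ hAG
  have hfC : ContDiffAt ℝ 2 (fun a : ι → ι → ℂ => Φ (Matrix.of a))
      (fun i j => Tm R.m (ofR x) i j) := hΦ _ hAG
  have hU : ContDiff ℝ 2 (R.U Φ) := R.smooth_U hΦ
  have hj1 := jet_one hAs hV
  have hj2 := jet_two hAs hV
  rw [hh] at hj2
  set f : (ι → ι → ℂ) → ℝ := fun a => Φ (Matrix.of a) with hf_def
  set A : Matrix ι ι ℂ := Tm R.m (ofR x) with hA_def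
  set W : Matrix ι ι ℂ := Xm R.m R.E z with hW_def
  set ρ : ℝ := Real.exp (-g0) - Real.exp g0 with hρ_def
  set D : Matrix ι ι ℂ := Dm R.m (ofR h) with hD_def
  -- (1)
  obtain ⟨z', hz'⟩ := R.lie_star z
  have hX1 : ∀ t : ℝ, NormedSpace.exp (t • (W - Wᴴ)) ∈ R.G := by
    refine (R.lie _).2 ⟨z + (-1 : ℂ) • z', ?_⟩
    rw [Xm_add, Xm_smul, ← hz', neg_one_smul, sub_eq_add_neg]
  have hX2 : (W - Wᴴ)ᴴ = -(W - Wᴴ) := by
    rw [Matrix.conjTranspose_sub, Matrix.conjTranspose_conjTranspose, neg_sub]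
  have e1 : (fun t => f (jc A (W - Wᴴ) ((-Real.exp g0) • (W - Wᴴ)) t)) = fun _ => Φ A := by
    funext t
    show Φ (NormedSpace.exp (t • (W - Wᴴ)) * A *
      NormedSpace.exp (t • ((-Real.exp g0) • (W - Wᴴ)))) = Φ A
    refine hinv A hAG _ (R.mem_exp_K hX1 hX2 t) _ ?_
    rw [smul_smul]
    exact R.mem_exp_K hX1 hX2 _
  have s1 : deriv (deriv fun t => f (jc A (W - Wᴴ) ((-Real.exp g0) • (W - Wᴴ)) t)) 0 = 0 := by
    rw [e1]
    simp
  -- (2)
  have e2 : (fun t => f (jc A 0 (ρ • W) t)) = fun t : ℝ => Φ (R.pt A (t • (ρ • z))) := by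
    funext t
    show Φ (NormedSpace.exp (t • (0 : Matrix ι ι ℂ)) * A * NormedSpace.exp (t • (ρ • W))) =
      Φ (A * NormedSpace.exp (Xm R.m R.E (t • (ρ • z))))
    rw [smul_zero, NormedSpace.exp_zero, one_mul, c4c_smul, c4c_smul]
  have s2 : deriv (deriv fun t => f (jc A 0 (ρ • W) t)) 0 =
      ρ ^ 2 * D2 (fun z' => Φ (R.pt A z')) 0 z z := by
    rw [e2, D2_line hF (ρ • z)]
    unfold D2
    simp only [map_smul, smul_apply, smul_eq_mul]
    ring
  -- (3)
  have e3 : (fun t => f (jc A 0 D t)) = fun t : ℝ => R.U Φ (x + t • h) := by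
    funext t
    show Φ (NormedSpace.exp (t • (0 : Matrix ι ι ℂ)) * A * NormedSpace.exp (t • D)) =
      Φ (Tm R.m (ofR (x + t • h)))
    have h5 : ofR (x + t • h) = ofR x + ofR (t • h) := by
      funext k
      simp [ofR]
    rw [smul_zero, NormedSpace.exp_zero, one_mul, hD_def, ← c4c_Dm_smul, exp_Dm, h5, Tm_add]
  have hfd : DifferentiableAt ℝ f (fun i j => A i j) := hfC.differentiableAt (by norm_num)
  have s3 : fderiv ℝ f (fun i j => A i j) (fun i j => (A * D) i j) =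
      ⟪gradient (R.U Φ) x, h⟫_ℝ := by
    have d1 : HasDerivAt (jc A 0 D) (fun i j => ((0 : Matrix ι ι ℂ) * A + A * D) i j) 0 := by
      rw [← deriv_jc]
      exact ((contDiff_jc A 0 D).differentiable (by norm_num) 0).hasDerivAt
    have d2 : HasDerivAt (fun t => f (jc A 0 D t))
        (fderiv ℝ f (fun i j => A i j) (fun i j => ((0 : Matrix ι ι ℂ) * A + A * D) i j)) 0 := by
      have hfd' : HasFDerivAt f (fderiv ℝ f (fun i j => A i j)) (jc A 0 D 0) := by
        rw [jc_zero]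
        exact hfd.hasFDerivAt
      exact hfd'.comp_hasDerivAt 0 d1
    have d3 : HasDerivAt (fun t : ℝ => R.U Φ (x + t • h)) (fderiv ℝ (R.U Φ) x h) 0 := by
      have g1 : HasDerivAt (fun t : ℝ => x + t • h) h 0 := by
        simpa using ((hasDerivAt_id (0 : ℝ)).smul_const h).const_add x
      have g2 : HasFDerivAt (R.U Φ) (fderiv ℝ (R.U Φ) x) (x + (0 : ℝ) • h) := by
        rw [zero_smul, add_zero]
        exact (hU.differentiable (by norm_num) x).hasFDerivAt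
      exact g2.comp_hasDerivAt 0 g1
    rw [e3] at d2
    have d4 := d2.unique d3
    rw [zero_mul, zero_add] at d4
    rw [d4, gradient, InnerProductSpace.toDual_symm_apply]
  -- (4)
  have c1 := second_chain (f := f) (contDiff_jc A (W - Wᴴ) ((-Real.exp g0) • (W - Wᴴ)))
    (by rw [jc_zero]; exact hfC)
  have c2 := second_chain (f := f) (contDiff_jc A 0 (ρ • W)) (by rw [jc_zero]; exact hfC)
  rw [s1, jc_zero, deriv_jc, deriv_deriv_jc, hj1, hj2] at c1
  rw [s2, jc_zero, deriv_jc, deriv_deriv_jc] at c2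
  simp only [zero_mul, mul_zero, zero_add, smul_zero] at c2
  have h6 : (fun i j => (A * (ρ • W) * (ρ • W) + (1 - Real.exp (2 * g0)) • (A * D)) i j) =
      (fun i j => (A * (ρ • W) * (ρ • W)) i j) +
        (1 - Real.exp (2 * g0)) • (fun i j => (A * D) i j) := rfl
  rw [h6, map_add, map_smul, s3, smul_eq_mul] at c1
  linarith

end Pool.Agent.LibRG65
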