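import Pool.Agent.LibRG65.C4c

/-!
[RG65 C4d] SHORT/MEDIUM. The diagonal entry of the Hessian in a root direction (helper65). Cites T0, C1, C4c, LibHK65.C1 `D2_symm`.

Plan. `z1 = Pi.single (inr b) 1`, `z2 = Pi.single (inr b) I`: `Xm z1 = 1 • E b`, `Xm z2 = I • E b` (`Xm_single_inr`); both satisfy `hh`
(`(I • E) (I • E)ᴴ = E Eᴴ`) and `hV` with `g0 = ⟪γ b, x⟫` (`wt_comm` with `w = ofR x`: `∑ k, ofR x k * γ b k = ⟪γ b, x⟫`, `Complex.ofReal_exp`).
C4c: `ρ² D2 = (exp (2 g0) - 1) ⟪∇U, h⟫`, `ρ² = exp (2 g0) (1 - exp (-2 g0))²`, `exp (2 g0) - 1 = exp (2 g0) (1 - exp (-2 g0))`, `g0 ≠ 0`: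
`D2 = ⟪∇U, h⟫ / (1 - exp (-2 g0))` for both.  The entry of `lev`: `1/4 * (sum + I * (difference))`, the difference is `0` (`D2_symm`).
-/

set_option autoImplicit false

open MeasureTheory
open scoped InnerProductSpace ComplexOrder Matrix

namespace Pool.Agent.LibRG65

open Pool.Agent.LibTK94 Pool.Agent.LibHK65

variable {n : ℕ} {ι β : Type} [Fintype ι] [DecidableEq ι] [Fintype β] [DecidableEq β]

private theorem c4d_aux {g0 D G : ℝ} (h0 : g0 ≠ 0)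
    (h : (Real.exp (-g0) - Real.exp g0) ^ 2 * D = (Real.exp (2 * g0) - 1) * G) :
    D = G / (1 - Real.exp (-(2 * g0))) := by
  have e1 : Real.exp (-g0) = (Real.exp g0)⁻¹ := Real.exp_neg g0
  have e2 : Real.exp (2 * g0) = Real.exp g0 ^ 2 := by
    rw [← Real.exp_nat_mul]
    norm_num
  have e3 : Real.exp (-(2 * g0)) = (Real.exp g0 ^ 2)⁻¹ := by
    rw [Real.exp_neg, e2]
  have hu : 0 < Real.exp g0 := Real.exp_pos g0
  have hne : Real.exp g0 ^ 2 - 1 ≠ 0 := by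
    rw [← e2]
    intro h1
    have h2 : Real.exp (2 * g0) = 1 := by linarith
    rw [Real.exp_eq_one_iff] at h2
    exact h0 (by linarith)
  rw [e1, e2] at h
  rw [e3]
  generalize Real.exp g0 = u at h hu hne
  have hu0 : u ≠ 0 := hu.ne'
  have hne2 : 1 - (u ^ 2)⁻¹ ≠ 0 := by
    intro h1
    apply hne
    have h2 : (u ^ 2)⁻¹ = 1 := by linarith
    have h3 : u ^ 2 = 1 := inv_eq_one.1 h2
    linarith
  rw [eq_div_iff hne2]
  have h4 : (u ^ 2 - 1) * D = u ^ 2 * G := by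
    have h5 : (u⁻¹ - u) ^ 2 = (u ^ 2 - 1) ^ 2 / u ^ 2 := by
      field_simp
      ring
    rw [h5] at h
    field_simp at h
    linarith
  field_simp
  linarith

theorem RG.LV_root (R : RG n ι β) {Φ : Matrix ι ι ℂ → ℝ} (hΦ : R.Smooth 2 Φ)
    (hinv : R.Inv Φ) (x : V n) (b : β) (hx : ⟪R.γ b, x⟫_ℝ ≠ 0) {h : V n}
    (hh : R.E b * (R.E b)ᴴ - (R.E b)ᴴ * R.E b = Dm R.m (ofR h)) :
    R.LV Φ (Tm R.m (ofR x)) (Sum.inr b) (Sum.inr b) =
      ((⟪gradient (R.U Φ) x, h⟫_ℝ / (2 * (1 - Real.exp (-(2 * ⟪R.γ b, x⟫_ℝ)))) : ℝ) : ℂ) := by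
  have hF : ContDiff ℝ 2 (fun z' => Φ (R.pt (Tm R.m (ofR x)) z')) := by
    have h1 := R.smooth_pt hΦ (R.Tm_mem (ofR x))
    exact_mod_cast h1
  have hsum : (∑ k, ofR x k * ((R.γ b k : ℝ) : ℂ)) = ((⟪R.γ b, x⟫_ℝ : ℝ) : ℂ) := by
    have h1 : ⟪R.γ b, x⟫_ℝ = ∑ k, x k * R.γ b k := by
      rw [EuclideanSpace.inner_eq_star_dotProduct]
      simp [dotProduct]
    rw [h1]
    push_cast
    rfl
  have hc := R.wt_comm (ofR x) b
  rw [hsum, ← Complex.ofReal_exp] at hc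
  have key : ∀ c : ℂ, c * (starRingEnd ℂ) c = 1 →
      D2 (fun z' => Φ (R.pt (Tm R.m (ofR x)) z')) 0 (Pi.single (Sum.inr b) c)
        (Pi.single (Sum.inr b) c) =
      ⟪gradient (R.U Φ) x, h⟫_ℝ / (1 - Real.exp (-(2 * ⟪R.γ b, x⟫_ℝ))) := by
    intro c hc1
    refine c4d_aux hx (R.second_var hΦ hinv x ?_ ?_)
    · rw [Xm_single_inr, Matrix.mul_smul, hc, Matrix.smul_mul, smul_comm]
      rfl
    · rw [Xm_single_inr, Matrix.conjTranspose_smul, Matrix.smul_mul, Matrix.mul_smul,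
        Matrix.smul_mul, Matrix.mul_smul, smul_smul, smul_smul]
      have h2 : (starRingEnd ℂ) c * c = 1 := by
        rw [mul_comm]
        exact hc1
      have h3 : c * (starRingEnd ℂ) c = 1 := hc1
      rw [← starRingEnd_apply, h2, h3, one_smul, one_smul, hh]
  have k1 := key 1 (by simp)
  have k2 := key Complex.I (by simp)
  have k3 := D2_symm hF 0 (Pi.single (Sum.inr b) 1) (Pi.single (Sum.inr b) Complex.I)
  unfold RG.LV lev
  rw [Matrix.of_apply, k1, k2, k3, sub_self]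
  push_cast
  rw [mul_zero, add_zero, mul_comm (2 : ℂ), ← div_div]
  ring

end Pool.Agent.LibRG65
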