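import Pool.Agent.LibRG65.T2
import Pool.Agent.LibRG65.T3

/-!
[RG65 C4e] SHORT/MEDIUM. The coroot vectors (helper65). Cites T0, T2, T3.

Plan. `E b = Xm (Pi.single (inr b) 1)` (`Xm_single_inr`), `(E b)ᴴ` is in the Lie algebra (`lie_star`), so `Y = E b (E b)ᴴ - (E b)ᴴ E b = Xm z''`
(`lie_bracket`), hermitian.  Entries `(i, j)` of `E b (E b)ᴴ`: `∑ k, E i k * conj (E j k)`, nonzero only if `m i - m k = γ b = m j - m k` for
some `k`, so `m i = m j`; the same for `(E b)ᴴ E b`.  So `Y` commutes with the diagonal matrix `Dm m (ofR η)` (`Dm_ofR`), `η` from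
`exists_reg`; `diag_of_comm`.
-/

set_option autoImplicit false

open MeasureTheory
open scoped InnerProductSpace ComplexOrder Matrix

namespace Pool.Agent.LibRG65

open Pool.Agent.LibTK94 Pool.Agent.LibHK65

variable {n : ℕ} {ι β : Type} [Fintype ι] [DecidableEq ι] [Fintype β] [DecidableEq β]

private theorem c4e_wt (R : RG n ι β) (b : β) {i j : ι}
    (h : (R.E b * (R.E b)ᴴ - (R.E b)ᴴ * R.E b) i j ≠ 0) : R.m i = R.m j := by
  by_contra hne
  apply h
  rw [Matrix.sub_apply, Matrix.mul_apply, Matrix.mul_apply]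
  have h1 : ∀ k, R.E b i k * (R.E b)ᴴ k j = 0 := by
    intro k
    by_contra h2
    rw [Matrix.conjTranspose_apply] at h2
    have h3 : R.E b i k ≠ 0 := left_ne_zero_of_mul h2
    have h4 : R.E b j k ≠ 0 := fun h5 => right_ne_zero_of_mul h2 (by rw [h5, star_zero])
    have h5 := R.weight b i k h3
    have h6 := R.weight b j k h4
    apply hne
    have h7 : R.m i = R.γ b + R.m k := by rw [← h5]; abel
    have h8 : R.m j = R.γ b + R.m k := by rw [← h6]; abel
    rw [h7, h8]
  have h1' : ∀ k, (R.E b)ᴴ i k * R.E b k j = 0 := by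
    intro k
    by_contra h2
    rw [Matrix.conjTranspose_apply] at h2
    have h3 : R.E b k j ≠ 0 := right_ne_zero_of_mul h2
    have h4 : R.E b k i ≠ 0 := fun h5 => left_ne_zero_of_mul h2 (by rw [h5, star_zero])
    have h5 := R.weight b k j h3
    have h6 := R.weight b k i h4
    apply hne
    have h7 : R.m i = R.m k - R.γ b := by rw [← h6]; abel
    have h8 : R.m j = R.m k - R.γ b := by rw [← h5]; abel
    rw [h7, h8]
  rw [Finset.sum_eq_zero fun k _ => h1 k, Finset.sum_eq_zero fun k _ => h1' k, sub_zero]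

theorem RG.exists_h (R : RG n ι β) (hS : R.Sp) : ∃ h : β → V n, ∀ b,
    R.E b * (R.E b)ᴴ - (R.E b)ᴴ * R.E b = Dm R.m (ofR (h b)) := by
  have key : ∀ b, ∃ h : V n, R.E b * (R.E b)ᴴ - (R.E b)ᴴ * R.E b = Dm R.m (ofR h) := by
    intro b
    have hE : Xm R.m R.E (Pi.single (Sum.inr b) 1) = R.E b := by
      rw [Xm_single_inr, one_smul]
    obtain ⟨z', hz'⟩ := R.lie_star (Pi.single (Sum.inr b) 1)
    obtain ⟨z'', hz''⟩ := R.lie_bracket (Pi.single (Sum.inr b) 1) z'
    rw [← hz', hE] at hz''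
    obtain ⟨η, hη⟩ := R.exists_reg
    have hH : (Xm R.m R.E z'').IsHermitian := by
      rw [← hz'']
      unfold Matrix.IsHermitian
      rw [Matrix.conjTranspose_sub, Matrix.conjTranspose_mul, Matrix.conjTranspose_mul,
        Matrix.conjTranspose_conjTranspose]
    have hc : Xm R.m R.E z'' * Dm R.m (ofR η) = Dm R.m (ofR η) * Xm R.m R.E z'' := by
      rw [← hz'', Dm_ofR]
      ext i j
      rw [Matrix.mul_diagonal, Matrix.diagonal_mul]
      by_cases h0 : (R.E b * (R.E b)ᴴ - (R.E b)ᴴ * R.E b) i j = 0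
      · rw [h0, zero_mul, mul_zero]
      · rw [c4e_wt R b h0, mul_comm]
    obtain ⟨x, hx⟩ := R.diag_of_comm hS hH hη hc
    exact ⟨x, by rw [hz'', hx]⟩
  choose h hh using key
  exact ⟨h, hh⟩

end Pool.Agent.LibRG65
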