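import Pool.Agent.LibRG65.C2
import Pool.Agent.LibRG65.C3
import Pool.Agent.LibRG65.C4d
import Pool.Agent.LibTK94.CMat

/-!
[RG65 C5] MEDIUM (several short statements). The Hessian at a point of the torus, its determinant, positivity (helper65).
Cites C1 (`smooth_pt`, `Phi_Tm`, `smooth_U`), C2 `LV_inl`, C3, C4d, LibTK94.CMat `posDef_of_map`. Compare LibHK65/C3.lean
`det_block_re`, `posDef_blocks` (there for `Fin d`).

`LV_block`: entries.  `Hm_posDef`: the submatrix `inl` of the positive definite `R.LV Φ (Tm ..)` (`Matrix.PosDef.submatrix`), `LV_inl`,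
`posDef_of_map`.  `root_pos`: the diagonal entry `(inr b, inr b)` of a positive definite matrix is `> 0` (`Matrix.PosDef.diag_pos`), `LV_root`.
`h_ne`: at `x = γ b` (`⟪γ b, γ b⟫ ≠ 0`): if `h = 0` the quotient in `root_pos` is `0`.
`det_LV`: `LV_block`, `Matrix.det_fromBlocks_zero₂₁`, `Matrix.det_diagonal`, first block as in `det_block_re`; the product is the real number
`∏ b, ..` (`Complex.ofReal_prod`).  `continuous_det_Hm`: entries of `Hm U` are continuous (`fderiv ℝ (fderiv ℝ U)` is continuous for `C²`),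
`Continuous.matrix_det`.
-/

set_option autoImplicit false

open MeasureTheory
open scoped InnerProductSpace ComplexOrder Matrix

namespace Pool.Agent.LibRG65

open Pool.Agent.LibTK94 Pool.Agent.LibHK65

variable {n : ℕ} {ι β : Type} [Fintype ι] [DecidableEq ι] [Fintype β] [DecidableEq β]

private theorem c5_hF (R : RG n ι β) {Φ : Matrix ι ι ℂ → ℝ} (hΦ : R.Smooth 2 Φ) :
    ∀ g ∈ R.G, ContDiff ℝ 2 (fun z => Φ (R.pt g z)) := by
  intro g hg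
  have h := R.smooth_pt hΦ hg
  exact_mod_cast h

theorem RG.LV_block (R : RG n ι β) {Φ : Matrix ι ι ℂ → ℝ} (hΦ : R.Smooth 2 Φ)
    (hinv : R.Inv Φ) {h : β → V n}
    (hh : ∀ b, R.E b * (R.E b)ᴴ - (R.E b)ᴴ * R.E b = Dm R.m (ofR (h b))) (x : V n)
    (hx : ∀ b, ⟪R.γ b, x⟫_ℝ ≠ 0) :
    R.LV Φ (Tm R.m (ofR x)) =
      Matrix.fromBlocks ((Hm (R.U Φ) x).map (fun r => (((1 / 4 : ℝ) * r : ℝ) : ℂ))) 0 0
        (Matrix.diagonal fun b => ((⟪gradient (R.U Φ) x, h b⟫_ℝ /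
          (2 * (1 - Real.exp (-(2 * ⟪R.γ b, x⟫_ℝ)))) : ℝ) : ℂ)) := by
  obtain ⟨h1, h2, h3⟩ := R.LV_off hΦ hinv x
  ext s t
  rcases s with j | b <;> rcases t with k | b'
  · rw [Matrix.fromBlocks_apply₁₁, R.LV_inl (c5_hF R hΦ) (R.Phi_Tm hinv) x j k, Matrix.map_apply]
  · rw [Matrix.fromBlocks_apply₁₂, h1 j b', Matrix.zero_apply]
  · rw [Matrix.fromBlocks_apply₂₁, h2 k b, Matrix.zero_apply]
  · rw [Matrix.fromBlocks_apply₂₂]
    by_cases hb : b = b'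
    · subst hb
      rw [Matrix.diagonal_apply_eq]
      exact R.LV_root hΦ hinv x b (hx b) (hh b)
    · rw [Matrix.diagonal_apply_ne _ hb, h3 b b' hb]

theorem RG.Hm_posDef (R : RG n ι β) {Φ : Matrix ι ι ℂ → ℝ} (hΦ : R.Smooth 2 Φ)
    (hinv : R.Inv Φ) (hpos : ∀ g ∈ R.G, (R.LV Φ g).PosDef) (x : V n) :
    (Hm (R.U Φ) x).PosDef := by
  apply posDef_of_map
  have h1 := (hpos _ (R.Tm_mem (ofR x))).submatrix (e := Sum.inl) Sum.inl_injective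
  rwa [show (R.LV Φ (Tm R.m (ofR x))).submatrix Sum.inl Sum.inl =
      (Hm (R.U Φ) x).map (fun r => (((1 / 4 : ℝ) * r : ℝ) : ℂ)) from by
        ext i j
        rw [Matrix.submatrix_apply, R.LV_inl (c5_hF R hΦ) (R.Phi_Tm hinv) x i j,
          Matrix.map_apply]] at h1

theorem RG.root_pos (R : RG n ι β) {Φ : Matrix ι ι ℂ → ℝ} (hΦ : R.Smooth 2 Φ)
    (hinv : R.Inv Φ) (hpos : ∀ g ∈ R.G, (R.LV Φ g).PosDef) (b : β) {h : V n}
    (hh : R.E b * (R.E b)ᴴ - (R.E b)ᴴ * R.E b = Dm R.m (ofR h)) (x : V n)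
    (hx : ⟪R.γ b, x⟫_ℝ ≠ 0) :
    0 < ⟪gradient (R.U Φ) x, h⟫_ℝ / (2 * (1 - Real.exp (-(2 * ⟪R.γ b, x⟫_ℝ)))) := by
  have h1 := (hpos _ (R.Tm_mem (ofR x))).diag_pos (i := Sum.inr b)
  rw [R.LV_root hΦ hinv x b hx hh] at h1
  exact_mod_cast h1

theorem RG.h_ne (R : RG n ι β) {Φ : Matrix ι ι ℂ → ℝ} (hΦ : R.Smooth 2 Φ)
    (hinv : R.Inv Φ) (hpos : ∀ g ∈ R.G, (R.LV Φ g).PosDef) (b : β) {h : V n}
    (hh : R.E b * (R.E b)ᴴ - (R.E b)ᴴ * R.E b = Dm R.m (ofR h)) : h ≠ 0 := by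
  rintro rfl
  have hx : ⟪R.γ b, R.γ b⟫_ℝ ≠ 0 := inner_self_ne_zero.2 (R.root_ne b)
  have h1 := R.root_pos hΦ hinv hpos b hh (R.γ b) hx
  rw [inner_zero_right, zero_div] at h1
  exact lt_irrefl _ h1

theorem RG.det_LV (R : RG n ι β) {Φ : Matrix ι ι ℂ → ℝ} (hΦ : R.Smooth 2 Φ)
    (hinv : R.Inv Φ) {h : β → V n}
    (hh : ∀ b, R.E b * (R.E b)ᴴ - (R.E b)ᴴ * R.E b = Dm R.m (ofR (h b))) (x : V n)
    (hx : ∀ b, ⟪R.γ b, x⟫_ℝ ≠ 0) :
    (R.LV Φ (Tm R.m (ofR x))).det.re = (1 / 4) ^ n * (Hm (R.U Φ) x).det *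
      ∏ b, (⟪gradient (R.U Φ) x, h b⟫_ℝ / (2 * (1 - Real.exp (-(2 * ⟪R.γ b, x⟫_ℝ))))) := by
  have hmap : (Hm (R.U Φ) x).map (fun r => (((1 / 4 : ℝ) * r : ℝ) : ℂ)) =
      ((1 / 4 : ℝ) • Hm (R.U Φ) x).map (algebraMap ℝ ℂ) := by
    ext i j
    simp
  have h1 : (((1 / 4 : ℝ) • Hm (R.U Φ) x).map (algebraMap ℝ ℂ)).det =
      algebraMap ℝ ℂ ((1 / 4 : ℝ) • Hm (R.U Φ) x).det :=
    (RingHom.map_det (algebraMap ℝ ℂ) ((1 / 4 : ℝ) • Hm (R.U Φ) x)).symm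
  rw [R.LV_block hΦ hinv hh x hx, Matrix.det_fromBlocks_zero₂₁, hmap, h1, Matrix.det_diagonal,
    ← Complex.ofReal_prod, Complex.coe_algebraMap, ← Complex.ofReal_mul, Complex.ofReal_re,
    Matrix.det_smul, Fintype.card_fin]

theorem continuous_det_Hm {U : V n → ℝ} (hU : ContDiff ℝ 2 U) :
    Continuous fun x => (Hm U x).det := by
  apply Continuous.matrix_det
  have h1 : ContDiff ℝ 1 (fderiv ℝ U) := hU.fderiv_right (by norm_num)
  have h2 : Continuous (fderiv ℝ (fderiv ℝ U)) := h1.continuous_fderiv (by norm_num)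
  apply continuous_matrix
  intro i j
  exact (h2.clm_apply continuous_const).clm_apply continuous_const

end Pool.Agent.LibRG65
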