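import Pool.Agent.LibRG65.C1
import Pool.Agent.LibHK65.C4

/-!
[RG65 C6] MEDIUM. `log det` of the Hessian in the invariant frame is `C²` in the charts (helper65). Cites C1 `smooth_pt2`, `pt_mem`.
Compare LibHK65/C4.lean `contDiff_log_lev`.

`D2_partial`: `fun w => Ψ (z, w)` is `Ψ` composed with the affine map `w ↦ (z, w)`: `fderiv ℝ (fun w => Ψ (z, w)) w = (fderiv ℝ Ψ (z, w)).comp (inr)`
(`ContinuousLinearMap.inr ℝ _ _`), differentiate once more.
`contDiff_log`: `R.LV Φ (R.pt g z) = lev (fun w => Ψ (z, w)) 0`, `Ψ p = Φ (R.pt (R.pt g p.1) p.2)` is `C⁴` (`smooth_pt2`).  Every entry is a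
combination of `D2 Ψ (z, 0) (0, a) (0, b)` (`D2_partial`), a `C²` function of `z` (`ContDiff.fderiv_right` twice, `clm_apply`, composition with
`z ↦ (z, 0)`); then as in `contDiff_log_lev`.
-/

set_option autoImplicit false

open MeasureTheory
open scoped InnerProductSpace ComplexOrder Matrix

namespace Pool.Agent.LibRG65

open Pool.Agent.LibTK94 Pool.Agent.LibHK65

variable {n : ℕ} {ι β : Type} [Fintype ι] [DecidableEq ι] [Fintype β] [DecidableEq β]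

theorem D2_partial {W W' : Type} [NormedAddCommGroup W] [NormedSpace ℝ W]
    [NormedAddCommGroup W'] [NormedSpace ℝ W'] {Ψ : W × W' → ℝ} (hΨ : ContDiff ℝ 2 Ψ) (z : W)
    (w a b : W') : D2 (fun w => Ψ (z, w)) w a b = D2 Ψ (z, w) (0, a) (0, b) := by
  have hd : Differentiable ℝ Ψ := hΨ.differentiable (by norm_num)
  have hd2 : Differentiable ℝ (fderiv ℝ Ψ) :=
    (hΨ.fderiv_right (m := 1) (by norm_num)).differentiable (by norm_num)
  have h1 : (fderiv ℝ fun w => Ψ (z, w)) =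
      fun w => (fderiv ℝ Ψ (z, w)).comp (ContinuousLinearMap.inr ℝ W W') := by
    funext w
    exact ((hd (z, w)).hasFDerivAt.comp w (hasFDerivAt_prodMk_right z w)).fderiv
  have h2 : HasFDerivAt (fun w => fderiv ℝ Ψ (z, w))
      ((fderiv ℝ (fderiv ℝ Ψ) (z, w)).comp (ContinuousLinearMap.inr ℝ W W')) w :=
    (hd2 (z, w)).hasFDerivAt.comp w (hasFDerivAt_prodMk_right z w)
  have h3 := (((ContinuousLinearMap.compL ℝ W' (W × W') ℝ).flip
    (ContinuousLinearMap.inr ℝ W W')).hasFDerivAt.comp w h2).fderiv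
  unfold D2
  rw [h1]
  have h4 : (fun w => (fderiv ℝ Ψ (z, w)).comp (ContinuousLinearMap.inr ℝ W W')) =
      (⇑((ContinuousLinearMap.compL ℝ W' (W × W') ℝ).flip (ContinuousLinearMap.inr ℝ W W')) ∘
        fun w => fderiv ℝ Ψ (z, w)) := rfl
  rw [h4, h3]
  rfl

theorem RG.contDiff_log (R : RG n ι β) {Φ : Matrix ι ι ℂ → ℝ} (hΦ : R.Smooth 4 Φ)
    (hpos : ∀ g ∈ R.G, (R.LV Φ g).PosDef) {g : Matrix ι ι ℂ} (hg : g ∈ R.G) :
    ContDiff ℝ 2 (fun z => Real.log (R.LV Φ (R.pt g z)).det.re) := by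
  have hΨ : ContDiff ℝ 4 (fun p : (Fin n ⊕ β → ℂ) × (Fin n ⊕ β → ℂ) =>
      Φ (R.pt (R.pt g p.1) p.2)) := R.smooth_pt2 hΦ hg
  have h1 : ContDiff ℝ 3 (fderiv ℝ (fun p : (Fin n ⊕ β → ℂ) × (Fin n ⊕ β → ℂ) =>
      Φ (R.pt (R.pt g p.1) p.2))) := hΨ.fderiv_right (by norm_num)
  have h2 : ContDiff ℝ 2 (fderiv ℝ (fderiv ℝ (fun p : (Fin n ⊕ β → ℂ) × (Fin n ⊕ β → ℂ) =>
      Φ (R.pt (R.pt g p.1) p.2)))) := h1.fderiv_right (by norm_num)
  have hz0 : ContDiff ℝ 2 (fun z : Fin n ⊕ β → ℂ => (z, (0 : Fin n ⊕ β → ℂ))) :=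
    contDiff_id.prodMk contDiff_const
  have hD : ∀ a b : Fin n ⊕ β → ℂ, ContDiff ℝ 2
      (fun z => D2 (fun w => Φ (R.pt (R.pt g z) w)) 0 a b) := by
    intro a b
    have h3 : (fun z => D2 (fun w => Φ (R.pt (R.pt g z) w)) 0 a b) = fun z =>
        D2 (fun p : (Fin n ⊕ β → ℂ) × (Fin n ⊕ β → ℂ) => Φ (R.pt (R.pt g p.1) p.2)) (z, 0)
          (0, a) (0, b) := by
      funext z
      exact D2_partial (hΨ.of_le (by norm_num)) z 0 a b
    rw [h3]
    exact ((h2.comp hz0).clm_apply contDiff_const).clm_apply contDiff_const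
  have hR : ∀ {g : (Fin n ⊕ β → ℂ) → ℝ}, ContDiff ℝ 2 g →
      ContDiff ℝ 2 (fun z => ((g z : ℝ) : ℂ)) :=
    fun hg => Complex.ofRealCLM.contDiff.comp hg
  have h3 : ∀ j k, ContDiff ℝ 2 (fun z => R.LV Φ (R.pt g z) j k) := fun j k =>
    contDiff_const.mul ((hR ((hD _ _).add (hD _ _))).add
      (contDiff_const.mul (hR ((hD _ _).sub (hD _ _)))))
  have h4 : ContDiff ℝ 2 (fun z => (R.LV Φ (R.pt g z)).det) := by
    have h5 : (fun z => (R.LV Φ (R.pt g z)).det) = fun z => ∑ σ : Equiv.Perm (Fin n ⊕ β),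
        ((Equiv.Perm.sign σ : ℤ) : ℂ) * ∏ i, R.LV Φ (R.pt g z) (σ i) i := by
      funext z
      rw [Matrix.det_apply']
    rw [h5]
    exact ContDiff.sum fun σ _ => contDiff_const.mul (contDiff_prod fun i _ => h3 _ _)
  have h6 : ContDiff ℝ 2 (fun z => (R.LV Φ (R.pt g z)).det.re) := Complex.reCLM.contDiff.comp h4
  refine h6.log fun z => ?_
  have h7 : 0 < (R.LV Φ (R.pt g z)).det := (hpos _ (R.pt_mem hg z)).det_pos
  exact (Complex.pos_iff.1 h7).1.ne'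

end Pool.Agent.LibRG65
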