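import Pool.Agent.LibRG65.C2
import Pool.Agent.LibRG65.C6
import Pool.Agent.LibTK94.CAff

/-!
[RG65 C7] SHORT/MEDIUM. The Einstein equation on the torus gives an affine relation (helper65). Cites C1, C2, C6,
LibTK94.CAff `affine_of_D2`, LibHK65.C1. Compare LibHK65/C5.lean `affine_of_slice`.

Plan. `Λ g = log (R.LV Φ g).det.re`.  `LV_inl` applies to `Φ` (`smooth_pt`, `Phi_Tm`) and to `Λ` (`contDiff_log`, `LV_Tm`).  `hKE` at
`Tm m (ofR x)`, entries `(inl j, inl k)`: `Hm (R.U Λ) x j k = - lam * Hm (R.U Φ) x j k`.  So `W = R.U Λ + lam * R.U Φ` (`C²`: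
`contDiff_U`) has zero `D2` in the basis directions (`D2_add`, `D2_const_mul`), `affine_of_D2`.
-/

set_option autoImplicit false

open MeasureTheory
open scoped InnerProductSpace ComplexOrder Matrix

namespace Pool.Agent.LibRG65

open Pool.Agent.LibTK94 Pool.Agent.LibHK65

variable {n : ℕ} {ι β : Type} [Fintype ι] [DecidableEq ι] [Fintype β] [DecidableEq β]

theorem RG.affine (R : RG n ι β) {Φ : Matrix ι ι ℂ → ℝ} (hΦ : R.Smooth 4 Φ)
    (hinv : R.Inv Φ) (hpos : ∀ g ∈ R.G, (R.LV Φ g).PosDef) {lam : ℝ}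
    (hKE : ∀ g ∈ R.G, R.LV (fun g' => Real.log (R.LV Φ g').det.re) g =
      (-(lam : ℂ)) • R.LV Φ g) :
    ∃ (b0 : V n) (a : ℝ), ∀ x : V n, Real.log (R.LV Φ (Tm R.m (ofR x))).det.re =
      -(lam * R.U Φ x) + ⟪b0, x⟫_ℝ + a := by
  set Λ : Matrix ι ι ℂ → ℝ := fun g => Real.log (R.LV Φ g).det.re with hΛ
  have hΦ2 : R.Smooth 2 Φ := fun g hg => (hΦ g hg).of_le (by norm_num)
  have hFΦ : ∀ g ∈ R.G, ContDiff ℝ 2 (fun z => Φ (R.pt g z)) := fun g hg => by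
    exact_mod_cast R.smooth_pt hΦ2 hg
  have hFΛ : ∀ g ∈ R.G, ContDiff ℝ 2 (fun z => Λ (R.pt g z)) := fun g hg =>
    R.contDiff_log hΦ hpos hg
  have hLΦ : ∀ w : Fin n → ℂ, Φ (Tm R.m w) = Φ (Tm R.m (ofR (reV w))) := R.Phi_Tm hinv
  have hLΛ : ∀ w : Fin n → ℂ, Λ (Tm R.m w) = Λ (Tm R.m (ofR (reV w))) := fun w => by
    simp only [hΛ]
    rw [R.LV_Tm hinv w]
  have hUΦ : ContDiff ℝ 2 (R.U Φ) := R.contDiff_U hFΦ
  have hUΛ : ContDiff ℝ 2 (R.U Λ) := R.contDiff_U hFΛ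
  have h3 : ∀ x j k, Hm (R.U Λ) x j k = -lam * Hm (R.U Φ) x j k := by
    intro x j k
    have e1 := congrFun (congrFun (hKE (Tm R.m (ofR x)) (R.Tm_mem _)) (Sum.inl j)) (Sum.inl k)
    have e2 : R.LV Λ (Tm R.m (ofR x)) (Sum.inl j) (Sum.inl k) =
        (((1 / 4 : ℝ) * Hm (R.U Λ) x j k : ℝ) : ℂ) := R.LV_inl hFΛ hLΛ x j k
    rw [Matrix.smul_apply, R.LV_inl hFΦ hLΦ x j k] at e1
    change R.LV Λ (Tm R.m (ofR x)) (Sum.inl j) (Sum.inl k) = _ at e1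
    rw [e2, smul_eq_mul, ← Complex.ofReal_neg, ← Complex.ofReal_mul, Complex.ofReal_inj] at e1
    linarith
  have hD : ∀ x a b, D2 (fun x => R.U Λ x + lam * R.U Φ x) x a b =
      D2 (R.U Λ) x a b + lam * D2 (R.U Φ) x a b := by
    intro x a b
    rw [D2_add hUΛ (contDiff_const.mul hUΦ), D2_const_mul hUΦ]
  have hWC : ContDiff ℝ 2 (fun x => R.U Λ x + lam * R.U Φ x) := hUΛ.add (contDiff_const.mul hUΦ)
  obtain ⟨b, a, hba⟩ := affine_of_D2 hWC (by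
    intro x j k
    rw [hD]
    have := h3 x j k
    unfold Hm at this
    simp only [Matrix.of_apply] at this
    rw [this]
    ring)
  refine ⟨b, a, fun x => ?_⟩
  have e1 := hba x
  have e2 : R.U Λ x = Real.log (R.LV Φ (Tm R.m (ofR x))).det.re := rfl
  rw [e2] at e1
  linarith

end Pool.Agent.LibRG65
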