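import Pool.Agent.LibHK65.Defs

/-!
# Bi-invariant metrics on compactifications of reductive groups: definitions (helper65)

`G` is a complex reductive group of matrices in a basis such that `G` is closed under conjugate
transpose and a maximal torus is diagonal.
-/

set_option autoImplicit false

open MeasureTheory
open scoped InnerProductSpace ComplexOrder Matrix

namespace Pool.Agent.LibRG65

open Pool.Agent.LibTK94 Pool.Agent.LibHK65

/-- The diagonal matrix with the entries `⟨m_j, w⟩`. -/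
noncomputable def Dm {n : ℕ} {ι : Type} [DecidableEq ι] (m : ι → V n) (w : Fin n → ℂ) :
    Matrix ι ι ℂ :=
  Matrix.diagonal fun j => ∑ k, w k * ((m j k : ℝ) : ℂ)

/-- The diagonal matrix with the entries `exp ⟨m_j, w⟩`. -/
noncomputable def Tm {n : ℕ} {ι : Type} [DecidableEq ι] (m : ι → V n) (w : Fin n → ℂ) :
    Matrix ι ι ℂ :=
  Matrix.diagonal fun j => Complex.exp (∑ k, w k * ((m j k : ℝ) : ℂ))

/-- The matrix `diag ⟨m_j, w⟩ + ∑ s_b E_b`, where `w`, `s` are the two parts of `z`. -/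
noncomputable def Xm {n : ℕ} {ι β : Type} [DecidableEq ι] [Fintype β] (m : ι → V n)
    (E : β → Matrix ι ι ℂ) (z : Fin n ⊕ β → ℂ) : Matrix ι ι ℂ :=
  Dm m (fun k => z (Sum.inl k)) + ∑ b, z (Sum.inr b) • E b

/-- A complex reductive group `G` of matrices: a closed group of invertible matrices, closed under
conjugate transpose, whose Lie algebra is the direct sum of the diagonal matrices `diag ⟨m_j, w⟩`,
`w ∈ ℂⁿ` (the maximal torus; `m_j ∈ ℝⁿ` are the weights) and of the root spaces `ℂ E_b` with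
distinct nonzero roots `γ_b`, and such that every positive definite element of `G` is `exp` of a
hermitian element of the Lie algebra (Cartan decomposition). -/
structure RG (n : ℕ) (ι β : Type) [Fintype ι] [DecidableEq ι] [Fintype β] where
  G : Submonoid (Matrix ι ι ℂ)
  inv : ∀ g ∈ G, IsUnit g.det ∧ g⁻¹ ∈ G
  closed : ∀ g ∈ closure (G : Set (Matrix ι ι ℂ)), IsUnit g.det → g ∈ G
  star : ∀ g ∈ G, gᴴ ∈ G
  m : ι → V n
  γ : β → V n
  E : β → Matrix ι ι ℂ
  root_ne : ∀ b, γ b ≠ 0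
  root_inj : Function.Injective γ
  E_ne : ∀ b, E b ≠ 0
  weight : ∀ b i j, E b i j ≠ 0 → m i - m j = γ b
  lie : ∀ X : Matrix ι ι ℂ,
    (∀ t : ℝ, NormedSpace.exp (t • X) ∈ G) ↔ ∃ z : Fin n ⊕ β → ℂ, X = Xm m E z
  cartan : ∀ P ∈ G, P.PosDef → ∃ z : Fin n ⊕ β → ℂ, (Xm m E z).IsHermitian ∧
    NormedSpace.exp (Xm m E z) = P

section

variable {n : ℕ} {ι β : Type} [Fintype ι] [DecidableEq ι] [Fintype β] [DecidableEq β]

/-- The maximal compact subgroup: the unitary elements of `G`. -/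
def RG.K (R : RG n ι β) : Set (Matrix ι ι ℂ) := {k | k ∈ R.G ∧ kᴴ * k = 1}

/-- The holomorphic chart `z ↦ g exp (X(z))` of `G` at `g`. -/
noncomputable def RG.pt (R : RG n ι β) (g : Matrix ι ι ℂ) (z : Fin n ⊕ β → ℂ) :
    Matrix ι ι ℂ := g * NormedSpace.exp (Xm R.m R.E z)

/-- The complex Hessian of `F` at `g` in the left invariant frame. -/
noncomputable def RG.LV (R : RG n ι β) (F : Matrix ι ι ℂ → ℝ) (g : Matrix ι ι ℂ) :
    Matrix (Fin n ⊕ β) (Fin n ⊕ β) ℂ := lev (fun z => F (R.pt g z)) 0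

/-- A matrix as a vector with the Hilbert-Schmidt norm: homogeneous coordinates of the point
`[g]` of the projective space of matrices. -/
noncomputable def vecM (g : Matrix ι ι ℂ) : EuclideanSpace ℂ (ι × ι) :=
  WithLp.toLp 2 fun p => g p.1 p.2

/-- The potential relative to the Fubini-Study metric: `Φ - c log ‖g‖²`. -/
noncomputable def relg (c : ℝ) (Φ : Matrix ι ι ℂ → ℝ) (g : Matrix ι ι ℂ) : ℝ :=
  Φ g - c * Real.log (‖vecM g‖ ^ 2)

/-- `Φ` is the restriction to `G` of a function which is `C^k` near every point of `G`. -/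
def RG.Smooth (R : RG n ι β) (k : ℕ) (Φ : Matrix ι ι ℂ → ℝ) : Prop :=
  ∀ g ∈ R.G, ContDiffAt ℝ k (fun a : ι → ι → ℂ => Φ (Matrix.of a)) (fun i j => g i j)

/-- invariance under `K × K` -/
def RG.Inv (R : RG n ι β) (Φ : Matrix ι ι ℂ → ℝ) : Prop :=
  ∀ g ∈ R.G, ∀ k ∈ R.K, ∀ k' ∈ R.K, Φ (k * g * k') = Φ g

/-- the set of weights -/
noncomputable def RG.M (R : RG n ι β) : Finset (V n) := by
  classical exact Finset.univ.image R.m

/-- the differences of the weights span -/
def RG.Sp (R : RG n ι β) : Prop := ∀ x : V n, (∀ i j : ι, ⟪R.m i - R.m j, x⟫_ℝ = 0) → x = 0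

/-- the function on the torus -/
noncomputable def RG.U (R : RG n ι β) (Φ : Matrix ι ι ℂ → ℝ) (x : V n) : ℝ :=
  Φ (Tm R.m (ofR x))

/-- On every ball with centre in the hull there is a smaller ball of proportional radius where
`W` is at least `(δ r)^d`. -/
def LowB {n : ℕ} (M : Finset (V n)) (W : V n → ℝ) (d : ℕ) : Prop :=
  ∃ δ > (0 : ℝ), ∀ p ∈ convexHull ℝ (M : Set (V n)), ∀ r : ℝ, 0 < r → r ≤ 1 → ∃ q : V n,
    Metric.ball q (δ * r) ⊆ interior (convexHull ℝ (M : Set (V n))) ∩ Metric.ball p r ∧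
    ∀ y ∈ Metric.ball q (δ * r), (δ * r) ^ d ≤ W y

end

end Pool.Agent.LibRG65
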