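import Pool.Agent.LibRG65.Defs
import Pool.Agent.LibTK94.Basic

/-!
[RG65 F0] SHORT. `bd ≤ 2` and powers (helper65). Cites LibTK94.Basic.

`bd_le_two`: `bd M x y = √(∑ (bb - bb')²)` and `(s - t)² ≤ 2 s² + 2 t²`, `sum_bb_sq`: `bd² ≤ 4`.
`pow_min`: `b = 0` separately (`Real.zero_rpow`, `min α 1 > 0`); for `0 < b`: `b^α = b^(min α 1) * b^(α - min α 1)` (`Real.rpow_add`) and
`b^(α - min α 1) ≤ 2^(α - min α 1) ≤ 2^α`; `b = b^(min α 1) * b^(1 - min α 1)`, `b^(1 - min α 1) ≤ 2^(1 - min α 1) ≤ 2`.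
-/

set_option autoImplicit false

open MeasureTheory
open scoped InnerProductSpace ComplexOrder Matrix

namespace Pool.Agent.LibRG65

open Pool.Agent.LibTK94 Pool.Agent.LibHK65

variable {n : ℕ} {ι β : Type} [Fintype ι] [DecidableEq ι] [Fintype β] [DecidableEq β]

theorem bd_le_two {M : Finset (V n)} (hM : M.Nonempty) (x y : V n) : bd M x y ≤ 2 := by
  unfold bd
  rw [Real.sqrt_le_left (by norm_num)]
  have h1 := sum_bb_sq hM x
  have h2 := sum_bb_sq hM y
  have h3 : ∑ m ∈ M, (bb M m x - bb M m y) ^ 2 ≤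
      ∑ m ∈ M, (2 * bb M m x ^ 2 + 2 * bb M m y ^ 2) := by
    refine Finset.sum_le_sum fun m _ => ?_
    nlinarith [sq_nonneg (bb M m x + bb M m y)]
  rw [Finset.sum_add_distrib, ← Finset.mul_sum, ← Finset.mul_sum, h1, h2] at h3
  linarith

theorem pow_min {α b : ℝ} (hα : 0 < α) (hb : 0 ≤ b) (hb2 : b ≤ 2) :
    b ^ α ≤ 2 ^ α * b ^ (min α 1) ∧ b ≤ 2 * b ^ (min α 1) := by
  rcases hb.eq_or_lt with h0 | h0
  · subst h0
    have hm : min α 1 ≠ 0 := (lt_min hα one_pos).ne'
    rw [Real.zero_rpow hα.ne', Real.zero_rpow hm]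
    simp
  · have hm0 : 0 < min α 1 := lt_min hα one_pos
    constructor
    · have e : b ^ α = b ^ (α - min α 1) * b ^ (min α 1) := by
        rw [← Real.rpow_add h0]
        congr 1
        ring
      rw [e]
      refine mul_le_mul_of_nonneg_right ?_ (Real.rpow_nonneg hb _)
      have hd : 0 ≤ α - min α 1 := sub_nonneg.2 (min_le_left _ _)
      refine (Real.rpow_le_rpow hb hb2 hd).trans ?_
      exact Real.rpow_le_rpow_of_exponent_le (by norm_num) (by linarith)
    · have e : b = b ^ (1 - min α 1) * b ^ (min α 1) := by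
        rw [← Real.rpow_add h0]
        simp
      have hd : 0 ≤ 1 - min α 1 := sub_nonneg.2 (min_le_right _ _)
      have h1 : b ^ (1 - min α 1) ≤ 2 := by
        refine (Real.rpow_le_rpow hb hb2 hd).trans ?_
        have := Real.rpow_le_rpow_of_exponent_le (x := (2 : ℝ)) (by norm_num)
          (show 1 - min α 1 ≤ 1 by linarith)
        rwa [Real.rpow_one] at this
      calc b = b ^ (1 - min α 1) * b ^ (min α 1) := e
        _ ≤ 2 * b ^ (min α 1) := mul_le_mul_of_nonneg_right h1 (Real.rpow_nonneg hb _)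

end Pool.Agent.LibRG65
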