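import Pool.Agent.LibRG65.T0

/-!
[RG65 T10] MEDIUM. Norms, the Fubini-Study distance and `bd` (helper65).

`inner_vecM`: `EuclideanSpace.inner_eq_star_dotProduct` / `PiLp.inner_apply`, `Fintype.sum_prod_type`, `Matrix.trace`, `Matrix.mul_apply`.
`norm_vecM_mul`: from `inner_vecM` (`‖k g k'‖² = tr (k'ᴴ gᴴ kᴴ k g k') = tr (gᴴ g)`).  `norm_vecM_Tm`: `Tm_ofR`.
`bd_le_fs`: `a_j = exp⟪m_j,x⟫/‖A‖`, `a'_j` likewise, unit vectors in `ℝ^ι`, `c = ‖⟪A,A'⟫‖/(‖A‖‖A'‖) ≤ ⟨a, a'⟩`, so `fsDist ≥ arccos ⟨a,a'⟩ ≥ ‖a - a'‖`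
(compare the end of `bd_le_fsDist` in LibTK94/CFS.lean).  For `m ∈ M` choose `j(m)` with `m_j = m`; `v = (a_{j(m)})_{m ∈ M}`: `bb M m x = v_m / ‖v‖`,
`‖v‖² ≥ 1 / card ι` (`1 = ∑_j a_j² ≤ card ι * ∑_m v_m²`, each `a_j² = v_{m_j}²`).  `‖v/‖v‖ - v'/‖v'‖‖ ≤ 2 ‖v - v'‖ / ‖v‖`, `‖v - v'‖ ≤ ‖a - a'‖`.
`kap`: `κ x = log ∑_j exp (2⟪m_j,x⟫) - 2 lse M x = log ∑_j bb M m_j x ^ 2` (`exp_lse`), the sum is between `1` and `card ι`; `|log s - log s'| ≤ |s - s'|` for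
`s, s' ≥ 1`, `|bb² - bb'²| ≤ 2 |bb - bb'| ≤ 2 bd` (`abs_bb_sub_le`, `bb_le_one`).
-/

set_option autoImplicit false
set_option linter.unusedSectionVars false

open MeasureTheory
open scoped InnerProductSpace ComplexOrder Matrix

namespace Pool.Agent.LibRG65

open Pool.Agent.LibTK94 Pool.Agent.LibHK65

variable {n : ℕ} {ι β : Type} [Fintype ι] [DecidableEq ι] [Fintype β] [DecidableEq β]

theorem inner_vecM (g g' : Matrix ι ι ℂ) : ⟪vecM g, vecM g'⟫_ℂ = (gᴴ * g').trace := by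
  rw [PiLp.inner_apply, Fintype.sum_prod_type, Finset.sum_comm]
  simp only [Matrix.trace, Matrix.diag_apply, Matrix.mul_apply, Matrix.conjTranspose_apply]
  refine Finset.sum_congr rfl fun j _ => Finset.sum_congr rfl fun i _ => ?_
  simp only [vecM, RCLike.inner_apply]
  rw [mul_comm]
  rfl

theorem norm_vecM_mul {k k' : Matrix ι ι ℂ} (hk : kᴴ * k = 1) (hk' : k' * k'ᴴ = 1)
    (g : Matrix ι ι ℂ) : ‖vecM (k * g * k')‖ = ‖vecM g‖ := by
  have h1 : ⟪vecM (k * g * k'), vecM (k * g * k')⟫_ℂ = ⟪vecM g, vecM g⟫_ℂ := by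
    rw [inner_vecM, inner_vecM]
    have h2 : (k * g * k')ᴴ * (k * g * k') = k'ᴴ * (gᴴ * g * k') := by
      rw [Matrix.conjTranspose_mul, Matrix.conjTranspose_mul]
      calc k'ᴴ * (gᴴ * kᴴ) * (k * g * k') = k'ᴴ * (gᴴ * ((kᴴ * k) * (g * k'))) := by
            simp only [Matrix.mul_assoc]
        _ = k'ᴴ * (gᴴ * g * k') := by
            rw [hk, Matrix.one_mul, Matrix.mul_assoc]
    rw [h2, Matrix.trace_mul_comm, Matrix.mul_assoc, hk', Matrix.mul_one]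
  rw [inner_self_eq_norm_sq_to_K, inner_self_eq_norm_sq_to_K] at h1
  have h3 : ‖vecM (k * g * k')‖ ^ 2 = ‖vecM g‖ ^ 2 := by exact_mod_cast h1
  exact (sq_eq_sq₀ (norm_nonneg _) (norm_nonneg _)).1 h3

theorem norm_vecM_Tm (m : ι → V n) (x : V n) :
    ‖vecM (Tm m (ofR x))‖ ^ 2 = ∑ j, Real.exp (2 * ⟪m j, x⟫_ℝ) := by
  rw [EuclideanSpace.norm_sq_eq, Fintype.sum_prod_type]
  refine Finset.sum_congr rfl fun i _ => ?_
  have h1 : ∀ j, (vecM (Tm m (ofR x))) (i, j) =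
      if i = j then ((Real.exp ⟪m i, x⟫_ℝ : ℝ) : ℂ) else 0 := by
    intro j
    show (Tm m (ofR x)) i j = _
    rw [Tm_ofR, Matrix.diagonal_apply]
  rw [Finset.sum_eq_single i]
  · rw [h1, if_pos rfl, Complex.norm_real, Real.norm_eq_abs, sq_abs, ← Real.exp_nat_mul]
    norm_num
  · intro j _ hj
    rw [h1, if_neg (Ne.symm hj)]
    simp
  · intro h
    exact absurd (Finset.mem_univ i) h

theorem RG.mem_M (R : RG n ι β) (j : ι) : R.m j ∈ R.M := by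
  unfold RG.M
  exact Finset.mem_image.2 ⟨j, Finset.mem_univ _, rfl⟩

theorem RG.spans_M (R : RG n ι β) (hS : R.Sp) : Spans R.M := fun x h =>
  hS x fun i j => h _ (R.mem_M i) _ (R.mem_M j)

private theorem t10_sum_le (R : RG n ι β) (F : V n → ℝ) (hF : ∀ m, 0 ≤ F m) :
    ∑ m ∈ R.M, F m ≤ ∑ j, F (R.m j) := by
  classical
  rw [Finset.sum_comp F R.m]
  have hM : R.M = Finset.univ.image R.m := by
    ext y
    unfold RG.M
    simp only [Finset.mem_image]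
  rw [hM]
  refine Finset.sum_le_sum fun b hb => ?_
  obtain ⟨j, _, hj⟩ := Finset.mem_image.1 hb
  have hc : 1 ≤ (Finset.univ.filter fun a => R.m a = b).card :=
    Finset.card_pos.2 ⟨j, Finset.mem_filter.2 ⟨Finset.mem_univ _, hj⟩⟩
  rw [nsmul_eq_mul]
  have hc' : (1 : ℝ) ≤ ((Finset.univ.filter fun a => R.m a = b).card : ℝ) := by exact_mod_cast hc
  nlinarith [hF b]

private theorem t10_le_sum (R : RG n ι β) (F : V n → ℝ) (hF : ∀ m, 0 ≤ F m) :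
    ∑ j, F (R.m j) ≤ Fintype.card ι * ∑ m ∈ R.M, F m := by
  calc ∑ j, F (R.m j) ≤ ∑ _j : ι, ∑ m ∈ R.M, F m :=
        Finset.sum_le_sum fun j _ => Finset.single_le_sum (fun m _ => hF m) (R.mem_M j)
    _ = Fintype.card ι * ∑ m ∈ R.M, F m := by
        rw [Finset.sum_const, Finset.card_univ, nsmul_eq_mul]

private theorem t10_M_ne (R : RG n ι β) [Nonempty ι] : R.M.Nonempty :=
  ⟨_, R.mem_M (Classical.arbitrary ι)⟩

private theorem t10_bb (M : Finset (V n)) (m x : V n) :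
    bb M m x = Real.exp ⟪m, x⟫_ℝ / Real.exp (lse M x) := by
  unfold bb
  rw [Real.exp_sub]

private theorem t10_sqexp (y : ℝ) : Real.exp (2 * y) = Real.exp y ^ 2 := by
  rw [← Real.exp_nat_mul]
  norm_num

/-- the algebra of the comparison -/
private theorem t10_alg {P P' a a' T c : ℝ} (hP : 0 < P) (hP' : 0 < P') (ha : 0 < a)
    (ha' : 0 < a') (hc : 0 < c) (h1 : a ^ 2 ≤ c * P ^ 2) (h2 : a' ^ 2 ≤ c * P' ^ 2)
    (hT : T ≤ P * P') :
    2 - 2 * (T / (P * P')) ≤ c * (P ^ 2 / a ^ 2 + P' ^ 2 / a' ^ 2 - 2 * (T / (a * a'))) := by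
  have haa : a * a' ≤ c * (P * P') := by
    have h3 : (a * a') ^ 2 ≤ (c * (P * P')) ^ 2 := by
      calc (a * a') ^ 2 = a ^ 2 * a' ^ 2 := by ring
        _ ≤ (c * P ^ 2) * (c * P' ^ 2) := by gcongr
        _ = (c * (P * P')) ^ 2 := by ring
    exact (pow_le_pow_iff_left₀ (by positivity) (by positivity) two_ne_zero).1 h3
  have h4 : 2 * (P * P' / (a * a')) ≤ P ^ 2 / a ^ 2 + P' ^ 2 / a' ^ 2 := by
    have : P ^ 2 / a ^ 2 + P' ^ 2 / a' ^ 2 - 2 * (P * P' / (a * a')) = (P / a - P' / a') ^ 2 := by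
      field_simp
      ring
    nlinarith [sq_nonneg (P / a - P' / a')]
  have h5 : 2 - 2 * (T / (P * P')) ≤ c * (2 * (P * P' / (a * a')) - 2 * (T / (a * a'))) := by
    have h6 : c * (2 * (P * P' / (a * a')) - 2 * (T / (a * a'))) =
        (c * (P * P') / (a * a')) * (2 - 2 * (T / (P * P'))) := by
      field_simp
    rw [h6]
    have h7 : 1 ≤ c * (P * P') / (a * a') := by
      rw [le_div_iff₀ (by positivity)]
      linarith
    have h8 : 0 ≤ 2 - 2 * (T / (P * P')) := by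
      have : T / (P * P') ≤ 1 := by
        rw [div_le_one (by positivity)]
        exact hT
      linarith
    nlinarith
  refine h5.trans ?_
  have := mul_le_mul_of_nonneg_left h4 hc.le
  linarith

theorem RG.bd_le_fs (R : RG n ι β) [Nonempty ι] {x x' : V n} {A A' : EuclideanSpace ℂ (ι × ι)}
    (hA : ‖A‖ ^ 2 = ∑ j, Real.exp (2 * ⟪R.m j, x⟫_ℝ))
    (hA' : ‖A'‖ ^ 2 = ∑ j, Real.exp (2 * ⟪R.m j, x'⟫_ℝ))
    (h : ‖⟪A, A'⟫_ℂ‖ ≤ ∑ j, Real.exp ⟪R.m j, x + x'⟫_ℝ) :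
    bd R.M x x' ≤ 2 * Real.sqrt (Fintype.card ι) * fsDist A A' := by
  have hM := t10_M_ne R
  have hcard : 0 < (Fintype.card ι : ℝ) := by exact_mod_cast Fintype.card_pos
  set P : ℝ := Real.exp (lse R.M x) with hPdef
  set P' : ℝ := Real.exp (lse R.M x') with hP'def
  have hP : 0 < P := Real.exp_pos _
  have hP' : 0 < P' := Real.exp_pos _
  have hP2 : P ^ 2 = ∑ m ∈ R.M, Real.exp (2 * ⟪m, x⟫_ℝ) := by
    rw [← exp_lse hM x, t10_sqexp]
  have hP2' : P' ^ 2 = ∑ m ∈ R.M, Real.exp (2 * ⟪m, x'⟫_ℝ) := by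
    rw [← exp_lse hM x', t10_sqexp]
  have hlo : P ^ 2 ≤ ‖A‖ ^ 2 := by
    rw [hP2, hA]
    exact t10_sum_le R (fun m => Real.exp (2 * ⟪m, x⟫_ℝ)) fun m => (Real.exp_pos _).le
  have hlo' : P' ^ 2 ≤ ‖A'‖ ^ 2 := by
    rw [hP2', hA']
    exact t10_sum_le R (fun m => Real.exp (2 * ⟪m, x'⟫_ℝ)) fun m => (Real.exp_pos _).le
  have hup : ‖A‖ ^ 2 ≤ Fintype.card ι * P ^ 2 := by
    rw [hP2, hA]
    exact t10_le_sum R (fun m => Real.exp (2 * ⟪m, x⟫_ℝ)) fun m => (Real.exp_pos _).le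
  have hup' : ‖A'‖ ^ 2 ≤ Fintype.card ι * P' ^ 2 := by
    rw [hP2', hA']
    exact t10_le_sum R (fun m => Real.exp (2 * ⟪m, x'⟫_ℝ)) fun m => (Real.exp_pos _).le
  have ha : 0 < ‖A‖ := by
    rcases (norm_nonneg A).eq_or_lt with h0 | h0
    · rw [← h0] at hlo
      nlinarith [sq_nonneg P, pow_pos hP 2]
    · exact h0
  have ha' : 0 < ‖A'‖ := by
    rcases (norm_nonneg A').eq_or_lt with h0 | h0
    · rw [← h0] at hlo'
      nlinarith [sq_nonneg P', pow_pos hP' 2]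
    · exact h0
  set T : ℝ := ∑ m ∈ R.M, Real.exp ⟪m, x⟫_ℝ * Real.exp ⟪m, x'⟫_ℝ with hTdef
  have hT : T ≤ P * P' := by
    have h1 : T ^ 2 ≤ (P * P') ^ 2 := by
      have h2 := Finset.sum_mul_sq_le_sq_mul_sq R.M (fun m => Real.exp ⟪m, x⟫_ℝ)
        (fun m => Real.exp ⟪m, x'⟫_ℝ)
      rw [mul_pow, hP2, hP2']
      simp only [t10_sqexp]
      exact h2
    exact (le_abs_self _).trans (abs_le_of_sq_le_sq h1 (by positivity))
  -- the square of `bd`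
  have hbd : bd R.M x x' ^ 2 = 2 - 2 * (T / (P * P')) := by
    unfold bd
    rw [Real.sq_sqrt (Finset.sum_nonneg fun _ _ => sq_nonneg _)]
    have h1 : ∀ m ∈ R.M, (bb R.M m x - bb R.M m x') ^ 2 =
        bb R.M m x ^ 2 + bb R.M m x' ^ 2 -
          2 * (Real.exp ⟪m, x⟫_ℝ * Real.exp ⟪m, x'⟫_ℝ / (P * P')) := by
      intro m _
      rw [t10_bb, t10_bb, ← hPdef, ← hP'def]
      field_simp
      ring
    rw [Finset.sum_congr rfl h1, Finset.sum_sub_distrib, Finset.sum_add_distrib,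
      sum_bb_sq hM, sum_bb_sq hM, ← Finset.mul_sum, ← Finset.sum_div, ← hTdef]
    norm_num
  have hS1 : ∑ m ∈ R.M, (Real.exp ⟪m, x⟫_ℝ / ‖A‖ - Real.exp ⟪m, x'⟫_ℝ / ‖A'‖) ^ 2 =
      P ^ 2 / ‖A‖ ^ 2 + P' ^ 2 / ‖A'‖ ^ 2 - 2 * (T / (‖A‖ * ‖A'‖)) := by
    have h1 : ∀ m ∈ R.M, (Real.exp ⟪m, x⟫_ℝ / ‖A‖ - Real.exp ⟪m, x'⟫_ℝ / ‖A'‖) ^ 2 =
        Real.exp (2 * ⟪m, x⟫_ℝ) / ‖A‖ ^ 2 + Real.exp (2 * ⟪m, x'⟫_ℝ) / ‖A'‖ ^ 2 -
          2 * (Real.exp ⟪m, x⟫_ℝ * Real.exp ⟪m, x'⟫_ℝ / (‖A‖ * ‖A'‖)) := by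
      intro m _
      rw [t10_sqexp, t10_sqexp]
      field_simp
      ring
    rw [Finset.sum_congr rfl h1, Finset.sum_sub_distrib, Finset.sum_add_distrib,
      ← Finset.sum_div, ← Finset.sum_div, ← Finset.mul_sum, ← Finset.sum_div, ← hTdef, hP2, hP2']
  have hS2 : ∑ j, (Real.exp ⟪R.m j, x⟫_ℝ / ‖A‖ - Real.exp ⟪R.m j, x'⟫_ℝ / ‖A'‖) ^ 2 =
      2 - 2 * ((∑ j, Real.exp ⟪R.m j, x + x'⟫_ℝ) / (‖A‖ * ‖A'‖)) := by
    have h1 : ∀ j ∈ (Finset.univ : Finset ι),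
        (Real.exp ⟪R.m j, x⟫_ℝ / ‖A‖ - Real.exp ⟪R.m j, x'⟫_ℝ / ‖A'‖) ^ 2 =
        Real.exp (2 * ⟪R.m j, x⟫_ℝ) / ‖A‖ ^ 2 + Real.exp (2 * ⟪R.m j, x'⟫_ℝ) / ‖A'‖ ^ 2 -
          2 * (Real.exp ⟪R.m j, x + x'⟫_ℝ / (‖A‖ * ‖A'‖)) := by
      intro j _
      rw [t10_sqexp, t10_sqexp, inner_add_right, Real.exp_add]
      field_simp
      ring
    rw [Finset.sum_congr rfl h1, Finset.sum_sub_distrib, Finset.sum_add_distrib,
      ← Finset.sum_div, ← Finset.sum_div, ← Finset.mul_sum, ← Finset.sum_div, ← hA, ← hA',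
      div_self (by positivity), div_self (by positivity)]
    norm_num
  have hS3 := t10_sum_le R
    (fun m => (Real.exp ⟪m, x⟫_ℝ / ‖A‖ - Real.exp ⟪m, x'⟫_ℝ / ‖A'‖) ^ 2) fun m => sq_nonneg _
  unfold fsDist
  set q : ℝ := ‖⟪A, A'⟫_ℂ‖ / (‖A‖ * ‖A'‖) with hq
  have hpos : 0 < ‖A‖ * ‖A'‖ := mul_pos ha ha'
  have hq0 : 0 ≤ q := div_nonneg (norm_nonneg _) hpos.le
  have hq1 : q ≤ 1 := by
    rw [hq, div_le_one hpos]
    exact norm_inner_le_norm _ _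
  have hq2 : q ≤ (∑ j, Real.exp ⟪R.m j, x + x'⟫_ℝ) / (‖A‖ * ‖A'‖) := by
    rw [hq]
    gcongr
  have hcos : Real.cos (Real.arccos q) = q := Real.cos_arccos (by linarith) hq1
  have hle := Real.one_sub_sq_div_two_le_cos (x := Real.arccos q)
  rw [hcos] at hle
  have halg := t10_alg (T := T) hP hP' ha ha' hcard hup hup' hT
  rw [← hbd, ← hS1] at halg
  have hfin : bd R.M x x' ^ 2 ≤ Fintype.card ι * Real.arccos q ^ 2 := by
    refine halg.trans (mul_le_mul_of_nonneg_left ?_ hcard.le)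
    refine hS3.trans ?_
    rw [hS2]
    linarith
  have hac := Real.arccos_nonneg q
  have hsq : bd R.M x x' ≤ Real.sqrt (Fintype.card ι) * Real.arccos q := by
    refine le_of_sq_le_sq ?_ (by positivity)
    rw [mul_pow, Real.sq_sqrt hcard.le]
    exact hfin
  have : 0 ≤ Real.sqrt (Fintype.card ι) * Real.arccos q := by positivity
  linarith

private theorem t10_log {s s' : ℝ} (hs : 1 ≤ s) (hs' : 1 ≤ s') :
    |Real.log s - Real.log s'| ≤ |s - s'| := by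
  have key : ∀ {a b : ℝ}, 1 ≤ a → 1 ≤ b → Real.log a - Real.log b ≤ |a - b| := by
    intro a b ha hb
    have hb0 : 0 < b := by linarith
    have ha0 : 0 < a := by linarith
    rw [← Real.log_div ha0.ne' hb0.ne']
    have h1 := Real.log_le_sub_one_of_pos (div_pos ha0 hb0)
    have h2 : a / b - 1 = (a - b) / b := by
      field_simp
    rw [h2] at h1
    refine h1.trans ?_
    rcases le_or_gt 0 (a - b) with h3 | h3
    · rw [abs_of_nonneg h3]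
      exact div_le_self h3 hb
    · have : (a - b) / b ≤ 0 := div_nonpos_of_nonpos_of_nonneg h3.le hb0.le
      exact this.trans (abs_nonneg _)
  rw [abs_sub_le_iff]
  refine ⟨key hs hs', ?_⟩
  rw [abs_sub_comm]
  exact key hs' hs

private theorem t10_kap (R : RG n ι β) [Nonempty ι] (x : V n) :
    Real.log (∑ j, Real.exp (2 * ⟪R.m j, x⟫_ℝ)) - 2 * lse R.M x =
      Real.log (∑ j, bb R.M (R.m j) x ^ 2) ∧ 1 ≤ ∑ j, bb R.M (R.m j) x ^ 2 ∧
      ∑ j, bb R.M (R.m j) x ^ 2 ≤ Fintype.card ι := by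
  have hM := t10_M_ne R
  have h1 : ∑ j, bb R.M (R.m j) x ^ 2 =
      (∑ j, Real.exp (2 * ⟪R.m j, x⟫_ℝ)) * Real.exp (-(2 * lse R.M x)) := by
    rw [Finset.sum_mul]
    refine Finset.sum_congr rfl fun j _ => ?_
    unfold bb
    rw [← Real.exp_nat_mul, ← Real.exp_add]
    congr 1
    push_cast
    ring
  have hpos : 0 < ∑ j, Real.exp (2 * ⟪R.m j, x⟫_ℝ) :=
    Finset.sum_pos (fun j _ => Real.exp_pos _) Finset.univ_nonempty
  refine ⟨?_, ?_, ?_⟩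
  · rw [h1, Real.log_mul hpos.ne' (Real.exp_pos _).ne', Real.log_exp]
    ring
  · rw [← sum_bb_sq hM x]
    exact t10_sum_le R (fun m => bb R.M m x ^ 2) fun m => sq_nonneg _
  · calc ∑ j, bb R.M (R.m j) x ^ 2 ≤ ∑ _j : ι, (1 : ℝ) := by
          refine Finset.sum_le_sum fun j _ => ?_
          have h2 := bb_le_one (R.mem_M j) x
          have h3 := (bb_pos (M := R.M) (R.m j) x).le
          nlinarith
      _ = Fintype.card ι := by simp

theorem RG.kap (R : RG n ι β) [Nonempty ι] (x x' : V n) :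
    |Real.log (∑ j, Real.exp (2 * ⟪R.m j, x⟫_ℝ)) - 2 * lse R.M x| ≤
      Real.log (Fintype.card ι) ∧
    |(Real.log (∑ j, Real.exp (2 * ⟪R.m j, x⟫_ℝ)) - 2 * lse R.M x) -
      (Real.log (∑ j, Real.exp (2 * ⟪R.m j, x'⟫_ℝ)) - 2 * lse R.M x')| ≤
      2 * Fintype.card ι * bd R.M x x' := by
  obtain ⟨h1, h2, h3⟩ := t10_kap R x
  obtain ⟨h1', h2', h3'⟩ := t10_kap R x'
  rw [h1, h1']
  refine ⟨?_, ?_⟩
  · rw [abs_of_nonneg (Real.log_nonneg h2)]
    exact Real.log_le_log (by linarith) h3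
  · refine (t10_log h2 h2').trans ?_
    rw [← Finset.sum_sub_distrib]
    refine (Finset.abs_sum_le_sum_abs _ _).trans ?_
    calc ∑ j, |bb R.M (R.m j) x ^ 2 - bb R.M (R.m j) x' ^ 2| ≤ ∑ _j : ι, 2 * bd R.M x x' := by
          refine Finset.sum_le_sum fun j _ => ?_
          have e : bb R.M (R.m j) x ^ 2 - bb R.M (R.m j) x' ^ 2 =
              (bb R.M (R.m j) x + bb R.M (R.m j) x') * (bb R.M (R.m j) x - bb R.M (R.m j) x') := by
            ring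
          rw [e, abs_mul]
          have a1 := bb_le_one (R.mem_M j) x
          have a2 := bb_le_one (R.mem_M j) x'
          have a3 := (bb_pos (M := R.M) (R.m j) x).le
          have a4 := (bb_pos (M := R.M) (R.m j) x').le
          have a5 := abs_bb_sub_le (R.mem_M j) x x'
          rw [abs_of_nonneg (add_nonneg a3 a4)]
          refine mul_le_mul (by linarith) a5 (abs_nonneg _) (by norm_num)
      _ = 2 * Fintype.card ι * bd R.M x x' := by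
          rw [Finset.sum_const, Finset.card_univ, nsmul_eq_mul]
          ring

end Pool.Agent.LibRG65
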