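import Pool.Agent.LibRG65.Defs

/-!
[RG65 T7] SHORT/MEDIUM. `|tr (k P)| ≤ tr P` with equality only for scalar `k` (helper65). Mathlib only.

Plan. Spectral theorem `P = U diag(p) Uᴴ`, `p > 0` (`Matrix.IsHermitian.spectral_theorem`, `Matrix.PosDef.eigenvalues_pos`), `k' = Uᴴ k U`
unitary: `tr (k P) = ∑ p_i k'_ii`, `tr P = ∑ p_i`, `‖k'_ii‖ ≤ 1` (the column `i` of `k'` has norm one).  Equality in the triangle
inequality: with `‖tr (k P)‖ = c̄ tr(kP)`, `‖c‖ = 1` (or `tr P = 0`, impossible unless `ι` is empty; then everything is trivial):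
`∑ p_i (1 - re (c̄ k'_ii)) = 0`, all terms `≥ 0`, so `re (c̄ k'_ii) = 1`, with `‖k'_ii‖ ≤ 1`: `k'_ii = c`; since the columns have norm
one, `k' = c 1`, so `k = c 1`.
-/

set_option autoImplicit false

open MeasureTheory
open scoped InnerProductSpace ComplexOrder Matrix

namespace Pool.Agent.LibRG65

open Pool.Agent.LibTK94 Pool.Agent.LibHK65

variable {n : ℕ} {ι β : Type} [Fintype ι] [DecidableEq ι] [Fintype β] [DecidableEq β]

private theorem t7_inner (g g' : Matrix ι ι ℂ) : ⟪vecM g, vecM g'⟫_ℂ = (gᴴ * g').trace := by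
  rw [PiLp.inner_apply, Fintype.sum_prod_type, Finset.sum_comm]
  simp only [Matrix.trace, Matrix.diag_apply, Matrix.mul_apply, Matrix.conjTranspose_apply]
  refine Finset.sum_congr rfl fun j _ => Finset.sum_congr rfl fun i _ => ?_
  simp only [vecM, RCLike.inner_apply]
  rw [mul_comm]
  rfl

open scoped MatrixOrder in
private theorem t7_sq {P : Matrix ι ι ℂ} (hP : P.PosDef) :
    ∃ B : Matrix ι ι ℂ, IsUnit B ∧ P = Bᴴ * B := by
  obtain ⟨y, hy⟩ := CStarAlgebra.nonneg_iff_eq_star_mul_self.mp hP.posSemidef.nonneg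
  refine ⟨y, ?_, hy⟩
  have h1 : IsUnit P.det := (Matrix.isUnit_iff_isUnit_det _).1 hP.isUnit
  rw [hy, Matrix.star_eq_conjTranspose, Matrix.det_mul] at h1
  exact (Matrix.isUnit_iff_isUnit_det _).2 (isUnit_of_mul_isUnit_right h1)

private theorem t7_norm {k B : Matrix ι ι ℂ} (hk : kᴴ * k = 1) :
    ‖vecM (k * B)‖ = ‖vecM B‖ := by
  have h1 : ⟪vecM (k * B), vecM (k * B)⟫_ℂ = ⟪vecM B, vecM B⟫_ℂ := by
    rw [t7_inner, t7_inner, Matrix.conjTranspose_mul, Matrix.mul_assoc, ← Matrix.mul_assoc kᴴ,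
      hk, Matrix.one_mul]
  rw [inner_self_eq_norm_sq_to_K, inner_self_eq_norm_sq_to_K] at h1
  have h2 : ‖vecM (k * B)‖ ^ 2 = ‖vecM B‖ ^ 2 := by exact_mod_cast h1
  exact (pow_left_inj₀ (norm_nonneg _) (norm_nonneg _) two_ne_zero).1 h2

private theorem t7_tr {B : Matrix ι ι ℂ} : (Bᴴ * B).trace.re = ‖vecM Bᴴ‖ * ‖vecM Bᴴ‖ := by
  have h1 := t7_inner Bᴴ Bᴴ
  rw [inner_self_eq_norm_sq_to_K, Matrix.conjTranspose_conjTranspose,
    Matrix.trace_mul_comm] at h1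
  rw [← h1, ← sq]
  norm_cast

private theorem t7_in (k B : Matrix ι ι ℂ) :
    (k * (Bᴴ * B)).trace = ⟪vecM Bᴴ, vecM (k * Bᴴ)⟫_ℂ := by
  rw [t7_inner, Matrix.conjTranspose_conjTranspose, ← Matrix.mul_assoc, Matrix.trace_mul_comm]

theorem trace_le {k P : Matrix ι ι ℂ} (hk : kᴴ * k = 1) (hP : P.PosDef) :
    ‖(k * P).trace‖ ≤ P.trace.re := by
  obtain ⟨B, _, rfl⟩ := t7_sq hP
  rw [t7_in, t7_tr]
  have h := norm_inner_le_norm (𝕜 := ℂ) (vecM Bᴴ) (vecM (k * Bᴴ))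
  rwa [t7_norm hk] at h

theorem scalar_of_trace {k P : Matrix ι ι ℂ} (hk : kᴴ * k = 1) (hP : P.PosDef)
    (h : P.trace.re ≤ ‖(k * P).trace‖) : ∃ c : ℂ, ‖c‖ = 1 ∧ k = c • 1 := by
  rcases isEmpty_or_nonempty ι with hi | hi
  · exact ⟨1, norm_one, Subsingleton.elim _ _⟩
  obtain ⟨B, hB, rfl⟩ := t7_sq hP
  have h1 : ‖⟪vecM Bᴴ, vecM (k * Bᴴ)⟫_ℂ‖ = ‖vecM Bᴴ‖ * ‖vecM (k * Bᴴ)‖ := by
    refine le_antisymm (norm_inner_le_norm _ _) ?_
    rw [t7_norm hk, ← t7_tr, ← t7_in]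
    exact h
  have hB' : IsUnit Bᴴ := (Matrix.isUnit_conjTranspose B).2 hB
  have h2 := ((norm_inner_eq_norm_tfae ℂ (vecM Bᴴ) (vecM (k * Bᴴ))).out 0 2).1 h1
  have hne : vecM Bᴴ ≠ 0 := by
    intro h3
    have h4 : Bᴴ = 0 := by
      ext i j
      have h5 := congrArg (fun v : EuclideanSpace ℂ (ι × ι) => v (i, j)) h3
      exact h5
    rw [h4] at hB'
    exact not_isUnit_zero hB'
  rcases h2 with h2 | ⟨c, hc⟩
  · exact absurd h2 hne
  · have h6 : k * Bᴴ = c • Bᴴ := by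
      ext i j
      have h5 := congrArg (fun v : EuclideanSpace ℂ (ι × ι) => v (i, j)) hc
      exact h5
    have h7 : k = c • 1 := by
      have h8 : k * Bᴴ = (c • (1 : Matrix ι ι ℂ)) * Bᴴ := by
        rw [h6, Matrix.smul_mul, Matrix.one_mul]
      exact hB'.mul_right_cancel h8
    refine ⟨c, ?_, h7⟩
    have h9 := t7_norm (B := Bᴴ) hk
    rw [hc, norm_smul] at h9
    have h10 : ‖vecM Bᴴ‖ ≠ 0 := norm_ne_zero_iff.2 hne
    exact mul_right_cancel₀ h10 (by rw [h9, one_mul])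

end Pool.Agent.LibRG65
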