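import Pool.Agent.LibRG65.Defs

/-!
[RG65 T8a] SHORT/MEDIUM. If `P`, `P h` and `h P` are positive definite then `h` is positive definite and commutes with
`P` (helper65). Mathlib only.

Plan. `P h = hᴴ P` and `h P = P hᴴ` (hermitian).  `hᴴ P² = (hᴴ P) P = P h P = P (h P) = P P hᴴ`, so `hᴴ` commutes with `P²`, hence with
`P` (spectral theorem: `P = U diag(p) Uᴴ`, `p > 0`, `p_i² = p_j²` implies `p_i = p_j`).  Taking adjoints `h` commutes with `P`.  `P h = hᴴ P = P hᴴ`
gives `h = hᴴ` (`P` invertible).  `h = S⁻¹ (P h) S⁻¹` where `S = diag`-square root of `P` ... or: in the basis of `U`, `h = P⁻¹ (P h)` is a product of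
commuting positive definite matrices; simplest: `P = S * S`, `S` the positive square root `U diag(√p) Uᴴ`, commutes with `h` too, so
`P h = S h S`, `h = S⁻¹ (P h) S⁻¹` (`Matrix.PosDef.conjTranspose_mul_mul_same`-like lemma with `S⁻¹` hermitian).
-/

set_option autoImplicit false

open MeasureTheory
open scoped InnerProductSpace ComplexOrder Matrix

namespace Pool.Agent.LibRG65

open Pool.Agent.LibTK94 Pool.Agent.LibHK65

variable {n : ℕ} {ι β : Type} [Fintype ι] [DecidableEq ι] [Fintype β] [DecidableEq β]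

open scoped MatrixOrder in
private theorem t8a_sqrt_comm {P A : Matrix ι ι ℂ} (h : Commute P A) :
    Commute (CFC.sqrt P) A := by
  unfold CFC.sqrt
  exact h.cfcₙ_nnreal _

open scoped MatrixOrder in
private theorem t8a_comm_sq {P A : Matrix ι ι ℂ} (hP : P.PosSemidef)
    (h : Commute (P * P) A) : Commute P A := by
  have h1 := t8a_sqrt_comm h
  rwa [CFC.sqrt_mul_self P hP.nonneg] at h1

open scoped MatrixOrder in
theorem comm_of_two {P h : Matrix ι ι ℂ} (hP : P.PosDef) (h1 : (P * h).PosDef)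
    (h2 : (h * P).PosDef) : h.PosDef ∧ P * h = h * P := by
  have hPu : IsUnit P := hP.isUnit
  have hPs : Pᴴ = P := hP.isHermitian
  have e1 : hᴴ * P = P * h := by
    have := h1.isHermitian.eq
    rwa [Matrix.conjTranspose_mul, hPs] at this
  have e2 : P * hᴴ = h * P := by
    have := h2.isHermitian.eq
    rwa [Matrix.conjTranspose_mul, hPs] at this
  have e3 : Commute (P * P) (P * h) := by
    show P * P * (P * h) = P * h * (P * P)
    calc P * P * (P * h) = P * P * (hᴴ * P) := by rw [e1]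
      _ = P * (P * hᴴ) * P := by simp only [Matrix.mul_assoc]
      _ = P * (h * P) * P := by rw [e2]
      _ = P * h * (P * P) := by simp only [Matrix.mul_assoc]
  have c1 : Commute P (P * h) := t8a_comm_sq hP.posSemidef e3
  have c2 : P * h = h * P := by
    have h3 : P * (P * h) = P * (h * P) := by
      rw [c1.eq, Matrix.mul_assoc]
    exact hPu.mul_left_cancel h3
  refine ⟨?_, c2⟩
  have c3 : Commute (CFC.sqrt P) (P * h) := t8a_sqrt_comm c1
  have hS2 : CFC.sqrt P * CFC.sqrt P = P := CFC.sqrt_mul_sqrt_self P hP.posSemidef.nonneg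
  have hSp : (CFC.sqrt P).PosSemidef :=
    Matrix.nonneg_iff_posSemidef.1 (CFC.sqrt_nonneg P)
  have hSu : IsUnit (CFC.sqrt P) := by
    have h5 : IsUnit (CFC.sqrt P * CFC.sqrt P) := by rw [hS2]; exact hPu
    exact isUnit_of_mul_isUnit_left h5
  obtain ⟨u, hu⟩ := hSu
  have hui : ((↑u⁻¹ : Matrix ι ι ℂ))ᴴ = (↑u⁻¹ : Matrix ι ι ℂ) := by
    have h6 : (↑u⁻¹ : Matrix ι ι ℂ) = (CFC.sqrt P)⁻¹ := by
      rw [← hu, Matrix.coe_units_inv]
    rw [h6, Matrix.conjTranspose_nonsing_inv, hSp.isHermitian.eq]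
  have h7 := h1.conjTranspose_mul_mul_same
    (B := (↑u⁻¹ : Matrix ι ι ℂ)) (Matrix.mulVec_injective_of_isUnit (Units.isUnit u⁻¹))
  rw [hui] at h7
  have h8 : (↑u⁻¹ : Matrix ι ι ℂ) * (P * h) * (↑u⁻¹ : Matrix ι ι ℂ) = h := by
    have c4 : Commute (↑u : Matrix ι ι ℂ) (P * h) := by rw [hu]; exact c3
    have c5 : Commute (↑u⁻¹ : Matrix ι ι ℂ) (P * h) := c4.units_inv_left
    have h9 : (↑u : Matrix ι ι ℂ) * (↑u : Matrix ι ι ℂ) = P := by rw [hu]; exact hS2
    rw [Matrix.mul_assoc, ← c5.eq, ← h9]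
    have h10 : (↑u⁻¹ : Matrix ι ι ℂ) * ((↑u⁻¹ : Matrix ι ι ℂ) *
        ((↑u : Matrix ι ι ℂ) * (↑u : Matrix ι ι ℂ) * h)) =
        (↑u⁻¹ : Matrix ι ι ℂ) * (((↑u⁻¹ : Matrix ι ι ℂ) * (↑u : Matrix ι ι ℂ)) *
          ((↑u : Matrix ι ι ℂ) * h)) := by
      simp only [Matrix.mul_assoc]
    rw [h10, Units.inv_mul, Matrix.one_mul, ← Matrix.mul_assoc, Units.inv_mul, Matrix.one_mul]
  rwa [h8] at h7

end Pool.Agent.LibRG65
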