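import Pool.Agent.LibRG65.T6
import Pool.Agent.LibRG65.T7
import Pool.Agent.LibRG65.T8a

/-!
[RG65 T8] MEDIUM. The maximum of `|tr (gᴴ k1 g' k2)|` over `K × K` (helper65). Cites T1, T6, T7, T8a.

Plan. T6: `g = k0 P`, so `gᴴ = P k0ᴴ`.  `S` = maximum of `‖tr (P k1 g' k2)‖` over the compact `K × K`, attained at `(k1, k2)`;
`‖tr (gᴴ g')‖ = ‖tr (P k0ᴴ g' 1)‖ ≤ S`.
(a) `γ = P k1 g' k2 = k P'` (T6); `tr (γ k⁻¹) = tr (k P' kᴴ) = tr P'` belongs to the family (`k2 kᴴ ∈ K`), so `tr P' ≤ S = ‖tr (k P')‖`; T7: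
`k = c 1`.  Replace `k2` by `c⁻¹ k2 = k2 kᴴ`: now `γ = P'` is positive definite and `tr γ = S`, still a maximum.
(b) `γ' = k1 g' k2 P = k' P''`; `tr (γ' k'ᴴ) = tr (P k'ᴴ k1 g' k2)` is in the family, so `tr P'' ≤ S = tr γ = ‖tr γ'‖`
(`Matrix.trace_mul_comm`); T7: `k' = c' 1`, `γ' = c' P''`, and `tr γ' = S > 0` real (or `ι` empty) gives `c' = 1`.
`h = k1 g' k2`: `P h` and `h P` are positive definite; T8a.  `P = k0ᴴ g`.
-/

set_option autoImplicit false

open MeasureTheory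
open scoped InnerProductSpace ComplexOrder Matrix

namespace Pool.Agent.LibRG65

open Pool.Agent.LibTK94 Pool.Agent.LibHK65

variable {n : ℕ} {ι β : Type} [Fintype ι] [DecidableEq ι] [Fintype β] [DecidableEq β]

omit [DecidableEq ι] in
private theorem t8_re_le {P : Matrix ι ι ℂ} : P.trace.re ≤ ‖P.trace‖ := Complex.re_le_norm _

private theorem t8_scal {P : Matrix ι ι ℂ} {c : ℂ} (hc : ‖c‖ = 1) :
    (c • (1 : Matrix ι ι ℂ)) * P * (c • (1 : Matrix ι ι ℂ))ᴴ = P := by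
  rw [Matrix.conjTranspose_smul, Matrix.conjTranspose_one, Matrix.smul_mul, Matrix.one_mul,
    Matrix.smul_mul, Matrix.mul_smul, Matrix.mul_one, smul_smul]
  have h1 : c * star c = 1 := by
    rw [← starRingEnd_apply, Complex.mul_conj, Complex.normSq_eq_norm_sq, hc]
    norm_num
  rw [h1, one_smul]

theorem RG.max_pair (R : RG n ι β) {g g' : Matrix ι ι ℂ} (hg : g ∈ R.G) (hg' : g' ∈ R.G) :
    ∃ P ∈ R.G, ∃ h ∈ R.G, P.PosDef ∧ h.PosDef ∧ P * h = h * P ∧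
      (∃ k1 ∈ R.K, ∃ k2 ∈ R.K, P = k1 * g * k2) ∧ (∃ k1 ∈ R.K, ∃ k2 ∈ R.K, h = k1 * g' * k2) ∧
      ‖(gᴴ * g').trace‖ ≤ (P * h).trace.re := by
  obtain ⟨k0, hk0, P, hPG, hP, hgP⟩ := R.polar hg
  have hk0G : k0 ∈ R.G := hk0.1
  have hk0u : k0ᴴ * k0 = 1 := hk0.2
  have hPk : P = k0ᴴ * g * 1 := by
    rw [hgP, mul_one, ← mul_assoc, hk0u, one_mul]
  have hgH : gᴴ = P * k0ᴴ := by
    rw [hgP, Matrix.conjTranspose_mul, hP.isHermitian.eq]
  -- the maximum
  have hcont : Continuous fun q : Matrix ι ι ℂ × Matrix ι ι ℂ => ‖(P * q.1 * g' * q.2).trace‖ := by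
    refine Continuous.norm (Continuous.matrix_trace ?_)
    exact (((continuous_const.matrix_mul continuous_fst).matrix_mul continuous_const).matrix_mul
      continuous_snd)
  obtain ⟨⟨k1, k2⟩, hkk, hmax⟩ := (R.isCompact_K.prod R.isCompact_K).exists_isMaxOn
    ⟨(1, 1), R.K_one, R.K_one⟩ hcont.continuousOn
  have hk1 : k1 ∈ R.K := hkk.1
  have hk2 : k2 ∈ R.K := hkk.2
  have hmax' : ∀ a ∈ R.K, ∀ b ∈ R.K, ‖(P * a * g' * b).trace‖ ≤ ‖(P * k1 * g' * k2).trace‖ := by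
    intro a ha b hb
    have h1 := hmax (show (a, b) ∈ R.K ×ˢ R.K from ⟨ha, hb⟩)
    exact h1
  -- step (a)
  have hγG : P * k1 * g' * k2 ∈ R.G :=
    R.G.mul_mem (R.G.mul_mem (R.G.mul_mem hPG hk1.1) hg') hk2.1
  obtain ⟨k, hk, P', hP'G, hP', hγ⟩ := R.polar hγG
  have hku : kᴴ * k = 1 := hk.2
  have htr : (P * k1 * g' * (k2 * kᴴ)).trace = P'.trace := by
    rw [← mul_assoc, hγ, Matrix.trace_mul_comm, ← mul_assoc, hku, one_mul]
  have hle1 : P'.trace.re ≤ ‖(k * P').trace‖ := by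
    refine (t8_re_le).trans ?_
    rw [← htr, ← hγ]
    exact hmax' k1 hk1 (k2 * kᴴ) (R.K_mul hk2 (R.K_star hk))
  obtain ⟨c, hc, hkc⟩ := scalar_of_trace hku hP' hle1
  obtain ⟨h, hh⟩ : ∃ h, h = k1 * g' * (k2 * kᴴ) := ⟨_, rfl⟩
  have hPh : P * h = P' := by
    have h1 : P * h = P * k1 * g' * k2 * kᴴ := by
      rw [hh]
      simp only [mul_assoc]
    rw [h1, hγ, hkc]
    exact t8_scal hc
  have hS : ‖(P * k1 * g' * k2).trace‖ ≤ (P * h).trace.re := by
    rw [hγ, hPh]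
    exact trace_le hku hP'
  have hhG : h ∈ R.G := by
    rw [hh]
    exact R.G.mul_mem (R.G.mul_mem hk1.1 hg') (R.G.mul_mem hk2.1 (R.star k hk.1))
  -- step (b)
  obtain ⟨k', hk', P'', hP''G, hP'', hγ'⟩ := R.polar (R.G.mul_mem hhG hPG)
  have hku' : k'ᴴ * k' = 1 := hk'.2
  have htr' : (P * (k'ᴴ * k1) * g' * (k2 * kᴴ)).trace = P''.trace := by
    have h1 : P * (k'ᴴ * k1) * g' * (k2 * kᴴ) = P * k'ᴴ * h := by
      rw [hh]
      simp only [mul_assoc]
    rw [h1, Matrix.trace_mul_comm, ← mul_assoc, hγ', Matrix.trace_mul_comm, ← mul_assoc, hku', one_mul]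
  have hle2 : P''.trace.re ≤ ‖(k' * P'').trace‖ := by
    refine (t8_re_le).trans ?_
    rw [← htr', ← hγ', Matrix.trace_mul_comm h P]
    refine (hmax' _ (R.K_mul (R.K_star hk') hk1) _ (R.K_mul hk2 (R.K_star hk))).trans ?_
    exact hS.trans t8_re_le
  obtain ⟨c', hc', hkc'⟩ := scalar_of_trace hku' hP'' hle2
  have hhP : h * P = P'' := by
    rcases isEmpty_or_nonempty ι with hι | hι
    · ext i
      exact isEmptyElim i
    · have h1 : h * P = c' • P'' := by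
        rw [hγ', hkc', Matrix.smul_mul, Matrix.one_mul]
      have h2 : P'.trace = c' * P''.trace := by
        rw [← hPh, Matrix.trace_mul_comm, h1, Matrix.trace_smul, smul_eq_mul]
      have h3 := hP'.trace_pos
      have h4 := hP''.trace_pos
      rw [Complex.pos_iff] at h3 h4
      have h5 : P'.trace = (P'.trace.re : ℂ) := Complex.ext rfl (by rw [Complex.ofReal_im]; exact h3.2.symm)
      have h6 : P''.trace = (P''.trace.re : ℂ) := Complex.ext rfl (by rw [Complex.ofReal_im]; exact h4.2.symm)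
      have h7 : c' = ((P'.trace.re / P''.trace.re : ℝ) : ℂ) := by
        have h8 : (P''.trace.re : ℂ) ≠ 0 := by
          exact_mod_cast h4.1.ne'
        rw [h5, h6] at h2
        rw [Complex.ofReal_div, eq_div_iff h8]
        exact h2.symm
      have h9 : P'.trace.re / P''.trace.re = 1 := by
        rw [h7, Complex.norm_real, Real.norm_eq_abs, abs_of_pos (div_pos h3.1 h4.1)] at hc'
        exact hc'
      rw [h1, h7, h9, Complex.ofReal_one, one_smul]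
  have h1 : (P * h).PosDef := by
    rw [hPh]
    exact hP'
  have h2 : (h * P).PosDef := by
    rw [hhP]
    exact hP''
  obtain ⟨h3, h4⟩ := comm_of_two hP h1 h2
  refine ⟨P, hPG, h, hhG, hP, h3, h4, ⟨k0ᴴ, R.K_star hk0, 1, R.K_one, hPk⟩,
    ⟨k1, hk1, k2 * kᴴ, R.K_mul hk2 (R.K_star hk), hh⟩, ?_⟩
  refine le_trans ?_ hS
  have h5 := hmax' k0ᴴ (R.K_star hk0) 1 R.K_one
  rw [mul_one, ← hgH] at h5
  exact h5

end Pool.Agent.LibRG65
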