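import Pool.Agent.LibRG65.T5
import Pool.Agent.LibRG65.T8

/-!
[RG65 T9] SHORT/MEDIUM. von Neumann's trace inequality for `G` (helper65). Cites T0, T1, T5, T8.

Plan. T8, then T5 for `P`, `h`: `k P kᴴ = Tm x`, `k h kᴴ = Tm x'`.  `tr (P h) = tr (k P kᴴ k h kᴴ) = tr (Tm x Tm x') = ∑ exp ⟪m j, x + x'⟫`
(`Tm_add`, `Tm_ofR`).
-/

set_option autoImplicit false

open MeasureTheory
open scoped InnerProductSpace ComplexOrder Matrix

namespace Pool.Agent.LibRG65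

open Pool.Agent.LibTK94 Pool.Agent.LibHK65

variable {n : ℕ} {ι β : Type} [Fintype ι] [DecidableEq ι] [Fintype β] [DecidableEq β]

theorem RG.neumann (R : RG n ι β) (hS : R.Sp) {g g' : Matrix ι ι ℂ} (hg : g ∈ R.G)
    (hg' : g' ∈ R.G) : ∃ x x' : V n,
      (∃ k1 ∈ R.K, ∃ k2 ∈ R.K, Tm R.m (ofR x) = k1 * g * k2) ∧
      (∃ k1 ∈ R.K, ∃ k2 ∈ R.K, Tm R.m (ofR x') = k1 * g' * k2) ∧
      ‖(gᴴ * g').trace‖ ≤ ∑ j, Real.exp ⟪R.m j, x + x'⟫_ℝ := by
  obtain ⟨P, hP, h, hh, hPd, hhd, hc, ⟨a1, ha1, a2, ha2, e1⟩, ⟨b1, hb1, b2, hb2, e2⟩, ht⟩ :=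
    R.max_pair hg hg'
  obtain ⟨k, hk, x, x', hx, hx'⟩ := R.conj_pair hS hP hh hPd hhd hc
  have hks := R.K_star hk
  refine ⟨x, x', ⟨k * a1, R.K_mul hk ha1, a2 * kᴴ, R.K_mul ha2 hks, ?_⟩,
    ⟨k * b1, R.K_mul hk hb1, b2 * kᴴ, R.K_mul hb2 hks, ?_⟩, ?_⟩
  · rw [← hx, e1]
    simp only [Matrix.mul_assoc]
  · rw [← hx', e2]
    simp only [Matrix.mul_assoc]
  · refine ht.trans (le_of_eq ?_)
    have h1 : (P * h).trace = (Tm R.m (ofR x) * Tm R.m (ofR x')).trace := by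
      rw [← hx, ← hx']
      have h2 : k * P * kᴴ * (k * h * kᴴ) = k * (P * h) * kᴴ := by
        calc k * P * kᴴ * (k * h * kᴴ) = k * P * (kᴴ * k) * (h * kᴴ) := by
              simp only [Matrix.mul_assoc]
          _ = k * (P * h) * kᴴ := by
              rw [hk.2]
              simp only [Matrix.mul_assoc, Matrix.mul_one]
      rw [h2, Matrix.trace_mul_comm (k * (P * h)) kᴴ, ← Matrix.mul_assoc, hk.2, Matrix.one_mul]
    have h3 : Tm R.m (ofR x) * Tm R.m (ofR x') = Tm R.m (ofR (x + x')) := by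
      rw [← Tm_add]
      congr 1
      funext j
      simp [ofR]
    rw [h1, h3, Tm_ofR, Matrix.trace_diagonal, Complex.re_sum]
    refine Finset.sum_congr rfl fun j _ => ?_
    exact Complex.ofReal_re _

end Pool.Agent.LibRG65
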