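import Pool.Agent.LibRG65.R7
import Pool.Agent.LibRG65.T9
import Pool.Agent.LibRG65.T10
import Pool.Agent.LibRG65.C4e
import Pool.Agent.LibRG65.C5
import Pool.Agent.LibRG65.C7
import Pool.Agent.LibRG65.F0
import Pool.Agent.LibTK94.CReg

/-!
# Assembly (helper65)
-/

set_option autoImplicit false

open MeasureTheory
open scoped InnerProductSpace ComplexOrder Matrix

namespace Pool.Agent.LibRG65

open Pool.Agent.LibTK94 Pool.Agent.LibHK65

variable {n : ℕ} {ι β : Type} [Fintype ι] [DecidableEq ι] [Fintype β] [DecidableEq β]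

omit [DecidableEq β] in
theorem RG.smooth_two (R : RG n ι β) {Φ : Matrix ι ι ℂ → ℝ} (hΦ : R.Smooth 4 Φ) :
    R.Smooth 2 Φ := fun g hg => (hΦ g hg).of_le (by norm_num)

theorem RG.relg_inv (R : RG n ι β) {c : ℝ} {Φ : Matrix ι ι ℂ → ℝ} (hinv : R.Inv Φ)
    {g k k' : Matrix ι ι ℂ} (hg : g ∈ R.G) (hk : k ∈ R.K) (hk' : k' ∈ R.K) :
    relg c Φ (k * g * k') = relg c Φ g := by
  unfold relg
  rw [hinv g hg k hk k' hk', norm_vecM_mul hk.2 (R.K_mul_star hk')]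

/-- the real part -/
theorem RG.real_part (R : RG n ι β) (hn : n ≠ 0) (hS : R.Sp) {c : ℝ} (hc : 0 < c) {lam : ℝ}
    {Φ : Matrix ι ι ℂ → ℝ} (hΦ : R.Smooth 4 Φ) (hinv : R.Inv Φ)
    (hpos : ∀ g ∈ R.G, (R.LV Φ g).PosDef) (hne : Nonempty ι)
    (hbd : ∃ C0 : ℝ, ∀ g ∈ R.G, |relg c Φ g| ≤ C0)
    (hKE : ∀ g ∈ R.G, R.LV (fun g' => Real.log (R.LV Φ g').det.re) g =
      (-(lam : ℂ)) • R.LV Φ g) :
    ∃ C > (0 : ℝ), ∃ α > (0 : ℝ), ∀ x y : V n,
      |((2 * c)⁻¹ * R.U Φ x - lse R.M x) - ((2 * c)⁻¹ * R.U Φ y - lse R.M y)| ≤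
        C * (bd R.M x y) ^ α := by
  have hΦ2 := R.smooth_two hΦ
  have hM : R.M.Nonempty := ⟨_, R.mem_M (Classical.arbitrary ι)⟩
  have hSp : Spans R.M := R.spans_M hS
  obtain ⟨h, hh⟩ := R.exists_h hS
  obtain ⟨t, ht⟩ : ∃ t : ℝ, t = (2 * c)⁻¹ := ⟨_, rfl⟩
  have ht0 : 0 < t := by rw [ht]; positivity
  have htc : 2 * c * t = 1 := by rw [ht]; field_simp
  rw [← ht]
  have hU4 : ContDiff ℝ 4 (R.U Φ) := R.smooth_U hΦ
  have hU2 : ContDiff ℝ 2 (R.U Φ) := hU4.of_le (by norm_num)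
  have hpp : ∀ x, (Hm (R.U Φ) x).PosDef := fun x => R.Hm_posDef hΦ2 hinv hpos x
  have hReg : Reg (fun x => t * R.U Φ x) (fun x => t • gradient (R.U Φ) x)
      (fun x => t • Hm (R.U Φ) x) := (reg_of_contDiff hU2 hpp).smul ht0
  -- boundedness
  obtain ⟨C0, hC0⟩ := hbd
  have hB : ∀ x, |t * R.U Φ x - lse R.M x| ≤ t * C0 + Real.log (Fintype.card ι) := by
    intro x
    have h3 := hC0 _ (R.Tm_mem (ofR x))
    unfold relg at h3
    rw [norm_vecM_Tm] at h3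
    have h4 := (R.kap x x).1
    obtain ⟨κ, hκ⟩ : ∃ κ : ℝ, κ = Real.log (∑ j, Real.exp (2 * ⟪R.m j, x⟫_ℝ)) -
        2 * lse R.M x := ⟨_, rfl⟩
    rw [← hκ] at h4
    have h5 : Real.log (∑ j, Real.exp (2 * ⟪R.m j, x⟫_ℝ)) = κ + 2 * lse R.M x := by
      rw [hκ]; ring
    rw [h5] at h3
    have h6 : t * R.U Φ x - lse R.M x =
        t * (Φ (Tm R.m (ofR x)) - c * (κ + 2 * lse R.M x)) + κ / 2 := by
      have h7 : t * c = 1 / 2 := by linarith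
      unfold RG.U
      linear_combination (κ + 2 * lse R.M x) * h7
    rw [h6]
    refine (abs_add_le _ _).trans (add_le_add ?_ ?_)
    · rw [abs_mul, abs_of_pos ht0]
      exact mul_le_mul_of_nonneg_left h3 ht0.le
    · rw [abs_div, abs_two]
      have h8 : 0 ≤ |κ| := abs_nonneg κ
      linarith
  have hHc : Continuous fun x => (t • Hm (R.U Φ) x).det := by
    have h3 : (fun x => (t • Hm (R.U Φ) x).det) = fun x => t ^ n * (Hm (R.U Φ) x).det := by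
      funext x
      rw [Matrix.det_smul, Fintype.card_fin]
    rw [h3]
    exact continuous_const.mul (continuous_det_Hm hU2)
  have hne' : ∀ b, h b ≠ 0 := fun b => R.h_ne hΦ2 hinv hpos b (hh b)
  obtain ⟨b0, a, hba⟩ := R.affine hΦ hinv hpos hKE
  refine holder_of_group hn hM hSp hReg hHc hB R.γ h R.root_ne hne'
    (lam := 2 * c * lam) (b0 := b0)
    (a := a + (n + Fintype.card β : ℕ) * Real.log t + n * Real.log 4 +
      Fintype.card β * Real.log 2) (fun x hx => ?_)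
  have h3 := hba x
  rw [R.det_LV hΦ2 hinv hh x hx] at h3
  have hr : ∀ b, 0 < ⟪gradient (R.U Φ) x, h b⟫_ℝ /
      (2 * (1 - Real.exp (-(2 * ⟪R.γ b, x⟫_ℝ)))) := fun b =>
    R.root_pos hΦ2 hinv hpos b (hh b) x (hx b)
  have hd := (hpp x).det_pos
  have hP0 : 0 < ∏ b, (⟪gradient (R.U Φ) x, h b⟫_ℝ /
      (2 * (1 - Real.exp (-(2 * ⟪R.γ b, x⟫_ℝ))))) := Finset.prod_pos fun b _ => hr b
  have h4 : (1 / 4) ^ n * (Hm (R.U Φ) x).det * ∏ b, (⟪gradient (R.U Φ) x, h b⟫_ℝ /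
      (2 * (1 - Real.exp (-(2 * ⟪R.γ b, x⟫_ℝ))))) =
      Real.exp (-(lam * R.U Φ x) + ⟪b0, x⟫_ℝ + a) := by
    rw [← h3, Real.exp_log (by positivity)]
  have h5 : ∏ b, (⟪gradient (R.U Φ) x, h b⟫_ℝ /
      (2 * (1 - Real.exp (-(2 * ⟪R.γ b, x⟫_ℝ))))) =
      (∏ b, |⟪gradient (R.U Φ) x, h b⟫_ℝ|) /
        (2 ^ Fintype.card β * ∏ b, |1 - Real.exp (-(2 * ⟪R.γ b, x⟫_ℝ))|) := by
    have h6 : (2 : ℝ) ^ Fintype.card β = ∏ _b : β, (2 : ℝ) := by
      rw [Finset.prod_const, Finset.card_univ]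
    rw [h6, ← Finset.prod_mul_distrib, ← Finset.prod_div_distrib]
    refine Finset.prod_congr rfl fun b _ => ?_
    rw [← abs_of_pos (hr b), abs_div, abs_mul, abs_two]
  have hD : ∏ b, |1 - Real.exp (-(2 * ⟪R.γ b, x⟫_ℝ))| ≠ 0 := by
    refine Finset.prod_ne_zero_iff.2 fun b _ => ?_
    have h7 := (hr b).ne'
    intro h8
    rw [abs_eq_zero] at h8
    rw [h8, mul_zero, div_zero] at h7
    exact h7 rfl
  rw [h5] at h4
  have h8 : (Hm (R.U Φ) x).det * ∏ b, |⟪gradient (R.U Φ) x, h b⟫_ℝ| =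
      4 ^ n * 2 ^ Fintype.card β * Real.exp (-(lam * R.U Φ x) + ⟪b0, x⟫_ℝ + a) *
        ∏ b, |1 - Real.exp (-(2 * ⟪R.γ b, x⟫_ℝ))| := by
    rw [← h4]
    have h9 : ((1 : ℝ) / 4) ^ n * 4 ^ n = 1 := by
      rw [← mul_pow]
      norm_num
    field_simp
    linear_combination (-(∏ b, |⟪gradient (R.U Φ) x, h b⟫_ℝ|)) * h9
  rw [Matrix.det_smul, Fintype.card_fin]
  have h10 : ∏ b, |⟪t • gradient (R.U Φ) x, h b⟫_ℝ| =
      t ^ Fintype.card β * ∏ b, |⟪gradient (R.U Φ) x, h b⟫_ℝ| := by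
    have h11 : t ^ Fintype.card β = ∏ _b : β, t := by
      rw [Finset.prod_const, Finset.card_univ]
    rw [h11, ← Finset.prod_mul_distrib]
    refine Finset.prod_congr rfl fun b _ => ?_
    rw [real_inner_smul_left, abs_mul, abs_of_pos ht0]
  rw [h10]
  have h12 : 2 * c * lam * (t * R.U Φ x) = lam * R.U Φ x := by
    linear_combination lam * R.U Φ x * htc
  rw [h12]
  have h13 : Real.exp (-(lam * R.U Φ x) + ⟪b0, x⟫_ℝ +
      (a + (n + Fintype.card β : ℕ) * Real.log t + n * Real.log 4 +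
        Fintype.card β * Real.log 2)) =
      Real.exp (-(lam * R.U Φ x) + ⟪b0, x⟫_ℝ + a) * (t ^ (n + Fintype.card β) * 4 ^ n *
        2 ^ Fintype.card β) := by
    have e1 : t ^ (n + Fintype.card β) = Real.exp ((n + Fintype.card β : ℕ) * Real.log t) := by
      rw [Real.exp_nat_mul, Real.exp_log ht0]
    have e2 : (4 : ℝ) ^ n = Real.exp (n * Real.log 4) := by
      rw [Real.exp_nat_mul, Real.exp_log (by norm_num)]
    have e3 : (2 : ℝ) ^ Fintype.card β = Real.exp (Fintype.card β * Real.log 2) := by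
      rw [Real.exp_nat_mul, Real.exp_log (by norm_num)]
    rw [e1, e2, e3, ← Real.exp_add, ← Real.exp_add, ← Real.exp_add]
    congr 1
    ring
  rw [h13]
  linear_combination t ^ n * t ^ Fintype.card β * h8

/-- transfer to the group -/
theorem RG.transfer (R : RG n ι β) (hne : Nonempty ι) (hS : R.Sp) {c : ℝ} (hc : 0 < c)
    {Φ : Matrix ι ι ℂ → ℝ} (hinv : R.Inv Φ)
    (hreal : ∃ C > (0 : ℝ), ∃ α > (0 : ℝ), ∀ x y : V n,
      |((2 * c)⁻¹ * R.U Φ x - lse R.M x) - ((2 * c)⁻¹ * R.U Φ y - lse R.M y)| ≤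
        C * (bd R.M x y) ^ α) :
    ∃ C > (0 : ℝ), ∃ α > (0 : ℝ), ∀ g ∈ R.G, ∀ g' ∈ R.G,
      |relg c Φ g - relg c Φ g'| ≤ C * fsDist (vecM g) (vecM g') ^ α := by
  obtain ⟨C, hC, α, hα, hx⟩ := hreal
  have hM : R.M.Nonempty := ⟨_, R.mem_M (Classical.arbitrary ι)⟩
  have hcard : (0 : ℝ) < Fintype.card ι := by
    exact_mod_cast Fintype.card_pos
  obtain ⟨α', hα'⟩ : ∃ α' : ℝ, α' = min α 1 := ⟨_, rfl⟩
  have hα'0 : 0 < α' := by rw [hα']; exact lt_min hα one_pos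
  obtain ⟨D, hD⟩ : ∃ D : ℝ, D = 2 * c * C * 2 ^ α + c * (2 * Fintype.card ι * 2) := ⟨_, rfl⟩
  have hD0 : 0 < D := by rw [hD]; positivity
  obtain ⟨S, hSS⟩ : ∃ S : ℝ, S = 2 * Real.sqrt (Fintype.card ι) := ⟨_, rfl⟩
  have hS0 : 0 < S := by rw [hSS]; positivity
  refine ⟨D * S ^ α', by positivity, α', hα'0, fun g hg g' hg' => ?_⟩
  obtain ⟨x, x', ⟨k1, hk1, k2, hk2, e⟩, ⟨k1', hk1', k2', hk2', e'⟩, htr⟩ := R.neumann hS hg hg'
  have hA : ‖vecM g‖ ^ 2 = ∑ j, Real.exp (2 * ⟪R.m j, x⟫_ℝ) := by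
    rw [← norm_vecM_Tm, e, norm_vecM_mul hk1.2 (R.K_mul_star hk2)]
  have hA' : ‖vecM g'‖ ^ 2 = ∑ j, Real.exp (2 * ⟪R.m j, x'⟫_ℝ) := by
    rw [← norm_vecM_Tm, e', norm_vecM_mul hk1'.2 (R.K_mul_star hk2')]
  rw [← inner_vecM] at htr
  have hb := R.bd_le_fs hA hA' htr
  have hf0 : 0 ≤ fsDist (vecM g) (vecM g') := Real.arccos_nonneg _
  have hr : relg c Φ g - relg c Φ g' =
      2 * c * (((2 * c)⁻¹ * R.U Φ x - lse R.M x) - ((2 * c)⁻¹ * R.U Φ x' - lse R.M x')) -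
      c * ((Real.log (∑ j, Real.exp (2 * ⟪R.m j, x⟫_ℝ)) - 2 * lse R.M x) -
        (Real.log (∑ j, Real.exp (2 * ⟪R.m j, x'⟫_ℝ)) - 2 * lse R.M x')) := by
    rw [← R.relg_inv hinv hg hk1 hk2, ← R.relg_inv hinv hg' hk1' hk2', ← e, ← e']
    unfold relg RG.U
    rw [norm_vecM_Tm, norm_vecM_Tm]
    field_simp
    ring
  have hk := (R.kap x x').2
  have hxx := hx x x'
  have hbd0 : 0 ≤ bd R.M x x' := bd_nonneg _ _
  have hp := pow_min hα hbd0 (bd_le_two hM x x')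
  rw [← hα'] at hp
  obtain ⟨B, hBB⟩ : ∃ B : ℝ, B = bd R.M x x' := ⟨_, rfl⟩
  rw [← hBB] at hp hk hxx hb hbd0
  have h1 : |relg c Φ g - relg c Φ g'| ≤ 2 * c * (C * B ^ α) + c * (2 * Fintype.card ι * B) := by
    rw [hr]
    refine (abs_sub _ _).trans (add_le_add ?_ ?_)
    · rw [abs_mul, abs_of_pos (by positivity : 0 < 2 * c)]
      exact mul_le_mul_of_nonneg_left hxx (by positivity)
    · rw [abs_mul, abs_of_pos hc]
      exact mul_le_mul_of_nonneg_left hk hc.le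
  have h2 : 2 * c * (C * B ^ α) + c * (2 * Fintype.card ι * B) ≤ D * B ^ α' := by
    have h3 : 2 * c * (C * B ^ α) ≤ 2 * c * (C * (2 ^ α * B ^ α')) :=
      mul_le_mul_of_nonneg_left (mul_le_mul_of_nonneg_left hp.1 hC.le) (by positivity)
    have h4 : c * (2 * Fintype.card ι * B) ≤ c * (2 * Fintype.card ι * (2 * B ^ α')) :=
      mul_le_mul_of_nonneg_left (mul_le_mul_of_nonneg_left hp.2 (by positivity)) hc.le
    rw [hD]
    linarith
  have h5 : B ^ α' ≤ S ^ α' * fsDist (vecM g) (vecM g') ^ α' := by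
    rw [← Real.mul_rpow hS0.le hf0, hSS]
    exact Real.rpow_le_rpow hbd0 hb hα'0.le
  refine h1.trans (h2.trans ?_)
  rw [mul_assoc]
  exact mul_le_mul_of_nonneg_left h5 hD0.le

theorem group_holder (R : RG n ι β) (hS : R.Sp) (c : ℝ) (hc : 0 < c) (lam : ℝ)
    (Φ : Matrix ι ι ℂ → ℝ) (hΦ : R.Smooth 4 Φ) (hinv : R.Inv Φ)
    (hpos : ∀ g ∈ R.G, (R.LV Φ g).PosDef)
    (hbd : ∃ C0 : ℝ, ∀ g ∈ R.G, |relg c Φ g| ≤ C0)
    (hKE : ∀ g ∈ R.G, R.LV (fun g' => Real.log (R.LV Φ g').det.re) g =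
      (-(lam : ℂ)) • R.LV Φ g) :
    ∃ C > (0 : ℝ), ∃ α > (0 : ℝ), ∀ g ∈ R.G, ∀ g' ∈ R.G,
      |relg c Φ g - relg c Φ g'| ≤ C * fsDist (vecM g) (vecM g') ^ α := by
  rcases Nat.eq_zero_or_pos n with hn | hn
  · subst hn
    refine ⟨1, one_pos, 1, one_pos, fun g hg g' hg' => ?_⟩
    have hf0 : 0 ≤ fsDist (vecM g) (vecM g') := Real.arccos_nonneg _
    obtain ⟨x, x', ⟨k1, hk1, k2, hk2, e⟩, ⟨k1', hk1', k2', hk2', e'⟩, _⟩ := R.neumann hS hg hg'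
    have hxx : x = x' := Subsingleton.elim _ _
    have h1 : relg c Φ g = relg c Φ g' := by
      rw [← R.relg_inv hinv hg hk1 hk2, ← R.relg_inv hinv hg' hk1' hk2', ← e, ← e', hxx]
    rw [h1, sub_self, abs_zero]
    exact mul_nonneg zero_le_one (Real.rpow_nonneg hf0 _)
  · have hn0 : n ≠ 0 := hn.ne'
    have hne : Nonempty ι := by
      by_contra hne
      rw [not_nonempty_iff] at hne
      have h3 := hS (EuclideanSpace.single ⟨0, hn⟩ 1) (fun i => (hne.false i).elim)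
      have h4 := congrArg (fun v : V n => v ⟨0, hn⟩) h3
      simp at h4
    exact R.transfer hne hS hc hinv (R.real_part hn0 hS hc hΦ hinv hpos hne hbd hKE)

end Pool.Agent.LibRG65
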