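import Pool.Agent.LibRG65.Defs

/-!
[RG65 R0] SHORT/MEDIUM. Generic directions and a pigeonhole (helper65). Only Mathlib.

`exists_generic`: a vector not orthogonal to finitely many nonzero vectors. E.g. `e = (1, τ, τ², ..)`: for every `b` the
polynomial `∑ k, (h b k) X^k` is nonzero, so has finitely many roots (`Polynomial.roots` / `Polynomial.finite_setOf_isRoot`);
`τ` outside the finite union of the root sets (`Set.Finite.exists_notMem`, `Set.finite_iUnion`).  (`n = 0`: no `h b ≠ 0`,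
so `β` is empty.)
`pig`: `e` generic, `c = (1/2) min_b |⟪h b, e⟫|` (any `c > 0` below all of them, `c = 1` if `β` is empty; e.g. by
`Finite.exists_min` or an induction / `Finset.exists_min_image`).  For fixed `b` the numbers
`⟪h b, p⟫ + i s ⟪h b, e⟫`, `i = 0, 1, ..`, differ by at least `2 c s`, so at most one `i` is bad (`< c s`) for `b`.
If all `i ≤ card β` were bad, `i ↦ b(i)` would be an injective map `Fin (card β + 1) → β`:
`Fintype.exists_ne_map_eq_of_card_lt`.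
-/

set_option autoImplicit false

open MeasureTheory
open scoped InnerProductSpace ComplexOrder Matrix

namespace Pool.Agent.LibRG65

open Pool.Agent.LibTK94 Pool.Agent.LibHK65

theorem exists_generic {n : ℕ} {β : Type} [Finite β] (h : β → V n) (hh : ∀ b, h b ≠ 0) :
    ∃ e : V n, ∀ b, ⟪h b, e⟫_ℝ ≠ 0 := by
  refine Module.Dual.exists_forall_ne_zero_of_forall_exists
    (fun b => (innerₛₗ ℝ (h b) : V n →ₗ[ℝ] ℝ)) fun b => ⟨h b, ?_⟩
  have h1 : ⟪h b, h b⟫_ℝ ≠ 0 := inner_self_ne_zero.2 (hh b)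
  exact h1

theorem pig {n : ℕ} {β : Type} [Fintype β] (h : β → V n) (hh : ∀ b, h b ≠ 0) :
    ∃ e : V n, ∃ c > (0 : ℝ), ∀ (p : V n) (s : ℝ), 0 < s →
      ∃ i : ℕ, i ≤ Fintype.card β ∧ ∀ b, c * s ≤ |⟪h b, p + ((i : ℝ) * s) • e⟫_ℝ| := by
  classical
  obtain ⟨e, he⟩ := exists_generic h hh
  have hm : ∃ d > (0 : ℝ), ∀ b, d ≤ |⟪h b, e⟫_ℝ| := by
    rcases isEmpty_or_nonempty β with h0 | h0
    · exact ⟨1, one_pos, fun b => (h0.false b).elim⟩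
    · obtain ⟨b0, hb0⟩ := Finite.exists_min (fun b => |⟪h b, e⟫_ℝ|)
      exact ⟨|⟪h b0, e⟫_ℝ|, abs_pos.2 (he b0), hb0⟩
  obtain ⟨d, hd, hdb⟩ := hm
  refine ⟨e, d / 2, by positivity, fun p s hs => ?_⟩
  by_contra hcon
  push Not at hcon
  have h1 : ∀ i : Fin (Fintype.card β + 1), ∃ b, |⟪h b, p + (((i : ℕ) : ℝ) * s) • e⟫_ℝ| < d / 2 * s :=
    fun i => hcon i (Nat.lt_succ_iff.1 i.2)
  choose b hb using h1
  obtain ⟨i, j, hij, hbij⟩ := Fintype.exists_ne_map_eq_of_card_lt b (by simp)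
  have hi := hb i
  have hj := hb j
  rw [← hbij] at hj
  rw [inner_add_right, inner_smul_right] at hi hj
  have h2 : |((i : ℕ) : ℝ) * s * ⟪h (b i), e⟫_ℝ - ((j : ℕ) : ℝ) * s * ⟪h (b i), e⟫_ℝ| < d * s := by
    have h3 := abs_sub_abs_le_abs_sub (⟪h (b i), p⟫_ℝ + ((i : ℕ) : ℝ) * s * ⟪h (b i), e⟫_ℝ)
      (⟪h (b i), p⟫_ℝ + ((j : ℕ) : ℝ) * s * ⟪h (b i), e⟫_ℝ)
    rw [abs_lt] at hi hj ⊢
    constructor <;> linarith [hi.1, hi.2, hj.1, hj.2]
  have h4 : (1 : ℝ) ≤ |((i : ℕ) : ℝ) - ((j : ℕ) : ℝ)| := by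
    have h5 : ((i : ℕ) : ℤ) - ((j : ℕ) : ℤ) ≠ 0 := by
      intro h6
      apply hij
      apply Fin.ext
      omega
    have h6 := Int.one_le_abs h5
    have h7 : (1 : ℝ) ≤ ((|((i : ℕ) : ℤ) - ((j : ℕ) : ℤ)| : ℤ) : ℝ) := by exact_mod_cast h6
    rw [Int.cast_abs] at h7
    simpa using h7
  have h8 : |((i : ℕ) : ℝ) * s * ⟪h (b i), e⟫_ℝ - ((j : ℕ) : ℝ) * s * ⟪h (b i), e⟫_ℝ| =
      |((i : ℕ) : ℝ) - ((j : ℕ) : ℝ)| * (s * |⟪h (b i), e⟫_ℝ|) := by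
    rw [← sub_mul, ← sub_mul, abs_mul, abs_mul, abs_of_pos hs]
    ring
  rw [h8] at h2
  have h9 : d * s ≤ s * |⟪h (b i), e⟫_ℝ| := by
    rw [mul_comm d s]
    exact mul_le_mul_of_nonneg_left (hdb (b i)) hs.le
  have h10 : 0 ≤ s * |⟪h (b i), e⟫_ℝ| := by positivity
  nlinarith [h2, h4, h9, h10]

end Pool.Agent.LibRG65
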