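import Pool.Agent.LibRG65.Defs

/-!
[RG65 R1] MEDIUM. A Lipschitz function `N` with `exp N` integrable tends to `-∞` at infinity (helper65). Only Mathlib.

Plan. `f y = ENNReal.ofReal (exp (N y))`, `I R = ∫⁻ y in {y | R ≤ ‖y‖}, f y → 0` as `R → ∞` (along `ℕ`: the finite measure
`volume.withDensity f` of the decreasing sets with empty intersection, `tendsto_measure_iInter_atTop` or
`MeasureTheory.tendsto_setLIntegral_zero`).  If `R + 1 ≤ ‖x‖` then `ball x 1 ⊆ {R ≤ ‖y‖}` and
`ofReal (exp (N x - |L|)) * volume (ball x 1) ≤ ∫⁻ y in ball x 1, f y ≤ I R`, and `volume (ball x 1) = volume (ball 0 1)` is a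
positive constant.  So `exp (N x)` is as small as we like for `‖x‖` large.
-/

set_option autoImplicit false

open MeasureTheory
open scoped InnerProductSpace ComplexOrder Matrix

namespace Pool.Agent.LibRG65

open Pool.Agent.LibTK94 Pool.Agent.LibHK65

theorem far_small {n : ℕ} {N : V n → ℝ} {L : ℝ} (hL : ∀ x y, |N x - N y| ≤ L * ‖x - y‖)
    (hfin : ∫⁻ x, ENNReal.ofReal (Real.exp (N x)) < ⊤) (K : ℝ) :
    ∃ R0 : ℝ, 0 < R0 ∧ ∀ x, R0 ≤ ‖x‖ → N x ≤ -K := by
  have hLip : ∀ x y, N x - |L| * ‖x - y‖ ≤ N y := by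
    intro x y
    have h1 := (abs_le.1 (hL x y)).2
    have h2 : L * ‖x - y‖ ≤ |L| * ‖x - y‖ :=
      mul_le_mul_of_nonneg_right (le_abs_self L) (norm_nonneg _)
    linarith
  have hcont : Continuous N := by
    have h1 : LipschitzWith (Real.toNNReal |L|) N := LipschitzWith.of_dist_le_mul fun x y => by
      rw [Real.dist_eq, dist_eq_norm, Real.coe_toNNReal _ (abs_nonneg L)]
      exact (hL x y).trans (mul_le_mul_of_nonneg_right (le_abs_self L) (norm_nonneg _))
    exact h1.continuous
  have hfm : Measurable fun y => ENNReal.ofReal (Real.exp (N y)) :=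
    ENNReal.measurable_ofReal.comp (Real.measurable_exp.comp hcont.measurable)
  have hfinite : IsFiniteMeasure
      ((volume : Measure (V n)).withDensity fun y => ENNReal.ofReal (Real.exp (N y))) :=
    isFiniteMeasure_withDensity hfin.ne
  have hA : ∀ k : ℕ, MeasurableSet {y : V n | (k : ℝ) ≤ ‖y‖} := fun k =>
    (isClosed_le continuous_const continuous_norm).measurableSet
  have hanti : Antitone fun k : ℕ => {y : V n | (k : ℝ) ≤ ‖y‖} := by
    intro k l hkl y hy
    have h1 : (k : ℝ) ≤ l := Nat.cast_le.2 hkl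
    exact h1.trans hy
  have hempty : ⋂ k : ℕ, {y : V n | (k : ℝ) ≤ ‖y‖} = ∅ := by
    rw [Set.eq_empty_iff_forall_notMem]
    intro y hy
    obtain ⟨k, hk⟩ := exists_nat_gt ‖y‖
    have h1 : (k : ℝ) ≤ ‖y‖ := Set.mem_iInter.1 hy k
    linarith
  have htend := tendsto_measure_iInter_atTop
    (μ := (volume : Measure (V n)).withDensity fun y => ENNReal.ofReal (Real.exp (N y)))
    (fun k => (hA k).nullMeasurableSet) hanti ⟨0, measure_ne_top _ _⟩
  rw [hempty, measure_empty] at htend
  have hvol : 0 < (volume : Measure (V n)) (Metric.ball 0 1) :=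
    Metric.measure_ball_pos volume 0 one_pos
  have hc : 0 < ENNReal.ofReal (Real.exp (-K - |L|)) *
      (volume : Measure (V n)) (Metric.ball 0 1) :=
    ENNReal.mul_pos (ENNReal.ofReal_pos.2 (Real.exp_pos _)).ne' hvol.ne'
  obtain ⟨k, hk⟩ := ((tendsto_order.1 htend).2 _ hc).exists
  refine ⟨k + 1, by positivity, fun x hx => ?_⟩
  by_contra hN
  push Not at hN
  have hsub : Metric.ball x 1 ⊆ {y : V n | (k : ℝ) ≤ ‖y‖} := by
    intro y hy
    rw [Metric.mem_ball, dist_eq_norm] at hy
    have h1 : ‖x‖ ≤ ‖y‖ + ‖y - x‖ := by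
      have h2 := norm_sub_le y (y - x)
      rwa [sub_sub_cancel] at h2
    show (k : ℝ) ≤ ‖y‖
    linarith
  have h1 : ENNReal.ofReal (Real.exp (-K - |L|)) * (volume : Measure (V n)) (Metric.ball 0 1) ≤
      ((volume : Measure (V n)).withDensity fun y => ENNReal.ofReal (Real.exp (N y)))
        (Metric.ball x 1) := by
    rw [withDensity_apply _ measurableSet_ball, ← Measure.addHaar_ball_center volume x 1,
      ← setLIntegral_const]
    refine setLIntegral_mono hfm fun y hy => ?_
    rw [Metric.mem_ball, dist_comm, dist_eq_norm] at hy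
    refine ENNReal.ofReal_le_ofReal (Real.exp_le_exp.2 ?_)
    have h2 := hLip x y
    have h3 : |L| * ‖x - y‖ ≤ |L| * 1 := mul_le_mul_of_nonneg_left hy.le (abs_nonneg L)
    linarith
  have h2 := h1.trans (measure_mono hsub)
  exact absurd hk (not_lt.2 h2)

end Pool.Agent.LibRG65
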