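import Pool.Agent.LibRG65.R1

/-!
[RG65 R2] SHORT/MEDIUM. Exponential decay from concavity along the rays (helper65). Cites R1.

Plan. R1 with `K = |N 0| + 1`: `N x ≤ -|N 0| - 1` for `‖x‖ ≥ R0`.  For `‖y‖ ≥ R0` put `t = R0 / ‖y‖ ≤ 1`:
`t N y + (1 - t) N 0 ≤ N (t • y) ≤ -|N 0| - 1 ≤ N 0 - 1`, so `t (N y - N 0) ≤ -1`, `N y ≤ N 0 - ‖y‖ / R0`.
For `‖y‖ < R0`: `N y ≤ N 0 + |L| R0`.  Take `ε = 1 / R0`, `A = exp (N 0 + |L| R0 + 1)`.
-/

set_option autoImplicit false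

open MeasureTheory
open scoped InnerProductSpace ComplexOrder Matrix

namespace Pool.Agent.LibRG65

open Pool.Agent.LibTK94 Pool.Agent.LibHK65

theorem ray_decay {n : ℕ} {N : V n → ℝ} {L : ℝ} (hL : ∀ x y, |N x - N y| ≤ L * ‖x - y‖)
    (hfin : ∫⁻ x, ENNReal.ofReal (Real.exp (N x)) < ⊤)
    (hray : ∀ x, ∀ t : ℝ, 0 ≤ t → t ≤ 1 → t * N x + (1 - t) * N 0 ≤ N (t • x)) :
    ∃ A : ℝ, ∃ ε > (0 : ℝ), ∀ y, Real.exp (N y) ≤ A * Real.exp (-(ε * ‖y‖)) := by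
  obtain ⟨R0, hR0, hfar⟩ := far_small hL hfin (|N 0| + 1)
  refine ⟨Real.exp (N 0 + |L| * R0 + 1), 1 / R0, by positivity, fun y => ?_⟩
  rw [← Real.exp_add]
  apply Real.exp_le_exp.mpr
  have hLR : 0 ≤ |L| * R0 := mul_nonneg (abs_nonneg L) hR0.le
  by_cases hy : R0 ≤ ‖y‖
  · have hyp : 0 < ‖y‖ := lt_of_lt_of_le hR0 hy
    set t : ℝ := R0 / ‖y‖ with ht
    have ht0 : 0 < t := div_pos hR0 hyp
    have ht1 : t ≤ 1 := by
      rw [ht, div_le_one hyp]; exact hy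
    have h1 := hray y t ht0.le ht1
    have hnorm : ‖t • y‖ = R0 := by
      rw [norm_smul, Real.norm_of_nonneg ht0.le, ht, div_mul_cancel₀ _ hyp.ne']
    have h2 := hfar (t • y) (by rw [hnorm])
    have h3 : -|N 0| ≤ N 0 := neg_abs_le (N 0)
    have h4 : t * (N y - N 0) ≤ -1 := by nlinarith
    have h5 : N y - N 0 ≤ -(‖y‖ / R0) := by
      have h6 : ‖y‖ / R0 * (t * (N y - N 0)) ≤ ‖y‖ / R0 * (-1) :=
        mul_le_mul_of_nonneg_left h4 (by positivity)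
      have h7 : ‖y‖ / R0 * (t * (N y - N 0)) = N y - N 0 := by
        rw [ht]; field_simp
      rw [h7] at h6
      linarith
    have h8 : 1 / R0 * ‖y‖ = ‖y‖ / R0 := by ring
    rw [h8]
    linarith
  · have hy' : ‖y‖ < R0 := not_le.mp hy
    have h1 := hL y 0
    rw [sub_zero] at h1
    have h2 : N y - N 0 ≤ L * ‖y‖ := le_trans (le_abs_self _) h1
    have h3 : L * ‖y‖ ≤ |L| * R0 := by
      calc L * ‖y‖ ≤ |L| * ‖y‖ := mul_le_mul_of_nonneg_right (le_abs_self L) (norm_nonneg y)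
        _ ≤ |L| * R0 := mul_le_mul_of_nonneg_left hy'.le (abs_nonneg L)
    have h4 : 1 / R0 * ‖y‖ ≤ 1 := by
      rw [one_div_mul_eq_div, div_le_one hR0]; exact hy'.le
    linarith

end Pool.Agent.LibRG65
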