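import Pool.Agent.LibRG65.R0

/-!
[RG65 R3] MEDIUM. The weight `∏ (1 - exp (-2 |⟪γ_b, x⟫|))` does not matter for integrability (helper65). Cites R0 `pig`.

Plan. `pig` for `γ` with `s = 1`: `e`, `c`; for every `x` there is `i ≤ card β` with `|⟪γ b, x + i • e⟫| ≥ c` for all `b`, so the
product at `x + i e` is `≥ κ := (1 - exp (-2c))^card β > 0`, and `exp (N x) ≤ exp (|L| i ‖e‖) exp (N (x + i e))`.  So
`ofReal (exp (N x)) ≤ ∑ i in range (card β + 1), ofReal (C_i) * F (x + i e)`, `F` the integrand of `hfin`, `C_i = exp (|L| i ‖e‖) / κ`.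
Integrate: `lintegral_finset_sum` (measurability: `N` is continuous), `lintegral_const_mul'`, translation invariance
`lintegral_add_right_eq_self`.
-/

set_option autoImplicit false

open MeasureTheory
open scoped InnerProductSpace ComplexOrder Matrix

namespace Pool.Agent.LibRG65

open Pool.Agent.LibTK94 Pool.Agent.LibHK65

theorem int_compare {n : ℕ} {β : Type} [Fintype β] {N : V n → ℝ} {L : ℝ}
    (hL : ∀ x y, |N x - N y| ≤ L * ‖x - y‖) (γ : β → V n) (hγ : ∀ b, γ b ≠ 0)
    (hfin : ∫⁻ x, ENNReal.ofReal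
      (Real.exp (N x) * ∏ b, (1 - Real.exp (-(2 * |⟪γ b, x⟫_ℝ|)))) < ⊤) :
    ∫⁻ x, ENNReal.ofReal (Real.exp (N x)) < ⊤ := by
  obtain ⟨e, c, hc, hp⟩ := pig γ hγ
  have hNc : Continuous N := by
    have h : LipschitzWith (Real.toNNReal L) N := LipschitzWith.of_dist_le' fun x y => by
      rw [Real.dist_eq, dist_eq_norm]
      exact hL x y
    exact h.continuous
  have hκ0 : 0 < 1 - Real.exp (-(2 * c)) := by
    have : Real.exp (-(2 * c)) < 1 := by
      rw [Real.exp_lt_one_iff]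
      linarith
    linarith
  have hw0 : ∀ t : ℝ, 0 ≤ 1 - Real.exp (-(2 * |t|)) := by
    intro t
    have : Real.exp (-(2 * |t|)) ≤ 1 := by
      rw [Real.exp_le_one_iff]
      have := abs_nonneg t
      linarith
    linarith
  obtain ⟨κ, hκ⟩ : ∃ κ : ℝ, κ = (1 - Real.exp (-(2 * c))) ^ Fintype.card β := ⟨_, rfl⟩
  have hκpos : 0 < κ := by
    rw [hκ]
    exact pow_pos hκ0 _
  obtain ⟨F, hF⟩ : ∃ F : V n → ENNReal, F = fun x => ENNReal.ofReal
      (Real.exp (N x) * ∏ b, (1 - Real.exp (-(2 * |⟪γ b, x⟫_ℝ|)))) := ⟨_, rfl⟩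
  have hFm : Measurable F := by
    rw [hF]
    have : Continuous fun x : V n =>
        Real.exp (N x) * ∏ b, (1 - Real.exp (-(2 * |⟪γ b, x⟫_ℝ|))) := by
      refine (Real.continuous_exp.comp hNc).mul ?_
      refine continuous_finsetProd _ fun b _ => ?_
      refine continuous_const.sub (Real.continuous_exp.comp ?_)
      exact (continuous_const.mul ((continuous_const.inner continuous_id).abs)).neg
    exact (ENNReal.continuous_ofReal.comp this).measurable
  have hfin' : ∫⁻ x, F x < ⊤ := by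
    rw [hF]
    exact hfin
  have key : ∀ x, ENNReal.ofReal (Real.exp (N x)) ≤
      ∑ i ∈ Finset.range (Fintype.card β + 1),
        ENNReal.ofReal (Real.exp (|L| * ((i : ℝ) * ‖e‖)) / κ) * F (x + (i : ℝ) • e) := by
    intro x
    obtain ⟨i, hi, hb⟩ := hp x 1 one_pos
    simp only [mul_one] at hb
    have h1 : N x ≤ |L| * ((i : ℝ) * ‖e‖) + N (x + (i : ℝ) • e) := by
      have h2 := hL x (x + (i : ℝ) • e)
      have h3 : ‖x - (x + (i : ℝ) • e)‖ = (i : ℝ) * ‖e‖ := by
        rw [sub_add_cancel_left, norm_neg, norm_smul, Real.norm_eq_abs, Nat.abs_cast]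
      rw [h3] at h2
      have h4 : L * ((i : ℝ) * ‖e‖) ≤ |L| * ((i : ℝ) * ‖e‖) :=
        mul_le_mul_of_nonneg_right (le_abs_self L) (by positivity)
      have h5 := le_abs_self (N x - N (x + (i : ℝ) • e))
      linarith
    have h6 : κ ≤ ∏ b, (1 - Real.exp (-(2 * |⟪γ b, x + (i : ℝ) • e⟫_ℝ|))) := by
      rw [hκ]
      have h7 : (1 - Real.exp (-(2 * c))) ^ Fintype.card β =
          ∏ _b : β, (1 - Real.exp (-(2 * c))) := by
        rw [Finset.prod_const, Finset.card_univ]
      rw [h7]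
      refine Finset.prod_le_prod (fun b _ => hκ0.le) fun b _ => ?_
      have h8 := hb b
      have h9 : Real.exp (-(2 * |⟪γ b, x + (i : ℝ) • e⟫_ℝ|)) ≤ Real.exp (-(2 * c)) := by
        apply Real.exp_le_exp.2
        linarith
      linarith
    have h10 : Real.exp (N x) ≤ Real.exp (|L| * ((i : ℝ) * ‖e‖)) / κ *
        (Real.exp (N (x + (i : ℝ) • e)) *
          ∏ b, (1 - Real.exp (-(2 * |⟪γ b, x + (i : ℝ) • e⟫_ℝ|)))) := by
      have h11 : Real.exp (N x) ≤
          Real.exp (|L| * ((i : ℝ) * ‖e‖)) * Real.exp (N (x + (i : ℝ) • e)) := by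
        rw [← Real.exp_add]
        exact Real.exp_le_exp.2 h1
      have h12 : Real.exp (|L| * ((i : ℝ) * ‖e‖)) / κ *
          (Real.exp (N (x + (i : ℝ) • e)) *
            ∏ b, (1 - Real.exp (-(2 * |⟪γ b, x + (i : ℝ) • e⟫_ℝ|)))) =
          Real.exp (|L| * ((i : ℝ) * ‖e‖)) * Real.exp (N (x + (i : ℝ) • e)) *
          ((∏ b, (1 - Real.exp (-(2 * |⟪γ b, x + (i : ℝ) • e⟫_ℝ|)))) / κ) := by
        ring
      rw [h12]
      have h13 : 1 ≤ (∏ b, (1 - Real.exp (-(2 * |⟪γ b, x + (i : ℝ) • e⟫_ℝ|)))) / κ := by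
        rw [le_div_iff₀ hκpos, one_mul]
        exact h6
      have h14 : 0 ≤ Real.exp (|L| * ((i : ℝ) * ‖e‖)) * Real.exp (N (x + (i : ℝ) • e)) := by
        positivity
      calc Real.exp (N x) ≤ _ := h11
        _ = Real.exp (|L| * ((i : ℝ) * ‖e‖)) * Real.exp (N (x + (i : ℝ) • e)) * 1 := by
            rw [mul_one]
        _ ≤ _ := mul_le_mul_of_nonneg_left h13 h14
    have h15 : ENNReal.ofReal (Real.exp (N x)) ≤
        ENNReal.ofReal (Real.exp (|L| * ((i : ℝ) * ‖e‖)) / κ) * F (x + (i : ℝ) • e) := by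
      rw [hF]
      simp only []
      rw [← ENNReal.ofReal_mul (by positivity)]
      exact ENNReal.ofReal_le_ofReal h10
    refine h15.trans ?_
    exact Finset.single_le_sum
      (f := fun i : ℕ => ENNReal.ofReal (Real.exp (|L| * ((i : ℝ) * ‖e‖)) / κ) *
        F (x + (i : ℝ) • e)) (fun _ _ => zero_le) (Finset.mem_range.2 (Nat.lt_succ_of_le hi))
  refine (lintegral_mono key).trans_lt ?_
  rw [lintegral_finsetSum]
  · refine ENNReal.sum_lt_top.2 fun i _ => ?_
    rw [lintegral_const_mul' _ _ ENNReal.ofReal_ne_top,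
      lintegral_add_right_eq_self (fun x => F x) ((i : ℝ) • e)]
    exact ENNReal.mul_lt_top ENNReal.ofReal_lt_top hfin'
  · intro i _
    exact (hFm.comp (measurable_id.add_const _)).const_mul _

/-- `|1 - exp (-2t)| = exp (max 0 (-2t)) (1 - exp (-2|t|))` -/
theorem abs_one_sub_exp (t : ℝ) : |1 - Real.exp (-(2 * t))| =
    Real.exp (max 0 (-(2 * t))) * (1 - Real.exp (-(2 * |t|))) := by
  rcases le_total 0 t with h | h
  · have h1 : Real.exp (-(2 * t)) ≤ 1 := by
      rw [Real.exp_le_one_iff]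
      linarith
    rw [abs_of_nonneg h, max_eq_left (by linarith), Real.exp_zero, one_mul,
      abs_of_nonneg (by linarith)]
  · have h1 : 1 ≤ Real.exp (-(2 * t)) := by
      rw [Real.one_le_exp_iff]
      linarith
    rw [abs_of_nonpos h, max_eq_right (by linarith), abs_of_nonpos (by linarith), mul_sub, mul_one,
      ← Real.exp_add]
    have h2 : -(2 * t) + -(2 * -t) = 0 := by ring
    rw [h2, Real.exp_zero]
    ring

end Pool.Agent.LibRG65
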