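import Pool.Agent.LibRG65.R0
import Pool.Agent.LibTK94.Vol

/-!
[RG65 R4] MEDIUM. `W p = ∏ |⟪p, h_b⟫|` satisfies `LowB` (helper65). Cites R0 `pig`, LibTK94.Vol `interior_nonempty`.

Plan. As in the proof of `A3_sub` in LibHK65/A3.lean (private there, copy it; the hull is bounded, `D` a bound of the distances,
`ball q0 ρ ⊆ hull`, `ρ ≤ 1`): for `p` in the hull, `0 < r ≤ 1`, `s = r / (D + 2)`: `ball (q1) (s ρ) ⊆ interior hull ∩ ball p r` with
`q1 = (1-s) p + s q0`.  `pig` for `h` and `q1`, with `s' = s ρ / (2 (card β + 1) (‖e‖ + 1))`: `q = q1 + (i s') • e` is at distance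
`≤ s ρ / 2` from `q1` and `|⟪h b, q⟫| ≥ c s'` for all `b`.  Let `δ r` be smaller than `s ρ / 2` and than
`c s' / (2 (‖h b‖ + 1))` for all `b`, and than `c s' / 2` : then `ball q (δ r) ⊆ ball q1 (s ρ)` and for `y` in it
`|⟪y, h b⟫| ≥ c s' / 2 ≥ δ r` (`real_inner_comm`), so the product is `≥ (δ r)^card β` (`Finset.pow_card_le_prod` or
`Finset.prod_le_prod`).
-/

set_option autoImplicit false

open MeasureTheory
open scoped InnerProductSpace ComplexOrder Matrix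

namespace Pool.Agent.LibRG65

open Pool.Agent.LibTK94 Pool.Agent.LibHK65

private theorem r4_sub {n : ℕ} {S : Set (V n)} (hS : Convex ℝ S) {q0 : V n} {ρ : ℝ} (hρ1 : ρ ≤ 1)
    (hb : Metric.ball q0 ρ ⊆ S) {D : ℝ} (hD0 : 0 ≤ D)
    (hD : ∀ a ∈ S, ∀ b ∈ S, dist a b ≤ D) (hρ : 0 < ρ) {p : V n} (hp : p ∈ S) {r : ℝ} (hr : 0 < r)
    (hr1 : r ≤ 1) :
    Metric.ball ((1 - r / (D + 2)) • p + (r / (D + 2)) • q0) (r / (D + 2) * ρ) ⊆
      interior S ∩ Metric.ball p r ∧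
    ∀ y ∈ Metric.ball ((1 - r / (D + 2)) • p + (r / (D + 2)) • q0) (r / (D + 2) * ρ),
      ∃ q' ∈ Metric.ball q0 ρ, y = (1 - r / (D + 2)) • p + (r / (D + 2)) • q' := by
  set s : ℝ := r / (D + 2) with hs
  have hD2 : 0 < D + 2 := by linarith
  have hs0 : 0 < s := div_pos hr hD2
  have hs1 : s ≤ 1 := by
    rw [hs, div_le_one hD2]
    linarith
  have hsr : s * (D + 2) = r := div_mul_cancel₀ _ hD2.ne'
  have hq0 : q0 ∈ S := hb (Metric.mem_ball_self hρ)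
  have h0 : ∀ y ∈ Metric.ball ((1 - s) • p + s • q0) (s * ρ),
      ∃ q' ∈ Metric.ball q0 ρ, y = (1 - s) • p + s • q' := by
    intro y hy
    rw [Metric.mem_ball, dist_eq_norm] at hy
    refine ⟨q0 + s⁻¹ • (y - ((1 - s) • p + s • q0)), ?_, ?_⟩
    · rw [Metric.mem_ball, dist_eq_norm, add_sub_cancel_left, norm_smul, norm_inv,
        Real.norm_of_nonneg hs0.le, inv_mul_lt_iff₀ hs0]
      exact hy
    · rw [smul_add, smul_smul, mul_inv_cancel₀ hs0.ne', one_smul]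
      abel
  have h1 : Metric.ball ((1 - s) • p + s • q0) (s * ρ) ⊆ S := by
    intro y hy
    obtain ⟨q', hq', rfl⟩ := h0 y hy
    exact hS hp (hb hq') (by linarith : (0 : ℝ) ≤ 1 - s) hs0.le (by ring)
  refine ⟨Set.subset_inter (interior_maximal h1 Metric.isOpen_ball) ?_, h0⟩
  intro y hy
  rw [Metric.mem_ball, dist_eq_norm] at hy ⊢
  have h2 : y - p = (y - ((1 - s) • p + s • q0)) + s • (q0 - p) := by
    rw [sub_smul, one_smul, smul_sub]
    abel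
  have h3 : ‖q0 - p‖ ≤ D := by
    rw [← dist_eq_norm]
    exact hD q0 hq0 p hp
  rw [h2]
  calc ‖y - ((1 - s) • p + s • q0) + s • (q0 - p)‖
      ≤ ‖y - ((1 - s) • p + s • q0)‖ + ‖s • (q0 - p)‖ := norm_add_le _ _
    _ < s * ρ + s * D := by
        rw [norm_smul, Real.norm_of_nonneg hs0.le]
        exact add_lt_add_of_lt_of_le hy (mul_le_mul_of_nonneg_left h3 hs0.le)
    _ ≤ r := by nlinarith

theorem lowB_prod {n : ℕ} {β : Type} [Fintype β] {M : Finset (V n)} (hM : M.Nonempty)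
    (hS : Spans M) (h : β → V n) (hh : ∀ b, h b ≠ 0) :
    LowB M (fun p => ∏ b, |⟪p, h b⟫_ℝ|) (Fintype.card β) := by
  obtain ⟨e, c, hc, hpig⟩ := pig h hh
  obtain ⟨q0, hq0⟩ := interior_nonempty hM hS
  obtain ⟨ρ0, hρ0, hball⟩ := Metric.isOpen_iff.1 isOpen_interior q0 hq0
  have hbd : Bornology.IsBounded (convexHull ℝ (M : Set (V n))) :=
    (Set.Finite.isCompact_convexHull (𝕜 := ℝ) M.finite_toSet).isBounded
  obtain ⟨D0, hD0⟩ := Metric.isBounded_iff.1 hbd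
  obtain ⟨D, hDdef⟩ : ∃ D : ℝ, D = max D0 0 := ⟨_, rfl⟩
  obtain ⟨ρ, hρdef⟩ : ∃ ρ : ℝ, ρ = min ρ0 1 := ⟨_, rfl⟩
  have hρ : 0 < ρ := by
    rw [hρdef]
    exact lt_min hρ0 one_pos
  have hρ1 : ρ ≤ 1 := by
    rw [hρdef]
    exact min_le_right _ _
  have hρρ : ρ ≤ ρ0 := by
    rw [hρdef]
    exact min_le_left _ _
  have hD : ∀ a ∈ convexHull ℝ (M : Set (V n)), ∀ b ∈ convexHull ℝ (M : Set (V n)),
      dist a b ≤ D := by
    intro a ha b hb
    rw [hDdef]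
    exact (hD0 ha hb).trans (le_max_left _ _)
  have hDn : 0 ≤ D := by
    rw [hDdef]
    exact le_max_right _ _
  have hD2 : 0 < D + 2 := by linarith
  have hb : Metric.ball q0 ρ ⊆ convexHull ℝ (M : Set (V n)) :=
    (Metric.ball_subset_ball hρρ).trans (hball.trans interior_subset)
  set N : ℕ := Fintype.card β with hN
  obtain ⟨κ, hκ⟩ : ∃ κ : ℝ, κ = ρ / (2 * ((N : ℝ) + 1) * (‖e‖ + 1) * (D + 2)) := ⟨_, rfl⟩
  have he0 : 0 ≤ ‖e‖ := norm_nonneg e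
  have hκ0 : 0 < κ := by
    rw [hκ]
    positivity
  obtain ⟨H, hH0, hHb⟩ : ∃ H : ℝ, 0 ≤ H ∧ ∀ b, ‖h b‖ ≤ H :=
    ⟨∑ b, ‖h b‖, Finset.sum_nonneg fun b _ => norm_nonneg _, fun b =>
      Finset.single_le_sum (f := fun b => ‖h b‖) (fun b _ => norm_nonneg _) (Finset.mem_univ b)⟩
  have hH2 : 0 < 2 * (H + 1) := by linarith
  obtain ⟨δ, hδ⟩ : ∃ δ : ℝ, δ = min (ρ / (2 * (D + 2))) (c * κ / (2 * (H + 1))) := ⟨_, rfl⟩
  have hδ0 : 0 < δ := by
    rw [hδ]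
    exact lt_min (by positivity) (by positivity)
  have hδ1 : δ ≤ ρ / (2 * (D + 2)) := by
    rw [hδ]
    exact min_le_left _ _
  have hδ2 : δ ≤ c * κ / (2 * (H + 1)) := by
    rw [hδ]
    exact min_le_right _ _
  have hδ3 : δ * (2 * (H + 1)) ≤ c * κ := (le_div_iff₀ hH2).1 hδ2
  refine ⟨δ, hδ0, ?_⟩
  intro p hp r hr hr1
  obtain ⟨hin, -⟩ :=
    r4_sub (convex_convexHull ℝ _) hρ1 hb hDn hD hρ hp hr hr1
  obtain ⟨s, hsdef⟩ : ∃ s : ℝ, s = r / (D + 2) := ⟨_, rfl⟩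
  rw [← hsdef] at hin
  have hs0 : 0 < s := by
    rw [hsdef]
    exact div_pos hr hD2
  obtain ⟨q1, hq1⟩ : ∃ q1 : V n, q1 = (1 - s) • p + s • q0 := ⟨_, rfl⟩
  rw [← hq1] at hin
  obtain ⟨i, hi, hib⟩ := hpig q1 (κ * r) (by positivity)
  have hiN : (i : ℝ) ≤ N := by exact_mod_cast hi
  have hi0 : (0 : ℝ) ≤ i := Nat.cast_nonneg i
  have hsρ : (N + 1 : ℝ) * (κ * r) * (‖e‖ + 1) = s * ρ / 2 := by
    rw [hκ, hsdef]
    have h1 : ((N : ℝ) + 1) ≠ 0 := by positivity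
    have h2 : ‖e‖ + 1 ≠ 0 := by positivity
    field_simp
  have hdist : dist (q1 + ((i : ℝ) * (κ * r)) • e) q1 ≤ s * ρ / 2 := by
    rw [dist_eq_norm, add_sub_cancel_left, norm_smul, Real.norm_of_nonneg (by positivity), ← hsρ]
    have h1 : (i : ℝ) * (κ * r) ≤ (N + 1) * (κ * r) :=
      mul_le_mul_of_nonneg_right (by linarith) (by positivity)
    exact mul_le_mul h1 (by linarith) he0 (by positivity)
  have hδr : δ * r ≤ s * ρ / 2 := by
    have h1 : δ * r ≤ ρ / (2 * (D + 2)) * r := mul_le_mul_of_nonneg_right hδ1 hr.le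
    have h2 : ρ / (2 * (D + 2)) * r = s * ρ / 2 := by
      rw [hsdef]
      field_simp
    linarith
  refine ⟨q1 + ((i : ℝ) * (κ * r)) • e, ?_, ?_⟩
  · refine Set.Subset.trans (fun y hy => ?_) hin
    rw [Metric.mem_ball] at hy ⊢
    calc dist y q1 ≤ dist y (q1 + ((i : ℝ) * (κ * r)) • e) +
          dist (q1 + ((i : ℝ) * (κ * r)) • e) q1 := dist_triangle _ _ _
      _ < δ * r + s * ρ / 2 := add_lt_add_of_lt_of_le hy hdist
      _ ≤ s * ρ := by linarith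
  · intro y hy
    rw [Metric.mem_ball, dist_eq_norm] at hy
    have hyb : ∀ b, δ * r ≤ |⟪y, h b⟫_ℝ| := by
      intro b
      have h1 := hib b
      rw [real_inner_comm] at h1
      have h2 : ⟪y, h b⟫_ℝ = ⟪q1 + ((i : ℝ) * (κ * r)) • e, h b⟫_ℝ +
          ⟪y - (q1 + ((i : ℝ) * (κ * r)) • e), h b⟫_ℝ := by
        rw [← inner_add_left]
        congr 1
        abel
      have h3 : |⟪y - (q1 + ((i : ℝ) * (κ * r)) • e), h b⟫_ℝ| ≤ δ * r * H :=
        (abs_real_inner_le_norm _ _).trans (mul_le_mul hy.le (hHb b) (norm_nonneg _) (by positivity))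
      have h4 : c * (κ * r) ≤ |⟪y, h b⟫_ℝ| + δ * r * H := by
        have h5 : |⟪q1 + ((i : ℝ) * (κ * r)) • e, h b⟫_ℝ| ≤
            |⟪y, h b⟫_ℝ| + |⟪y - (q1 + ((i : ℝ) * (κ * r)) • e), h b⟫_ℝ| := by
          have h6 : ⟪q1 + ((i : ℝ) * (κ * r)) • e, h b⟫_ℝ =
              ⟪y, h b⟫_ℝ - ⟪y - (q1 + ((i : ℝ) * (κ * r)) • e), h b⟫_ℝ := by
            rw [h2]
            ring
          rw [h6]
          exact abs_sub _ _
        linarith
      have h7 : δ * r * (2 * (H + 1)) ≤ c * (κ * r) := by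
        have := mul_le_mul_of_nonneg_right hδ3 hr.le
        nlinarith
      have h8 : 0 ≤ δ * r * H := by positivity
      nlinarith
    calc (δ * r) ^ Fintype.card β = ∏ _b : β, (δ * r) := by
          rw [Finset.prod_const, Finset.card_univ]
      _ ≤ ∏ b, |⟪y, h b⟫_ℝ| :=
          Finset.prod_le_prod (fun _ _ => by positivity) (fun b _ => hyb b)

end Pool.Agent.LibRG65
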