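import Pool.Agent.LibRG65.Defs
import Pool.Agent.LibHK65.A3

/-!
[RG65 R5] SHORT/MEDIUM. `Tail` from an exponentially small weighted mass (helper65). Same proof as
`tail_of_wmass` in LibHK65/A3.lean, with `LowB` instead of `Low` (no convexity needed: the ball is given).  `A3_det`, `A3_abs` are
private there, copy them.

Plan. `δ` from `LowB`; `κ = δ^(n+d) * (volume (ball 0 1)).toReal`.  For `p`, `r`, `R`: `B = ball q (δ r)`;
`(δ r)^d * volume B ≤ ∫⁻ B W ≤ ∫⁻ G '' {R ≤ ‖y‖} W = ∫⁻ {R ≤ ‖y‖} det H * W (G y) ≤ ofReal (C exp (-ε R))`, where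
`B ⊆ interior hull ∩ ball p r ⊆ G '' {R ≤ ‖y‖}` by `surj_of_interior` and `hfar`.
-/

set_option autoImplicit false

open MeasureTheory
open scoped InnerProductSpace ComplexOrder Matrix

namespace Pool.Agent.LibRG65

open Pool.Agent.LibTK94 Pool.Agent.LibHK65

private theorem r5_det {n : ℕ} (A : Matrix (Fin n) (Fin n) ℝ) :
    (LinearMap.toContinuousLinearMap (Matrix.toEuclideanLin A)).det = A.det := by
  show LinearMap.det (Matrix.toEuclideanLin A) = A.det
  rw [Matrix.toEuclideanLin_eq_toLin_orthonormal, LinearMap.det_toLin]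

private theorem r5_abs {n : ℕ} {A : Matrix (Fin n) (Fin n) ℝ} (hA : A.PosDef) :
    ENNReal.ofReal |(LinearMap.toContinuousLinearMap (Matrix.toEuclideanLin A)).det|
      = ENNReal.ofReal A.det := by
  rw [r5_det, abs_of_pos hA.det_pos]

theorem tail_of_wmassB {n d : ℕ} {M : Finset (V n)} (hM : M.Nonempty) {u : V n → ℝ}
    {G : V n → V n} {H : V n → Matrix (Fin n) (Fin n) ℝ} (hR : Reg u G H) {C0 : ℝ}
    (hB : ∀ x, |u x - lse M x| ≤ C0) {W : V n → ℝ} (hW : LowB M W d) {C ε : ℝ} (hε : 0 < ε)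
    (hmass : ∀ R : ℝ, 0 ≤ R →
      ∫⁻ y in {y : V n | R ≤ ‖y‖}, ENNReal.ofReal ((H y).det * W (G y)) ≤
        ENNReal.ofReal (C * Real.exp (-(ε * R)))) : Tail M G (n + d) := by
  obtain ⟨δ, hδ, hlow⟩ := hW
  have hv0 : volume (Metric.ball (0 : V n) 1) ≠ 0 := (Metric.measure_ball_pos _ _ one_pos).ne'
  have hvt : volume (Metric.ball (0 : V n) 1) ≠ ⊤ := measure_ball_lt_top.ne
  obtain ⟨κ, hκdef⟩ : ∃ κ : ℝ, κ = δ ^ (n + d) * (volume (Metric.ball (0 : V n) 1)).toReal := ⟨_, rfl⟩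
  have hκ : 0 < κ := by
    rw [hκdef]
    exact mul_pos (pow_pos hδ _) (ENNReal.toReal_pos hv0 hvt)
  refine ⟨|C| / κ + 1, by positivity, ε, hε, ?_⟩
  intro p hp r hr hr1 R hR0 hfar
  have hB' : ∀ x, lse M x - C0 ≤ u x := by
    intro x
    have := (abs_le.1 (hB x)).1
    linarith
  have hms : MeasurableSet {y : V n | R ≤ ‖y‖} :=
    (isClosed_le continuous_const continuous_norm).measurableSet
  have hsub : interior (convexHull ℝ (M : Set (V n))) ∩ Metric.ball p r
      ⊆ G '' {y : V n | R ≤ ‖y‖} := by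
    rintro q ⟨hq1, hq2⟩
    obtain ⟨y, hy⟩ := surj_of_interior hM hR.grad hB' hq1
    refine ⟨y, ?_, hy⟩
    refine hfar y ?_
    rw [hy]
    exact hq2
  obtain ⟨q, hin, hpt⟩ := hlow p hp r hr hr1
  have hδr : 0 < δ * r := mul_pos hδ hr
  have hWB : ∀ y ∈ Metric.ball q (δ * r), ENNReal.ofReal ((δ * r) ^ d) ≤ ENNReal.ofReal (W y) :=
    fun y hy => ENNReal.ofReal_le_ofReal (hpt y hy)
  have himg : ∫⁻ q in G '' {y : V n | R ≤ ‖y‖}, ENNReal.ofReal (W q) =
      ∫⁻ y in {y : V n | R ≤ ‖y‖}, ENNReal.ofReal ((H y).det * W (G y)) := by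
    rw [lintegral_image_eq_lintegral_abs_det_fderiv_mul volume hms
      (fun x _ => (hR.hess x).hasFDerivWithinAt) ((inj_of_reg hR).injOn)]
    refine lintegral_congr fun y => ?_
    rw [r5_abs (hR.pos y), ENNReal.ofReal_mul (hR.pos y).det_pos.le]
  have hvol : volume (Metric.ball q (δ * r)) =
      ENNReal.ofReal ((δ * r) ^ n) * volume (Metric.ball (0 : V n) 1) := by
    rw [Measure.addHaar_ball_of_pos _ _ hδr, finrank_euclideanSpace_fin]
  have h1 : ENNReal.ofReal (κ * r ^ (n + d)) ≤ ENNReal.ofReal (C * Real.exp (-(ε * R))) :=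
    calc ENNReal.ofReal (κ * r ^ (n + d))
        = ENNReal.ofReal ((δ * r) ^ d) * volume (Metric.ball q (δ * r)) := by
          rw [hvol]
          have h3 : κ * r ^ (n + d) = (δ * r) ^ d *
              ((δ * r) ^ n * (volume (Metric.ball (0 : V n) 1)).toReal) := by
            rw [hκdef, pow_add, pow_add, mul_pow, mul_pow]
            ring
          rw [h3, ENNReal.ofReal_mul (by positivity), ENNReal.ofReal_mul (by positivity),
            ENNReal.ofReal_toReal hvt]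
      _ = ∫⁻ _ in Metric.ball q (δ * r), ENNReal.ofReal ((δ * r) ^ d) := by rw [setLIntegral_const]
      _ ≤ ∫⁻ q in Metric.ball q (δ * r), ENNReal.ofReal (W q) :=
          setLIntegral_mono' Metric.isOpen_ball.measurableSet hWB
      _ ≤ ∫⁻ q in G '' {y : V n | R ≤ ‖y‖}, ENNReal.ofReal (W q) :=
          lintegral_mono_set (hin.trans hsub)
      _ = ∫⁻ y in {y : V n | R ≤ ‖y‖}, ENNReal.ofReal ((H y).det * W (G y)) := himg
      _ ≤ _ := hmass R hR0
  have hpos : 0 < κ * r ^ (n + d) := by positivity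
  have h2 : κ * r ^ (n + d) ≤ C * Real.exp (-(ε * R)) := by
    rcases (ENNReal.ofReal_le_ofReal_iff').1 h1 with h | h
    · exact h
    · linarith
  have he : 0 < Real.exp (-(ε * R)) := Real.exp_pos _
  have h3 : κ * r ^ (n + d) ≤ |C| * Real.exp (-(ε * R)) :=
    h2.trans (mul_le_mul_of_nonneg_right (le_abs_self C) he.le)
  have h4 : r ^ (n + d) ≤ |C| / κ * Real.exp (-(ε * R)) := by
    rw [div_mul_eq_mul_div, le_div_iff₀ hκ]
    linarith
  calc r ^ (n + d) ≤ |C| / κ * Real.exp (-(ε * R)) := h4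
    _ ≤ (|C| / κ + 1) * Real.exp (-(ε * R)) := by
      apply mul_le_mul_of_nonneg_right _ he.le
      linarith

end Pool.Agent.LibRG65
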