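import Pool.Agent.LibRG65.R2
import Pool.Agent.LibRG65.R3

/-!
[RG65 R6] MEDIUM. Exponential decay of the weight (helper65). Cites R1 `far_small`, R2 `ray_decay`, R3.

`N x = -(lam u x) + ⟪b0, x⟫ + a + ∑ b, max 0 (-(2 ⟪γ b, x⟫))`.
Plan. `N` is Lipschitz (`hu`, Cauchy-Schwarz, `abs_max_sub_max_le_abs`).  `hfin` and R3 `abs_one_sub_exp`
(`∏ |1 - exp| = exp (∑ max ..) * ∏ (1 - exp (-2|..|))`, `Real.exp_sum`) give the hypothesis of `int_compare`, so `exp N` is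
integrable.  `0 ≤ lam`: concavity along rays: `u (t x) ≤ t u x + (1-t) u 0` (`hc`), the other terms are linear along the ray
(`max 0 (t s) = t max 0 s`); R2.  `lam < 0`: R1 gives `R0` with `N ≤ -K` for `‖x‖ ≥ R0`, take `x` with `‖x‖ = R0` (`n ≠ 0`):
`N x + N (-x) ≥ |lam| (u x + u (-x)) + 2 a ≥ 2 |lam| u 0 + 2 a` (`hc` with `t = 1/2`), a contradiction for
`K > |lam| |u 0| + |a|`.
-/

set_option autoImplicit false

open MeasureTheory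
open scoped InnerProductSpace ComplexOrder Matrix

namespace Pool.Agent.LibRG65

open Pool.Agent.LibTK94 Pool.Agent.LibHK65

private theorem r6_prod {n : ℕ} {β : Type} [Fintype β] (γ : β → V n) (x : V n) :
    ∏ b, |1 - Real.exp (-(2 * ⟪γ b, x⟫_ℝ))| =
      Real.exp (∑ b, max 0 (-(2 * ⟪γ b, x⟫_ℝ))) * ∏ b, (1 - Real.exp (-(2 * |⟪γ b, x⟫_ℝ|))) := by
  rw [Real.exp_sum, ← Finset.prod_mul_distrib]
  exact Finset.prod_congr rfl fun b _ => abs_one_sub_exp _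

private theorem r6_prod_le {n : ℕ} {β : Type} [Fintype β] (γ : β → V n) (x : V n) :
    ∏ b, (1 - Real.exp (-(2 * |⟪γ b, x⟫_ℝ|))) ≤ 1 := by
  refine Finset.prod_le_one (fun b _ => ?_) fun b _ => ?_
  · have h1 : Real.exp (-(2 * |⟪γ b, x⟫_ℝ|)) ≤ 1 := by
      rw [Real.exp_le_one_iff]
      have := abs_nonneg ⟪γ b, x⟫_ℝ
      linarith
    linarith
  · have := Real.exp_pos (-(2 * |⟪γ b, x⟫_ℝ|))
    linarith

private theorem r6_max (t s : ℝ) (ht : 0 ≤ t) : max 0 (-(2 * (t * s))) = t * max 0 (-(2 * s)) := by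
  have h1 : -(2 * (t * s)) = t * (-(2 * s)) := by ring
  rw [h1, mul_max_of_nonneg _ _ ht, mul_zero]

private theorem r6_lip {n : ℕ} {β : Type} [Fintype β] {u : V n → ℝ} {L : ℝ}
    (hu : ∀ x y, |u x - u y| ≤ L * ‖x - y‖) (γ : β → V n) (lam a : ℝ) (b0 : V n) (x y : V n) :
    |(-(lam * u x) + ⟪b0, x⟫_ℝ + a + ∑ b, max 0 (-(2 * ⟪γ b, x⟫_ℝ))) -
      (-(lam * u y) + ⟪b0, y⟫_ℝ + a + ∑ b, max 0 (-(2 * ⟪γ b, y⟫_ℝ)))| ≤
      (|lam| * L + ‖b0‖ + ∑ b, 2 * ‖γ b‖) * ‖x - y‖ := by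
  have h1 : |lam * (u x - u y)| ≤ |lam| * L * ‖x - y‖ := by
    rw [abs_mul, mul_assoc]
    exact mul_le_mul_of_nonneg_left (hu x y) (abs_nonneg _)
  have h2 : |⟪b0, x⟫_ℝ - ⟪b0, y⟫_ℝ| ≤ ‖b0‖ * ‖x - y‖ := by
    rw [← inner_sub_right]
    exact abs_real_inner_le_norm _ _
  have h3 : |∑ b, max 0 (-(2 * ⟪γ b, x⟫_ℝ)) - ∑ b, max 0 (-(2 * ⟪γ b, y⟫_ℝ))| ≤
      (∑ b, 2 * ‖γ b‖) * ‖x - y‖ := by
    rw [← Finset.sum_sub_distrib, Finset.sum_mul]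
    refine (Finset.abs_sum_le_sum_abs _ _).trans (Finset.sum_le_sum fun b _ => ?_)
    have h4 : |⟪γ b, x⟫_ℝ - ⟪γ b, y⟫_ℝ| ≤ ‖γ b‖ * ‖x - y‖ := by
      rw [← inner_sub_right]
      exact abs_real_inner_le_norm _ _
    have h5 : |max 0 (-(2 * ⟪γ b, x⟫_ℝ)) - max 0 (-(2 * ⟪γ b, y⟫_ℝ))| ≤
        max |(0 : ℝ) - 0| |(-(2 * ⟪γ b, x⟫_ℝ)) - (-(2 * ⟪γ b, y⟫_ℝ))| :=
      abs_max_sub_max_le_max _ _ _ _
    refine h5.trans (max_le ?_ ?_)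
    · rw [sub_zero, abs_zero]
      positivity
    · have h6 : (-(2 * ⟪γ b, x⟫_ℝ)) - (-(2 * ⟪γ b, y⟫_ℝ)) = -(2 * (⟪γ b, x⟫_ℝ - ⟪γ b, y⟫_ℝ)) := by ring
      rw [h6, abs_neg, abs_mul, abs_of_pos (by norm_num : (0 : ℝ) < 2), mul_assoc]
      exact mul_le_mul_of_nonneg_left h4 (by norm_num)
  have h7 : (-(lam * u x) + ⟪b0, x⟫_ℝ + a + ∑ b, max 0 (-(2 * ⟪γ b, x⟫_ℝ))) -
      (-(lam * u y) + ⟪b0, y⟫_ℝ + a + ∑ b, max 0 (-(2 * ⟪γ b, y⟫_ℝ))) =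
      -(lam * (u x - u y)) + (⟪b0, x⟫_ℝ - ⟪b0, y⟫_ℝ) +
        (∑ b, max 0 (-(2 * ⟪γ b, x⟫_ℝ)) - ∑ b, max 0 (-(2 * ⟪γ b, y⟫_ℝ))) := by ring
  rw [h7]
  refine (abs_add_le _ _).trans ?_
  have h8 := abs_add_le (-(lam * (u x - u y))) (⟪b0, x⟫_ℝ - ⟪b0, y⟫_ℝ)
  rw [abs_neg] at h8
  have h9 : (|lam| * L + ‖b0‖ + ∑ b, 2 * ‖γ b‖) * ‖x - y‖ =
      |lam| * L * ‖x - y‖ + ‖b0‖ * ‖x - y‖ + (∑ b, 2 * ‖γ b‖) * ‖x - y‖ := by ring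
  rw [h9]
  linarith

theorem exp_decay {n : ℕ} (hn : n ≠ 0) {β : Type} [Fintype β] {u : V n → ℝ} {L : ℝ}
    (hu : ∀ x y, |u x - u y| ≤ L * ‖x - y‖)
    (hc : ∀ x y, ∀ t : ℝ, 0 ≤ t → t ≤ 1 → u (t • x + (1 - t) • y) ≤ t * u x + (1 - t) * u y)
    (γ : β → V n) (hγ : ∀ b, γ b ≠ 0) {lam a : ℝ} {b0 : V n}
    (hfin : ∫⁻ x, ENNReal.ofReal (Real.exp (-(lam * u x) + ⟪b0, x⟫_ℝ + a) *
      ∏ b, |1 - Real.exp (-(2 * ⟪γ b, x⟫_ℝ))|) < ⊤) :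
    ∃ A : ℝ, ∃ ε > (0 : ℝ), ∀ y, Real.exp (-(lam * u y) + ⟪b0, y⟫_ℝ + a) *
      ∏ b, |1 - Real.exp (-(2 * ⟪γ b, y⟫_ℝ))| ≤ A * Real.exp (-(ε * ‖y‖)) := by
  obtain ⟨N, hN⟩ : ∃ N : V n → ℝ, N = fun x => -(lam * u x) + ⟪b0, x⟫_ℝ + a +
      ∑ b, max 0 (-(2 * ⟪γ b, x⟫_ℝ)) := ⟨_, rfl⟩
  have hNx : ∀ x, N x = -(lam * u x) + ⟪b0, x⟫_ℝ + a + ∑ b, max 0 (-(2 * ⟪γ b, x⟫_ℝ)) := fun x => by
    rw [hN]
  have hid : ∀ x, Real.exp (-(lam * u x) + ⟪b0, x⟫_ℝ + a) *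
      ∏ b, |1 - Real.exp (-(2 * ⟪γ b, x⟫_ℝ))| =
      Real.exp (N x) * ∏ b, (1 - Real.exp (-(2 * |⟪γ b, x⟫_ℝ|))) := by
    intro x
    rw [r6_prod, hNx, Real.exp_add _ (∑ b, max 0 (-(2 * ⟪γ b, x⟫_ℝ))), mul_assoc]
  have hlip : ∀ x y, |N x - N y| ≤ (|lam| * L + ‖b0‖ + ∑ b, 2 * ‖γ b‖) * ‖x - y‖ := by
    intro x y
    rw [hNx, hNx]
    exact r6_lip hu γ lam a b0 x y
  have hfin1 : ∫⁻ x, ENNReal.ofReal (Real.exp (N x)) < ⊤ := by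
    refine int_compare hlip γ hγ ?_
    refine lt_of_le_of_lt (le_of_eq ?_) hfin
    refine lintegral_congr fun x => ?_
    rw [hid x]
  by_cases hlam : 0 ≤ lam
  · have hray : ∀ x, ∀ t : ℝ, 0 ≤ t → t ≤ 1 → t * N x + (1 - t) * N 0 ≤ N (t • x) := by
      intro x t ht ht1
      have h1 : u (t • x) ≤ t * u x + (1 - t) * u 0 := by
        have h := hc x 0 t ht ht1
        rwa [smul_zero, add_zero] at h
      have h2 := mul_le_mul_of_nonneg_left h1 hlam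
      have h3 : ∑ b, max 0 (-(2 * ⟪γ b, t • x⟫_ℝ)) = t * ∑ b, max 0 (-(2 * ⟪γ b, x⟫_ℝ)) := by
        rw [Finset.mul_sum]
        refine Finset.sum_congr rfl fun b _ => ?_
        rw [real_inner_smul_right, r6_max _ _ ht]
      have h4 : ∑ b, max 0 (-(2 * ⟪γ b, (0 : V n)⟫_ℝ)) = 0 := by
        refine Finset.sum_eq_zero fun b _ => ?_
        rw [inner_zero_right, mul_zero, neg_zero, max_self]
      rw [hNx, hNx, hNx, h3, h4, real_inner_smul_right, inner_zero_right]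
      linarith
    obtain ⟨A, ε, hε, h⟩ := ray_decay hlip hfin1 hray
    refine ⟨A, ε, hε, fun y => ?_⟩
    rw [hid y]
    exact (mul_le_of_le_one_right (Real.exp_pos _).le (r6_prod_le γ y)).trans (h y)
  · exfalso
    have hlam' : 0 < -lam := by
      have := not_le.mp hlam
      linarith
    obtain ⟨R0, hR0, hfar⟩ := far_small hlip hfin1 ((-lam) * |u 0| + |a| + 1)
    obtain ⟨x, hx⟩ : ∃ x : V n, ‖x‖ = R0 := by
      refine ⟨EuclideanSpace.single (⟨0, Nat.pos_of_ne_zero hn⟩ : Fin n) R0, ?_⟩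
      rw [EuclideanSpace.norm_single, Real.norm_of_nonneg hR0.le]
    have h1 := hfar x hx.ge
    have h2 := hfar (-x) (by rw [norm_neg, hx])
    have h3 : u 0 ≤ 1 / 2 * u x + 1 / 2 * u (-x) := by
      have h := hc x (-x) (1 / 2) (by norm_num) (by norm_num)
      have e1 : (1 / 2 : ℝ) • x + (1 - 1 / 2 : ℝ) • (-x) = 0 := by
        have e2 : (1 - 1 / 2 : ℝ) = 1 / 2 := by norm_num
        rw [e2, smul_neg, add_neg_cancel]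
      rw [e1] at h
      have e3 : (1 - 1 / 2 : ℝ) = 1 / 2 := by norm_num
      rw [e3] at h
      exact h
    have h4 := mul_le_mul_of_nonneg_left h3 hlam'.le
    have h5 : ∀ y : V n, 0 ≤ ∑ b, max 0 (-(2 * ⟪γ b, y⟫_ℝ)) := fun y =>
      Finset.sum_nonneg fun b _ => le_max_left _ _
    have h6 := h5 x
    have h7 := h5 (-x)
    rw [hNx] at h1 h2
    rw [inner_neg_right] at h2
    have h8 : -lam * (-|u 0|) ≤ -lam * u 0 := mul_le_mul_of_nonneg_left (neg_abs_le _) hlam'.le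
    have h9 := neg_abs_le a
    linarith

end Pool.Agent.LibRG65
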