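import Pool.Agent.LibRG65.R4
import Pool.Agent.LibRG65.R5
import Pool.Agent.LibRG65.R6
import Pool.Agent.LibHK65.A4

/-!
[RG65 R7] MEDIUM. The real theorem (helper65). Cites R4, R5, R6, LibTK94 (`hull_of_sub`, `sub_of_reg`, `total_mass`,
`mass_of_decay`, `real_holder`).  Compare `holder_of_weighted` in LibHK65/A4.lean.

Plan. (1) The set `{x | ∀ b, ⟪γ b, x⟫ ≠ 0}` is dense (from `exists_generic`/`pig` R0: at every `x`, small `s`, `x + (i s) e`; or
complement of finitely many closed sets with empty interior), both sides of `hE` are continuous in `x`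
(`hHc`; `G` is continuous by `hR.hess`; `u` by `hR.grad`), so `hE` holds for all `x` (`Continuous.ext_on`).
(2) `W p = ∏ |⟪p, h b⟫|` is continuous, so `≤ B` on the compact hull; `∫⁻ ofReal (det H * W (G x)) < ⊤` as in A4.
(3) `u` is Lipschitz: `|u x - u y| ≤ L ‖x - y‖`, `L` a bound of `‖G‖` (hull bounded; from `sub_of_reg` in both directions);
convex: `sub_of_reg` at the point `t x + (1-t) y`.  R6 gives the decay of `D x = det H * W (G x)`.
(4) `mass_of_decay`, R4 `lowB_prod`, R5 `tail_of_wmassB` (`d = card β`), `real_holder` with `k = n + card β`.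
-/

set_option autoImplicit false

open MeasureTheory
open scoped InnerProductSpace ComplexOrder Matrix

namespace Pool.Agent.LibRG65

open Pool.Agent.LibTK94 Pool.Agent.LibHK65

/-- The set of points off finitely many hyperplanes is dense. -/
private theorem r7_dense {n : ℕ} {β : Type} [Fintype β] (γ : β → V n) (hγ : ∀ b, γ b ≠ 0) :
    Dense {x : V n | ∀ b, ⟪γ b, x⟫_ℝ ≠ 0} := by
  obtain ⟨e, he⟩ := exists_generic γ hγ
  rw [Metric.dense_iff]
  intro x r hr
  have hfin : (⋃ b : β, ({-⟪γ b, x⟫_ℝ / ⟪γ b, e⟫_ℝ} : Set ℝ)).Finite :=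
    Set.finite_iUnion fun b => Set.finite_singleton _
  have hpos : 0 < r / (‖e‖ + 1) := by positivity
  obtain ⟨t, ht, htn⟩ := (Set.Ioo_infinite hpos).exists_notMem_finite hfin
  refine ⟨x + t • e, ?_, fun b hb => htn ?_⟩
  · rw [Metric.mem_ball, dist_eq_norm, add_sub_cancel_left, norm_smul, Real.norm_eq_abs,
      abs_of_pos ht.1]
    calc t * ‖e‖ ≤ t * (‖e‖ + 1) := by
          have := ht.1
          nlinarith
      _ < r / (‖e‖ + 1) * (‖e‖ + 1) := mul_lt_mul_of_pos_right ht.2 (by positivity)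
      _ = r := div_mul_cancel₀ _ (by positivity)
  · rw [Set.mem_iUnion]
    refine ⟨b, ?_⟩
    rw [Set.mem_singleton_iff, eq_div_iff (he b)]
    rw [inner_add_right, inner_smul_right] at hb
    linarith

theorem holder_of_group {n : ℕ} (hn : n ≠ 0) {M : Finset (V n)} (hM : M.Nonempty)
    (hS : Spans M) {u : V n → ℝ} {G : V n → V n} {H : V n → Matrix (Fin n) (Fin n) ℝ}
    (hR : Reg u G H) (hHc : Continuous fun x => (H x).det) {C0 : ℝ}
    (hB : ∀ x, |u x - lse M x| ≤ C0) {β : Type} [Fintype β] (γ h : β → V n)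
    (hγ : ∀ b, γ b ≠ 0) (hh : ∀ b, h b ≠ 0) {lam a : ℝ} {b0 : V n}
    (hE : ∀ x, (∀ b, ⟪γ b, x⟫_ℝ ≠ 0) → (H x).det * ∏ b, |⟪G x, h b⟫_ℝ| =
      Real.exp (-(lam * u x) + ⟪b0, x⟫_ℝ + a) * ∏ b, |1 - Real.exp (-(2 * ⟪γ b, x⟫_ℝ))|) :
    ∃ C > (0 : ℝ), ∃ α > (0 : ℝ), ∀ x y : V n,
      |(u x - lse M x) - (u y - lse M y)| ≤ C * (bd M x y) ^ α := by
  have hhull : ∀ x, G x ∈ convexHull ℝ (M : Set (V n)) :=
    hull_of_sub hM (sub_of_reg hR) (C0 := C0) (fun x => by linarith [(abs_le.mp (hB x)).2])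
  have hP : Pot M u G := ⟨hhull, sub_of_reg hR⟩
  have huc : Continuous u := continuous_iff_continuousAt.2 fun x => (hR.grad x).continuousAt
  have hGc : Continuous G := continuous_iff_continuousAt.2 fun x => (hR.hess x).continuousAt
  have hE' : ∀ x, (H x).det * ∏ b, |⟪G x, h b⟫_ℝ| =
      Real.exp (-(lam * u x) + ⟪b0, x⟫_ℝ + a) * ∏ b, |1 - Real.exp (-(2 * ⟪γ b, x⟫_ℝ))| := by
    have h1 : Continuous fun x => (H x).det * ∏ b, |⟪G x, h b⟫_ℝ| :=
      hHc.mul (continuous_finsetProd _ fun b _ => (hGc.inner continuous_const).abs)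
    have h2 : Continuous fun x => Real.exp (-(lam * u x) + ⟪b0, x⟫_ℝ + a) *
        ∏ b, |1 - Real.exp (-(2 * ⟪γ b, x⟫_ℝ))| := by
      refine Continuous.mul (by fun_prop) (continuous_finsetProd _ fun b _ => ?_)
      fun_prop
    exact fun x => congrFun (Continuous.ext_on (r7_dense γ hγ) h1 h2 fun x hx => hE x hx) x
  have hcomp : IsCompact (convexHull ℝ (M : Set (V n))) := M.finite_toSet.isCompact_convexHull ℝ
  obtain ⟨B, hWB⟩ : ∃ B : ℝ, ∀ p ∈ convexHull ℝ (M : Set (V n)), ∏ b, |⟪p, h b⟫_ℝ| ≤ B := by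
    have hc : Continuous fun p : V n => ∏ b, |⟪p, h b⟫_ℝ| :=
      continuous_finsetProd _ fun b _ => (continuous_id.inner continuous_const).abs
    obtain ⟨B, hB'⟩ := (hcomp.image hc).bddAbove
    exact ⟨B, fun p hp => hB' (Set.mem_image_of_mem _ hp)⟩
  obtain ⟨L, hL⟩ : ∃ L : ℝ, ∀ p ∈ convexHull ℝ (M : Set (V n)), ‖p‖ ≤ L := by
    obtain ⟨L, hL'⟩ := (hcomp.image continuous_norm).bddAbove
    exact ⟨L, fun p hp => hL' (Set.mem_image_of_mem _ hp)⟩
  have hfin0 : ∫⁻ y, ENNReal.ofReal (H y).det < ⊤ :=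
    total_mass hM hR (C0 := C0) (fun x => by linarith [(abs_le.mp (hB x)).2])
  have hfin : ∫⁻ x, ENNReal.ofReal (Real.exp (-(lam * u x) + ⟪b0, x⟫_ℝ + a) *
      ∏ b, |1 - Real.exp (-(2 * ⟪γ b, x⟫_ℝ))|) < ⊤ := by
    calc ∫⁻ x, ENNReal.ofReal (Real.exp (-(lam * u x) + ⟪b0, x⟫_ℝ + a) *
          ∏ b, |1 - Real.exp (-(2 * ⟪γ b, x⟫_ℝ))|)
        ≤ ∫⁻ y, ENNReal.ofReal (max B 0) * ENNReal.ofReal (H y).det := by
          refine lintegral_mono fun y => ?_
          rw [← ENNReal.ofReal_mul (le_max_right B 0)]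
          refine ENNReal.ofReal_le_ofReal ?_
          rw [← hE' y, mul_comm]
          exact mul_le_mul_of_nonneg_right ((hWB _ (hhull y)).trans (le_max_left B 0))
            (hR.pos y).det_pos.le
      _ = ENNReal.ofReal (max B 0) * ∫⁻ y, ENNReal.ofReal (H y).det :=
          lintegral_const_mul' _ _ ENNReal.ofReal_ne_top
      _ < ⊤ := ENNReal.mul_lt_top ENNReal.ofReal_lt_top hfin0
  have hlip1 : ∀ x y, u x - u y ≤ L * ‖x - y‖ := fun x y => by
    have h1 := sub_of_reg hR x y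
    have h2 : -⟪G x, y - x⟫_ℝ ≤ ‖G x‖ * ‖y - x‖ :=
      (neg_le_abs _).trans (abs_real_inner_le_norm _ _)
    have h3 : ‖G x‖ * ‖y - x‖ ≤ L * ‖y - x‖ :=
      mul_le_mul_of_nonneg_right (hL _ (hhull x)) (norm_nonneg _)
    rw [norm_sub_rev x y]
    linarith
  have hlip : ∀ x y, |u x - u y| ≤ L * ‖x - y‖ := fun x y => by
    rw [abs_le]
    constructor
    · have := hlip1 y x
      rw [norm_sub_rev y x] at this
      linarith
    · exact hlip1 x y
  have hconv : ∀ x y, ∀ t : ℝ, 0 ≤ t → t ≤ 1 →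
      u (t • x + (1 - t) • y) ≤ t * u x + (1 - t) * u y := by
    intro x y t ht ht1
    have h1 := sub_of_reg hR (t • x + (1 - t) • y) x
    have h2 := sub_of_reg hR (t • x + (1 - t) • y) y
    have h3 : x - (t • x + (1 - t) • y) = (1 - t) • (x - y) := by module
    have h4 : y - (t • x + (1 - t) • y) = (-t) • (x - y) := by module
    rw [h3, inner_smul_right] at h1
    rw [h4, inner_smul_right] at h2
    have h5 := mul_le_mul_of_nonneg_left h1 ht
    have h6 := mul_le_mul_of_nonneg_left h2 (sub_nonneg.2 ht1)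
    linarith
  obtain ⟨A, ε, hε, hA⟩ := exp_decay hn hlip hconv γ hγ hfin
  obtain ⟨C, -, ε', hε', hC⟩ := mass_of_decay
    (fun y => (H y).det * ∏ b, |⟪G y, h b⟫_ℝ|) hε (fun y => by
      show (H y).det * ∏ b, |⟪G y, h b⟫_ℝ| ≤ _
      rw [hE' y]
      exact hA y)
  have hk : n + Fintype.card β ≠ 0 := by omega
  exact real_holder hk hM hS hP (tail_of_wmassB hM hR hB (lowB_prod hM hS h hh) hε' hC) hB

end Pool.Agent.LibRG65
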