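import Pool.Agent.LibRG65.Defs

/-!
[RG65 T0] SHORT (several). The torus matrices (helper65).

Entrywise (`Matrix.diagonal_mul_diagonal`, `Matrix.ext`, `Matrix.mul_apply`, `Matrix.diagonal_apply`), `Matrix.exp_diagonal`,
`Matrix.exp_mem..` is not needed: `Tm_mem` is `R.lie` (backwards, `z = Sum.elim w 0`) at `t = 1`.
`Xm_mem`: `R.lie` backwards.  `wt_comm`: entry `(i, j)`: `exp(m_i w) E i j = exp(γ w) E i j exp(m_j w)`, where `E i j = 0` or
`m i = m j + γ b` (`R.weight`).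
`posDef_Tm`: `Matrix.PosDef.diagonal` / `Matrix.posDef_diagonal_iff` (positive real entries).
-/

set_option autoImplicit false

open MeasureTheory
open scoped InnerProductSpace ComplexOrder Matrix

namespace Pool.Agent.LibRG65

open Pool.Agent.LibTK94 Pool.Agent.LibHK65

variable {n : ℕ} {ι β : Type} [Fintype ι] [DecidableEq ι] [Fintype β] [DecidableEq β]

private theorem t0_inner {n : ℕ} (a x : V n) :
    (∑ k, ofR x k * ((a k : ℝ) : ℂ)) = ((⟪a, x⟫_ℝ : ℝ) : ℂ) := by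
  rw [PiLp.inner_apply]
  push_cast
  refine Finset.sum_congr rfl fun k _ => ?_
  simp [ofR, mul_comm]

theorem Xm_inl (m : ι → V n) (E : β → Matrix ι ι ℂ) (w : Fin n → ℂ) :
    Xm m E (Sum.elim w 0) = Dm m w := by
  simp [Xm]

theorem Xm_add (m : ι → V n) (E : β → Matrix ι ι ℂ) (z z' : Fin n ⊕ β → ℂ) :
    Xm m E (z + z') = Xm m E z + Xm m E z' := by
  simp only [Xm, Dm, Pi.add_apply, add_mul, Finset.sum_add_distrib, add_smul,
    ← Matrix.diagonal_add]
  abel

theorem Xm_smul (m : ι → V n) (E : β → Matrix ι ι ℂ) (c : ℂ) (z : Fin n ⊕ β → ℂ) :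
    Xm m E (c • z) = c • Xm m E z := by
  have h1 : Dm m (fun k => (c • z) (Sum.inl k)) = c • Dm m (fun k => z (Sum.inl k)) := by
    unfold Dm
    rw [← Matrix.diagonal_smul]
    congr 1
    funext j
    simp [Finset.mul_sum, mul_assoc]
  unfold Xm
  rw [h1, smul_add, Finset.smul_sum]
  congr 1
  refine Finset.sum_congr rfl fun b _ => ?_
  rw [smul_smul, Pi.smul_apply, smul_eq_mul]

theorem Xm_zero (m : ι → V n) (E : β → Matrix ι ι ℂ) : Xm m E 0 = 0 := by
  have h1 := Xm_smul m E 0 0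
  rwa [zero_smul, zero_smul] at h1

theorem Xm_single_inr (m : ι → V n) (E : β → Matrix ι ι ℂ) (b : β) (c : ℂ) :
    Xm m E (Pi.single (Sum.inr b) c) = c • E b := by
  have h1 : Dm m (fun k => (Pi.single (Sum.inr b) c : Fin n ⊕ β → ℂ) (Sum.inl k)) = 0 := by
    unfold Dm
    simp
  unfold Xm
  rw [h1, zero_add, Finset.sum_eq_single b]
  · simp
  · intro b' _ hb'
    have h2 : (Sum.inr b' : Fin n ⊕ β) ≠ Sum.inr b := fun h => hb' (Sum.inr_injective h)
    rw [Pi.single_eq_of_ne h2, zero_smul]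
  · intro h
    exact absurd (Finset.mem_univ b) h

theorem exp_Dm (m : ι → V n) (w : Fin n → ℂ) : NormedSpace.exp (Dm m w) = Tm m w := by
  unfold Dm Tm
  rw [Matrix.exp_diagonal]
  congr 1
  funext j
  rw [Pi.coe_exp, Complex.exp_eq_exp_ℂ]

theorem Dm_ofR (m : ι → V n) (x : V n) :
    Dm m (ofR x) = Matrix.diagonal fun j => ((⟪m j, x⟫_ℝ : ℝ) : ℂ) := by
  unfold Dm
  congr 1
  funext j
  exact t0_inner (m j) x

theorem Tm_ofR (m : ι → V n) (x : V n) :
    Tm m (ofR x) = Matrix.diagonal fun j => ((Real.exp ⟪m j, x⟫_ℝ : ℝ) : ℂ) := by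
  unfold Tm
  congr 1
  funext j
  rw [t0_inner (m j) x, Complex.ofReal_exp]

theorem Tm_add (m : ι → V n) (w w' : Fin n → ℂ) : Tm m (w + w') = Tm m w * Tm m w' := by
  unfold Tm
  rw [Matrix.diagonal_mul_diagonal]
  congr 1
  funext j
  simp only [Pi.add_apply, add_mul, Finset.sum_add_distrib, Complex.exp_add]

theorem Tm_zero (m : ι → V n) : Tm m 0 = 1 := by
  unfold Tm
  simp

theorem Tm_star (m : ι → V n) (w : Fin n → ℂ) :
    (Tm m w)ᴴ = Tm m (fun k => (starRingEnd ℂ) (w k)) := by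
  unfold Tm
  rw [Matrix.diagonal_conjTranspose]
  congr 1
  funext j
  rw [Pi.star_apply, ← starRingEnd_apply, ← Complex.exp_conj]
  simp

theorem posDef_Tm (m : ι → V n) (x : V n) : (Tm m (ofR x)).PosDef := by
  rw [Tm_ofR, Matrix.posDef_diagonal_iff]
  intro j
  exact_mod_cast Real.exp_pos _

theorem RG.Xm_mem (R : RG n ι β) (z : Fin n ⊕ β → ℂ) :
    NormedSpace.exp (Xm R.m R.E z) ∈ R.G := by
  have h1 := (R.lie (Xm R.m R.E z)).2 ⟨z, rfl⟩ 1
  rwa [one_smul] at h1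

theorem RG.Tm_mem (R : RG n ι β) (w : Fin n → ℂ) : Tm R.m w ∈ R.G := by
  have h1 := R.Xm_mem (Sum.elim w 0)
  rwa [Xm_inl, exp_Dm] at h1

theorem RG.Tm_K (R : RG n ι β) (y : V n) :
    Tm R.m (fun k => Complex.I * ofR y k) ∈ R.K := by
  refine ⟨R.Tm_mem _, ?_⟩
  rw [Tm_star, ← Tm_add]
  have h1 : ((fun k => (starRingEnd ℂ) (Complex.I * ofR y k)) + fun k => Complex.I * ofR y k) =
      (0 : Fin n → ℂ) := by
    funext k
    simp [ofR]
  rw [h1, Tm_zero]

theorem RG.wt_comm (R : RG n ι β) (w : Fin n → ℂ) (b : β) :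
    Tm R.m w * R.E b = Complex.exp (∑ k, w k * ((R.γ b k : ℝ) : ℂ)) • (R.E b * Tm R.m w) := by
  ext i j
  unfold Tm
  rw [Matrix.diagonal_mul, Matrix.smul_apply, Matrix.mul_diagonal, smul_eq_mul]
  by_cases h : R.E b i j = 0
  · simp [h]
  · have h1 : R.m i = R.m j + R.γ b := by
      rw [← R.weight b i j h]
      abel
    have h2 : (∑ k, w k * ((R.m i k : ℝ) : ℂ)) =
        (∑ k, w k * ((R.γ b k : ℝ) : ℂ)) + ∑ k, w k * ((R.m j k : ℝ) : ℂ) := by
      rw [← Finset.sum_add_distrib]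
      refine Finset.sum_congr rfl fun k _ => ?_
      rw [h1, PiLp.add_apply]
      push_cast
      ring
    rw [h2, Complex.exp_add]
    ring

end Pool.Agent.LibRG65
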