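import Pool.Agent.LibRG65.Defs

/-!
[RG65 T1] SHORT/MEDIUM. `K` is a compact group; the group `G` (helper65).

`K_mul`, `K_one`, `K_star`: `kᴴ * k = 1` implies `k * kᴴ = 1` (`mul_eq_one_comm`).  `isCompact_K`: closed and bounded in the
finite dimensional space `Matrix ι ι ℂ` (Pi topology): bounded: `∑ i, ‖k i j‖^2 = 1` so all entries `≤ 1`
(`isCompact_univ_pi`/`IsCompact.of_isClosed_subset` of `{k | ∀ i j, k i j ∈ closedBall 0 1}`); closed: a point `g` of the closure
satisfies `gᴴ * g = 1` (closed condition), so `IsUnit g.det`, and `g ∈ closure G`, `R.closed`.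
`mem_exp_K`: `exp (t X)` with `X` skew: `Matrix.exp_conjTranspose`, `Matrix.exp_neg` / `Matrix.exp_add_of_commute`.
-/

set_option autoImplicit false
set_option linter.unusedSectionVars false

open MeasureTheory
open scoped InnerProductSpace ComplexOrder Matrix

namespace Pool.Agent.LibRG65

open Pool.Agent.LibTK94 Pool.Agent.LibHK65

variable {n : ℕ} {ι β : Type} [Fintype ι] [DecidableEq ι] [Fintype β] [DecidableEq β]

theorem RG.K_one (R : RG n ι β) : (1 : Matrix ι ι ℂ) ∈ R.K := by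
  refine ⟨R.G.one_mem, ?_⟩
  rw [Matrix.conjTranspose_one, Matrix.mul_one]

theorem RG.K_mul (R : RG n ι β) {k k' : Matrix ι ι ℂ} (h : k ∈ R.K) (h' : k' ∈ R.K) :
    k * k' ∈ R.K := by
  refine ⟨R.G.mul_mem h.1 h'.1, ?_⟩
  rw [Matrix.conjTranspose_mul, Matrix.mul_assoc, ← Matrix.mul_assoc kᴴ k k', h.2,
    Matrix.one_mul]
  exact h'.2

theorem RG.K_star (R : RG n ι β) {k : Matrix ι ι ℂ} (h : k ∈ R.K) : kᴴ ∈ R.K := by
  refine ⟨R.star k h.1, ?_⟩
  rw [Matrix.conjTranspose_conjTranspose]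
  exact mul_eq_one_comm.1 h.2

theorem RG.K_mul_star (R : RG n ι β) {k : Matrix ι ι ℂ} (h : k ∈ R.K) : k * kᴴ = 1 := by
  exact mul_eq_one_comm.1 h.2

theorem RG.isCompact_K (R : RG n ι β) : IsCompact R.K := by
  have hC : IsCompact (Set.pi Set.univ (fun _ : ι => Set.pi Set.univ
      (fun _ : ι => Metric.closedBall (0 : ℂ) 1)) : Set (ι → ι → ℂ)) :=
    isCompact_univ_pi fun _ => isCompact_univ_pi fun _ => isCompact_closedBall _ _
  have hcl : IsClosed R.K := by
    rw [← closure_subset_iff_isClosed]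
    intro g hg
    have h1 : g ∈ closure (R.G : Set (Matrix ι ι ℂ)) := closure_mono (fun k hk => hk.1) hg
    have h2 : IsClosed {k : Matrix ι ι ℂ | kᴴ * k = 1} :=
      isClosed_eq ((continuous_id.matrix_conjTranspose).matrix_mul continuous_id)
        continuous_const
    have h3 : gᴴ * g = 1 := closure_minimal (fun k hk => hk.2) h2 hg
    exact ⟨R.closed g h1 (Matrix.isUnit_det_of_left_inverse h3), h3⟩
  refine IsCompact.of_isClosed_subset hC hcl ?_
  intro k hk i _ j _
  rw [mem_closedBall_zero_iff]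
  have h4 : ((kᴴ * k) j j).re = 1 := by
    rw [hk.2, Matrix.one_apply_eq, Complex.one_re]
  have h5 : ((kᴴ * k) j j).re = ∑ x, ‖k x j‖ ^ 2 := by
    rw [Matrix.mul_apply, Complex.re_sum]
    apply Finset.sum_congr rfl
    intro x _
    rw [Matrix.conjTranspose_apply, Complex.star_def, mul_comm, Complex.mul_conj,
      Complex.ofReal_re, Complex.normSq_eq_norm_sq]
  have h6 : ‖k i j‖ ^ 2 ≤ ∑ x, ‖k x j‖ ^ 2 :=
    Finset.single_le_sum (f := fun x => ‖k x j‖ ^ 2) (fun x _ => sq_nonneg _)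
      (Finset.mem_univ i)
  rw [← h5, h4] at h6
  nlinarith [norm_nonneg (k i j)]

theorem RG.mem_exp_K (R : RG n ι β) {X : Matrix ι ι ℂ}
    (hX : ∀ t : ℝ, NormedSpace.exp (t • X) ∈ R.G) (hs : Xᴴ = -X) (t : ℝ) :
    NormedSpace.exp (t • X) ∈ R.K := by
  refine ⟨hX t, ?_⟩
  have h1 : (t • X)ᴴ = -(t • X) := by
    rw [Matrix.conjTranspose_smul, hs, star_trivial, smul_neg]
  rw [← Matrix.exp_conjTranspose, h1, ← Matrix.exp_add_of_commute]
  · rw [neg_add_cancel, NormedSpace.exp_zero]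
  · exact (Commute.refl (t • X)).neg_left

end Pool.Agent.LibRG65
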