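import Pool.Agent.LibRG65.T0
import Pool.Agent.LibRG65.R0

/-!
[RG65 T2] SHORT/MEDIUM. Hermitian elements of the Lie algebra commuting with a regular element are diagonal
(helper65). Cites T0, R0 `exists_generic`.

`exists_reg`: `exists_generic` for the finite family `(i, j) ↦ m i - m j`, `m i ≠ m j` (a subtype).
`diag_of_comm`: `Y = Xm z`.  Entry `(i, j)` of the commutation: `Y i j * ⟪m j, η⟫ = ⟪m i, η⟫ * Y i j`, so `Y i j = 0` if `m i ≠ m j`.
`(∑ z_b E_b) i j ≠ 0` implies `m i - m j = γ b ≠ 0` for some `b`; and then `Y i j = (∑ z_b E_b) i j` (`i ≠ j`, the diagonal part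
vanishes).  So `∑ z_b E_b = 0`, `Y = Dm m w`.  Hermitian: the diagonal entries `∑ w_k m_jk` are real for all `j`, so
`⟪m i - m j, Im w⟫ = 0`, `Im w = 0` (`hS`), `x = Re w`.
-/

set_option autoImplicit false

open MeasureTheory
open scoped InnerProductSpace ComplexOrder Matrix

namespace Pool.Agent.LibRG65

open Pool.Agent.LibTK94 Pool.Agent.LibHK65

variable {n : ℕ} {ι β : Type} [Fintype ι] [DecidableEq ι] [Fintype β] [DecidableEq β]

private theorem t2_inner {n : ℕ} (a b : V n) : ⟪a, b⟫_ℝ = ∑ k, b k * a k := by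
  rw [PiLp.inner_apply]
  refine Finset.sum_congr rfl fun k _ => ?_
  rfl

theorem RG.exists_reg (R : RG n ι β) :
    ∃ η : V n, ∀ i j : ι, R.m i ≠ R.m j → ⟪R.m i, η⟫_ℝ ≠ ⟪R.m j, η⟫_ℝ := by
  obtain ⟨e, he⟩ := exists_generic (n := n) (β := {p : ι × ι // R.m p.1 ≠ R.m p.2})
    (fun p => R.m p.1.1 - R.m p.1.2) (fun p => sub_ne_zero.mpr p.2)
  refine ⟨e, fun i j hij h => ?_⟩
  have h1 := he ⟨(i, j), hij⟩
  apply h1
  show ⟪R.m i - R.m j, e⟫_ℝ = 0
  rw [inner_sub_left, h, sub_self]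

theorem RG.diag_of_comm (R : RG n ι β) (hS : R.Sp) {z : Fin n ⊕ β → ℂ}
    (hH : (Xm R.m R.E z).IsHermitian) {η : V n}
    (hη : ∀ i j : ι, R.m i ≠ R.m j → ⟪R.m i, η⟫_ℝ ≠ ⟪R.m j, η⟫_ℝ)
    (hc : Xm R.m R.E z * Dm R.m (ofR η) = Dm R.m (ofR η) * Xm R.m R.E z) :
    ∃ x : V n, Xm R.m R.E z = Dm R.m (ofR x) := by
  classical
  have h0 : ∀ i j, R.m i ≠ R.m j → Xm R.m R.E z i j = 0 := by
    intro i j hij
    have h1 := congrFun (congrFun hc i) j
    rw [Dm_ofR, Matrix.mul_diagonal, Matrix.diagonal_mul] at h1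
    have h2 := hη i j hij
    have h3 : Xm R.m R.E z i j * (((⟪R.m i, η⟫_ℝ : ℝ) : ℂ) - ((⟪R.m j, η⟫_ℝ : ℝ) : ℂ)) = 0 := by
      rw [mul_sub, h1]
      ring
    rcases mul_eq_zero.mp h3 with h4 | h4
    · exact h4
    · exfalso
      apply h2
      have h5 := sub_eq_zero.mp h4
      exact_mod_cast h5
  have hS0 : (∑ b, z (Sum.inr b) • R.E b) = 0 := by
    ext i j
    rw [Matrix.zero_apply]
    by_contra hne
    have h1 : ∃ b, (z (Sum.inr b) • R.E b) i j ≠ 0 := by
      by_contra hno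
      push Not at hno
      apply hne
      rw [Matrix.sum_apply]
      exact Finset.sum_eq_zero fun b _ => hno b
    obtain ⟨b, hb⟩ := h1
    have h2 : R.E b i j ≠ 0 := by
      intro h
      apply hb
      rw [Matrix.smul_apply, h, smul_zero]
    have h3 : R.m i ≠ R.m j := by
      intro h
      apply R.root_ne b
      rw [← R.weight b i j h2, h, sub_self]
    have h4 : i ≠ j := fun h => h3 (by rw [h])
    have h5 := h0 i j h3
    rw [Xm, Matrix.add_apply, Dm, Matrix.diagonal_apply_ne _ h4, zero_add] at h5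
    exact hne h5
  have hY : Xm R.m R.E z = Dm R.m (fun k => z (Sum.inl k)) := by
    rw [Xm, hS0, add_zero]
  have him : ∀ j, ∑ k, (z (Sum.inl k)).im * R.m j k = 0 := by
    intro j
    have h1 : (starRingEnd ℂ) (Xm R.m R.E z j j) = Xm R.m R.E z j j := hH.apply j j
    rw [hY, Dm, Matrix.diagonal_apply_eq] at h1
    have h2 := Complex.conj_eq_iff_im.mp h1
    rw [Complex.im_sum] at h2
    rw [← h2]
    refine Finset.sum_congr rfl fun k _ => ?_
    rw [Complex.im_mul_ofReal]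
  have hw : ∀ k, (z (Sum.inl k)).im = 0 := by
    have h1 := hS (WithLp.toLp 2 fun k => (z (Sum.inl k)).im) (by
      intro i j
      rw [inner_sub_left, t2_inner, t2_inner, him i, him j, sub_self])
    intro k
    have h2 := congrArg (fun v : V n => v k) h1
    exact h2
  refine ⟨WithLp.toLp 2 fun k => (z (Sum.inl k)).re, ?_⟩
  rw [hY]
  congr 1
  funext k
  apply Complex.ext
  · rfl
  · rw [hw k]
    rfl

end Pool.Agent.LibRG65
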