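import Pool.Agent.LibRG65.T0

/-!
[RG65 T4a] SHORT/MEDIUM. The derivative of `t ↦ tr (exp(tX) Y exp(-tX) D)` (helper65). Mathlib only.

In a normed algebra structure on matrices (`open scoped Matrix.Norms.Operator` or `attribute [local instance]
Matrix.linftyOpNormedRing Matrix.linftyOpNormedAlgebra`): `hasDerivAt_exp_smul_const` for `t ↦ exp (t • X)` at `0`,
`HasDerivAt.mul`, `HasDerivAt.mul_const`, the continuous linear map trace (or entrywise), real part
(`Complex.reCLM.hasFDerivAt`).  `tr ((X Y - Y X) D) = tr (X (Y D - D Y))` by `Matrix.trace_mul_comm`, `Matrix.trace_mul_cycle`.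
-/

set_option autoImplicit false

open MeasureTheory
open scoped InnerProductSpace ComplexOrder Matrix

namespace Pool.Agent.LibRG65

open Pool.Agent.LibTK94 Pool.Agent.LibHK65

variable {n : ℕ} {ι β : Type} [Fintype ι] [DecidableEq ι] [Fintype β] [DecidableEq β]

open scoped Matrix.Norms.L2Operator in
private theorem t4a_aux (X Y D : Matrix ι ι ℂ) :
    HasDerivAt (fun t : ℝ =>
      (NormedSpace.exp (t • X) * Y * NormedSpace.exp (-(t • X)) * D))
      ((X * Y - Y * X) * D) 0 := by
  have h1 := hasDerivAt_exp_smul_const X (0 : ℝ)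
  have h2 := hasDerivAt_exp_smul_const (-X) (0 : ℝ)
  have h3 := ((h1.mul_const Y).mul h2).mul_const D
  have h4 : (NormedSpace.exp ((0 : ℝ) • X) * X * Y * NormedSpace.exp ((0 : ℝ) • -X) +
      NormedSpace.exp ((0 : ℝ) • X) * Y * (NormedSpace.exp ((0 : ℝ) • -X) * -X)) * D =
      (X * Y - Y * X) * D := by
    simp [sub_eq_add_neg]
  rw [h4] at h3
  refine h3.congr_of_eventuallyEq (Filter.Eventually.of_forall fun t => ?_)
  simp

open scoped Matrix.Norms.L2Operator in
private theorem t4a_aux2 (X Y D : Matrix ι ι ℂ) :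
    HasDerivAt (fun t : ℝ => (Matrix.trace
      (NormedSpace.exp (t • X) * Y * NormedSpace.exp (-(t • X)) * D)).re)
      (Matrix.trace ((X * Y - Y * X) * D)).re 0 := by
  have h1 := t4a_aux X Y D
  let L : Matrix ι ι ℂ →L[ℝ] ℝ :=
    LinearMap.toContinuousLinearMap (Complex.reLm ∘ₗ Matrix.traceLinearMap ι ℝ ℂ)
  have h2 := L.hasFDerivAt.comp_hasDerivAt (0 : ℝ) h1
  exact h2

theorem hasDerivAt_trace (X Y D : Matrix ι ι ℂ) :
    HasDerivAt (fun t : ℝ => (Matrix.trace
      (NormedSpace.exp (t • X) * Y * NormedSpace.exp (-(t • X)) * D)).re)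
      (Matrix.trace (X * (Y * D - D * Y))).re 0 := by
  have h1 := t4a_aux2 X Y D
  have h2 : Matrix.trace ((X * Y - Y * X) * D) = Matrix.trace (X * (Y * D - D * Y)) := by
    rw [Matrix.sub_mul, Matrix.mul_sub, Matrix.trace_sub, Matrix.trace_sub, Matrix.mul_assoc X Y D,
      Matrix.trace_mul_cycle Y X D, Matrix.mul_assoc D Y X, Matrix.trace_mul_comm D (Y * X),
      Matrix.mul_assoc Y X D, Matrix.trace_mul_comm Y (X * D), Matrix.mul_assoc X D Y]
  rwa [h2] at h1

end Pool.Agent.LibRG65
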