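import Pool.Agent.LibRG65.T1
import Pool.Agent.LibRG65.T2
import Pool.Agent.LibRG65.T3
import Pool.Agent.LibRG65.T4a

/-!
[RG65 T4] MEDIUM. Conjugation of a hermitian element of the Lie algebra into the diagonal (helper65).
Cites T1, T2, T3, T4a.

Plan. `K1 = {k ∈ K | k D1 = D1 k}`, `D1 = Dm m (ofR x1)`, compact (closed in `K`), contains `1`.  `η` from `exists_reg`,
`Dη = Dm m (ofR η)`.  `ψ k = re tr (k Y kᴴ Dη)` (`Y = Xm z`) is continuous; maximum at `k` (`IsCompact.exists_isMaxOn`).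
`Y' = k Y kᴴ` is hermitian, in the Lie algebra (`lie_ad`, `k⁻¹ = kᴴ`: `Matrix.inv_eq_left_inv`), commutes with `D1`.
`X = Y' Dη - Dη Y'` is in the Lie algebra (`lie_bracket`; `Dη = Xm (Sum.elim (ofR η) 0)`), skew-hermitian and commutes with `D1`
(diagonal matrices commute).  So `exp (t X) k ∈ K1` (`mem_exp_K`; commutation of `exp (t X)` with `D1`: `Commute.exp_right`-like,
`NormedSpace.exp` of a commuting element, or `Matrix.exp_conj`), `(exp (t X))ᴴ = exp (-(t X))`, and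
`t ↦ ψ (exp (t X) k)` has a maximum at `0`: its derivative (T4a) `re tr (X (Y' Dη - Dη Y')) = re tr (X X) = - ∑ ‖X i j‖^2` is `0`
(`IsLocalMax.hasDerivAt_eq_zero`), so `X = 0` and T2 applies to `Y'`.
-/

set_option autoImplicit false

open MeasureTheory
open scoped InnerProductSpace ComplexOrder Matrix

namespace Pool.Agent.LibRG65

open Pool.Agent.LibTK94 Pool.Agent.LibHK65

variable {n : ℕ} {ι β : Type} [Fintype ι] [DecidableEq ι] [Fintype β] [DecidableEq β]

private theorem t4_herm (m : ι → V n) (x : V n) : (Dm m (ofR x))ᴴ = Dm m (ofR x) := by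
  rw [Dm_ofR, Matrix.diagonal_conjTranspose]
  congr 1
  funext j
  exact Complex.conj_ofReal _

theorem RG.conj_diag (R : RG n ι β) (hS : R.Sp) (x1 : V n) {z : Fin n ⊕ β → ℂ}
    (hH : (Xm R.m R.E z).IsHermitian)
    (hc : Xm R.m R.E z * Dm R.m (ofR x1) = Dm R.m (ofR x1) * Xm R.m R.E z) :
    ∃ k ∈ R.K, k * Dm R.m (ofR x1) = Dm R.m (ofR x1) * k ∧
      ∃ x : V n, k * Xm R.m R.E z * kᴴ = Dm R.m (ofR x) := by
  classical
  set D1 := Dm R.m (ofR x1) with hD1
  set Y := Xm R.m R.E z with hY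
  obtain ⟨η, hη⟩ := R.exists_reg
  set D := Dm R.m (ofR η) with hD
  have hD1h : D1ᴴ = D1 := t4_herm R.m x1
  have hDh : Dᴴ = D := t4_herm R.m η
  have hDD : D1 * D = D * D1 := by
    rw [hD1, hD, Dm_ofR, Dm_ofR, Matrix.diagonal_mul_diagonal, Matrix.diagonal_mul_diagonal]
    congr 1
    funext j
    exact mul_comm _ _
  let K1 : Set (Matrix ι ι ℂ) := R.K ∩ {k | k * D1 = D1 * k}
  have hK1c : IsCompact K1 := by
    refine R.isCompact_K.inter_right (isClosed_eq ?_ ?_)
    · exact continuous_id.matrix_mul continuous_const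
    · exact continuous_const.matrix_mul continuous_id
  have hone : (1 : Matrix ι ι ℂ) ∈ K1 := ⟨R.K_one, by simp⟩
  let ψ : Matrix ι ι ℂ → ℝ := fun k => (Matrix.trace (k * Y * kᴴ * D)).re
  have hψ : Continuous ψ := by
    refine Complex.continuous_re.comp (Continuous.matrix_trace ?_)
    exact ((continuous_id.matrix_mul continuous_const).matrix_mul
      continuous_id.matrix_conjTranspose).matrix_mul continuous_const
  obtain ⟨k, hk, hmax⟩ := hK1c.exists_isMaxOn ⟨1, hone⟩ hψ.continuousOn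
  have hkK : k ∈ R.K := hk.1
  have hkD : k * D1 = D1 * k := hk.2
  have hk1 : kᴴ * k = 1 := hkK.2
  have hk2 : k * kᴴ = 1 := R.K_mul_star hkK
  have hkinv : k⁻¹ = kᴴ := Matrix.inv_eq_left_inv hk1
  have hkD' : kᴴ * D1 = D1 * kᴴ := by
    have e1 : kᴴ * D1 = kᴴ * D1 * (k * kᴴ) := by rw [hk2, mul_one]
    have e2 : kᴴ * D1 * (k * kᴴ) = kᴴ * (D1 * k) * kᴴ := by simp only [mul_assoc]
    have e3 : kᴴ * (k * D1) * kᴴ = (kᴴ * k) * D1 * kᴴ := by simp only [mul_assoc]
    rw [e1, e2, ← hkD, e3, hk1, one_mul]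
  obtain ⟨z1, hz1⟩ := R.lie_ad hkK.1 z
  rw [hkinv, ← hY] at hz1
  set Y' := k * Y * kᴴ with hY'
  have hY'h : Y'ᴴ = Y' := by
    rw [hY', Matrix.conjTranspose_mul, Matrix.conjTranspose_mul, Matrix.conjTranspose_conjTranspose,
      hH.eq, mul_assoc]
  have hY'D : Y' * D1 = D1 * Y' := by
    calc Y' * D1 = k * Y * (kᴴ * D1) := by rw [hY', mul_assoc]
      _ = k * (Y * D1) * kᴴ := by rw [hkD']; simp only [mul_assoc]
      _ = (k * D1) * Y * kᴴ := by rw [hc]; simp only [mul_assoc]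
      _ = D1 * Y' := by rw [hkD, hY']; simp only [mul_assoc]
  set X := Y' * D - D * Y' with hX
  obtain ⟨z2, hz2⟩ : ∃ z2, X = Xm R.m R.E z2 := by
    obtain ⟨z2, h2⟩ := R.lie_bracket z1 (Sum.elim (ofR η) 0)
    rw [Xm_inl, ← hz1, ← hD] at h2
    exact ⟨z2, h2⟩
  have hXG : ∀ t : ℝ, NormedSpace.exp (t • X) ∈ R.G := (R.lie X).2 ⟨z2, hz2⟩
  have hXs : Xᴴ = -X := by
    have q1 : (Y' * D)ᴴ = D * Y' := by rw [Matrix.conjTranspose_mul Y' D, hDh, hY'h]
    have q2 : (D * Y')ᴴ = Y' * D := by rw [Matrix.conjTranspose_mul D Y', hDh, hY'h]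
    rw [hX, Matrix.conjTranspose_sub, q1, q2]
    abel
  have hXD : X * D1 = D1 * X := by
    rw [hX, sub_mul, mul_sub]
    congr 1
    · rw [mul_assoc, ← hDD, ← mul_assoc, hY'D, mul_assoc]
    · rw [mul_assoc, hY'D, ← mul_assoc, ← hDD, mul_assoc]
  -- the curve
  have hcurve : ∀ t : ℝ, NormedSpace.exp (t • X) * k ∈ K1 := by
    intro t
    refine ⟨R.K_mul (R.mem_exp_K hXG hXs t) hkK, ?_⟩
    have hcm : Commute (NormedSpace.exp (t • X)) D1 := by
      have h0 : Commute (t • X) D1 := Commute.smul_left (show Commute X D1 from hXD) t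
      exact h0.exp_left
    change NormedSpace.exp (t • X) * k * D1 = D1 * (NormedSpace.exp (t • X) * k)
    rw [mul_assoc, hkD, ← mul_assoc, hcm.eq, mul_assoc]
  have hval : ∀ t : ℝ, ψ (NormedSpace.exp (t • X) * k) =
      (Matrix.trace (NormedSpace.exp (t • X) * Y' * NormedSpace.exp (-(t • X)) * D)).re := by
    intro t
    have e1 : (NormedSpace.exp (t • X))ᴴ = NormedSpace.exp (-(t • X)) := by
      rw [← Matrix.exp_conjTranspose, Matrix.conjTranspose_smul, star_trivial, hXs, smul_neg]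
    change (Matrix.trace (NormedSpace.exp (t • X) * k * Y *
      (NormedSpace.exp (t • X) * k)ᴴ * D)).re = _
    rw [Matrix.conjTranspose_mul, e1, hY']
    simp only [mul_assoc]
  have hder := hasDerivAt_trace X Y' D
  have hloc : IsLocalMax (fun t : ℝ => (Matrix.trace
      (NormedSpace.exp (t • X) * Y' * NormedSpace.exp (-(t • X)) * D)).re) 0 := by
    refine Filter.Eventually.of_forall fun t => ?_
    have h1 := hmax (hcurve t)
    have h2 : ψ (NormedSpace.exp ((0 : ℝ) • X) * k) = ψ k := by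
      rw [zero_smul, NormedSpace.exp_zero, one_mul]
    change (Matrix.trace (NormedSpace.exp (t • X) * Y' * NormedSpace.exp (-(t • X)) * D)).re ≤
      (Matrix.trace (NormedSpace.exp ((0 : ℝ) • X) * Y' *
        NormedSpace.exp (-((0 : ℝ) • X)) * D)).re
    rw [← hval t, ← hval 0, h2]
    exact h1
  have h0 := hloc.hasDerivAt_eq_zero hder
  have hX0 : X = 0 := by
    have e1 : X * (Y' * D - D * Y') = -(Xᴴ * X) := by
      rw [← hX, hXs, neg_mul, neg_neg]
    rw [e1, Matrix.trace_neg, Complex.neg_re, neg_eq_zero] at h0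
    have hnn : 0 ≤ Matrix.trace (Xᴴ * X) :=
      (Matrix.posSemidef_conjTranspose_mul_self X).trace_nonneg
    have him : (Matrix.trace (Xᴴ * X)).im = 0 := ((Complex.le_def.1 hnn).2).symm
    have ht : Matrix.trace (Xᴴ * X) = 0 := Complex.ext h0 him
    exact Matrix.trace_conjTranspose_mul_self_eq_zero_iff.1 ht
  have hcomm : Y' * D = D * Y' := sub_eq_zero.1 hX0
  have hherm : (Xm R.m R.E z1).IsHermitian := by
    rw [← hz1]
    exact hY'h
  have hcz : Xm R.m R.E z1 * Dm R.m (ofR η) = Dm R.m (ofR η) * Xm R.m R.E z1 := by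
    rw [← hz1, ← hD]
    exact hcomm
  obtain ⟨x, hx⟩ := R.diag_of_comm hS hherm hη hcz
  exact ⟨k, hkK, hkD, x, hz1.trans hx⟩

end Pool.Agent.LibRG65
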