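import Pool.Agent.LibRG65.Defs

/-!
[RG65 T5a] SHORT/MEDIUM. A matrix commuting with `exp H`, `H` hermitian, commutes with `H` (helper65). Mathlib only.

Plan. Spectral theorem: `H = U diag(λ) Uᴴ`, `λ` real, `U` unitary (`Matrix.IsHermitian.spectral_theorem`), so
`exp H = U diag(exp λ) Uᴴ` (`Matrix.exp_conj`, `Matrix.exp_diagonal`).  With `B' = Uᴴ B U`: `B' i j (exp λ_j - exp λ_i) = 0`, so
`B' i j (λ_j - λ_i) = 0` (`Real.exp_injective`), i.e. `B' diag(λ) = diag(λ) B'`; conjugate back.
-/

set_option autoImplicit false

open MeasureTheory
open scoped InnerProductSpace ComplexOrder Matrix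

namespace Pool.Agent.LibRG65

open Pool.Agent.LibTK94 Pool.Agent.LibHK65

variable {n : ℕ} {ι β : Type} [Fintype ι] [DecidableEq ι] [Fintype β] [DecidableEq β]

theorem comm_of_exp_comm {H B : Matrix ι ι ℂ} (hH : H.IsHermitian)
    (h : B * NormedSpace.exp H = NormedSpace.exp H * B) : B * H = H * B := by
  set U : Matrix ι ι ℂ := (hH.eigenvectorUnitary : Matrix ι ι ℂ) with hU
  have h1 : U * star U = 1 := Unitary.coe_mul_star_self hH.eigenvectorUnitary
  have h2 : star U * U = 1 := Unitary.coe_star_mul_self hH.eigenvectorUnitary
  have hinv : U⁻¹ = star U := Matrix.inv_eq_right_inv h1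
  have hunit : IsUnit U := ⟨⟨U, star U, h1, h2⟩, rfl⟩
  set D : Matrix ι ι ℂ := Matrix.diagonal (RCLike.ofReal ∘ hH.eigenvalues) with hD
  have hS : H = U * D * star U := by
    have := hH.spectral_theorem
    rw [Unitary.conjStarAlgAut_apply] at this
    exact this
  set e : ι → ℂ := fun i => Complex.exp (hH.eigenvalues i : ℂ) with he
  have hE : NormedSpace.exp H = U * Matrix.diagonal e * star U := by
    have hexpD : NormedSpace.exp D = Matrix.diagonal e := by
      rw [hD, Matrix.exp_diagonal]
      congr 1
      rw [Pi.exp_def, he]
      funext i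
      simp [Complex.exp_eq_exp_ℂ]
    have := Matrix.exp_conj U D hunit
    rw [hinv] at this
    rw [← hexpD, ← this, ← hS]
  set B' : Matrix ι ι ℂ := star U * B * U with hB'
  have hc : B' * Matrix.diagonal e = Matrix.diagonal e * B' := by
    calc B' * Matrix.diagonal e = star U * (B * (U * Matrix.diagonal e * star U)) * U := by
          rw [hB']
          simp only [Matrix.mul_assoc]
          rw [h2, Matrix.mul_one]
      _ = star U * ((U * Matrix.diagonal e * star U) * B) * U := by rw [← hE, h]
      _ = Matrix.diagonal e * B' := by
          rw [hB']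
          simp only [Matrix.mul_assoc]
          rw [← Matrix.mul_assoc (star U) U, h2, Matrix.one_mul]
  have hcD : B' * D = D * B' := by
    ext i j
    have hij := congrFun (congrFun hc i) j
    rw [Matrix.mul_diagonal, Matrix.diagonal_mul] at hij
    rw [hD, Matrix.mul_diagonal, Matrix.diagonal_mul]
    by_cases hz : B' i j = 0
    · rw [hz]; ring
    · have hee : e j = e i := by
        have : B' i j * e j = B' i j * e i := by rw [hij]; ring
        exact mul_left_cancel₀ hz this
      have : hH.eigenvalues j = hH.eigenvalues i := by
        have h3 : Complex.exp (hH.eigenvalues j : ℂ) = Complex.exp (hH.eigenvalues i : ℂ) := hee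
        rw [← Complex.ofReal_exp, ← Complex.ofReal_exp] at h3
        exact Real.exp_injective (Complex.ofReal_injective h3)
      simp only [Function.comp]
      rw [this, mul_comm]
  have hBB : B = U * B' * star U := by
    rw [hB']
    calc B = (U * star U) * B * (U * star U) := by rw [h1]; simp
      _ = _ := by simp only [Matrix.mul_assoc]
  have key : U * (B' * D) * star U = B * H := by
    calc U * (B' * D) * star U = (U * B' * star U) * (U * D * star U) := by
          simp only [Matrix.mul_assoc]
          rw [← Matrix.mul_assoc (star U) U, h2, Matrix.one_mul]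
      _ = B * H := by rw [← hBB, ← hS]
  have key2 : U * (D * B') * star U = H * B := by
    calc U * (D * B') * star U = (U * D * star U) * (U * B' * star U) := by
          simp only [Matrix.mul_assoc]
          rw [← Matrix.mul_assoc (star U) U, h2, Matrix.one_mul]
      _ = H * B := by rw [← hBB, ← hS]
  rw [← key, ← key2, hcD]

end Pool.Agent.LibRG65
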