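import Pool.Agent.LibRG65.T4
import Pool.Agent.LibRG65.T5a

/-!
[RG65 T5] SHORT/MEDIUM. Two commuting positive elements of `G` are simultaneously conjugate into the torus
(helper65). Cites T0, T1, T3, T4, T5a.

Plan. `R.cartan`: `P = exp Y1`, `Q = exp Y2`, `Yi = Xm zi` hermitian.  T4 with `x1 = 0` (`Dm m (ofR 0) = 0`): `k1 Y1 k1ᴴ = D := Dm m (ofR x)`.
`P Q = Q P` gives with T5a first `Q Y1 = Y1 Q`, then (`Y1 exp Y2 = exp Y2 Y1`) `Y1 Y2 = Y2 Y1`.  `Y2' = k1 Y2 k1ᴴ = Xm z2'` (`lie_ad`,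
`k1⁻¹ = k1ᴴ`) is hermitian and commutes with `D`.  T4 with `x1 = x`: `k2 D = D k2`, `k2 Y2' k2ᴴ = Dm m (ofR x')`.  `k = k2 k1`:
`k Y1 kᴴ = k2 D k2ᴴ = D`, `k P kᴴ = exp (k Y1 kᴴ)` (`Matrix.exp_conj`) `= exp D = Tm` (`exp_Dm`), the same for `Q`.
-/

set_option autoImplicit false

open MeasureTheory
open scoped InnerProductSpace ComplexOrder Matrix

namespace Pool.Agent.LibRG65

open Pool.Agent.LibTK94 Pool.Agent.LibHK65

variable {n : ℕ} {ι β : Type} [Fintype ι] [DecidableEq ι] [Fintype β] [DecidableEq β]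

private theorem t5_inv (R : RG n ι β) {k : Matrix ι ι ℂ} (hk : k ∈ R.K) : k⁻¹ = kᴴ :=
  Matrix.inv_eq_left_inv hk.2

private theorem t5_exp (R : RG n ι β) {k : Matrix ι ι ℂ} (hk : k ∈ R.K) (A : Matrix ι ι ℂ) :
    NormedSpace.exp (k * A * kᴴ) = k * NormedSpace.exp A * kᴴ := by
  have hu : IsUnit k := (Matrix.isUnit_iff_isUnit_det _).2 (R.inv k hk.1).1
  have h := Matrix.exp_conj k A hu
  rwa [t5_inv R hk] at h

private theorem t5_herm {k A : Matrix ι ι ℂ} (hA : A.IsHermitian) : (k * A * kᴴ).IsHermitian := by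
  unfold Matrix.IsHermitian
  rw [Matrix.conjTranspose_mul, Matrix.conjTranspose_mul, Matrix.conjTranspose_conjTranspose,
    hA.eq, Matrix.mul_assoc]

theorem RG.conj_pair (R : RG n ι β) (hS : R.Sp) {P Q : Matrix ι ι ℂ} (hP : P ∈ R.G)
    (hQ : Q ∈ R.G) (hP' : P.PosDef) (hQ' : Q.PosDef) (hc : P * Q = Q * P) :
    ∃ k ∈ R.K, ∃ x x' : V n, k * P * kᴴ = Tm R.m (ofR x) ∧ k * Q * kᴴ = Tm R.m (ofR x') := by
  obtain ⟨z1, hY1, e1⟩ := R.cartan P hP hP'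
  obtain ⟨z2, hY2, e2⟩ := R.cartan Q hQ hQ'
  have c1 : Q * Xm R.m R.E z1 = Xm R.m R.E z1 * Q :=
    comm_of_exp_comm hY1 (by rw [e1]; exact hc.symm)
  have c2 : Xm R.m R.E z1 * Xm R.m R.E z2 = Xm R.m R.E z2 * Xm R.m R.E z1 :=
    comm_of_exp_comm hY2 (by rw [e2]; exact c1.symm)
  have hD0 : Dm R.m (ofR (0 : V n)) = 0 := by
    rw [Dm_ofR]
    simp
  obtain ⟨k1, hk1, -, x, hx⟩ := R.conj_diag hS 0 hY1 (by rw [hD0, mul_zero, zero_mul])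
  obtain ⟨z2', hz2'⟩ := R.lie_ad hk1.1 z2
  rw [t5_inv R hk1] at hz2'
  have hk1' := R.K_mul_star hk1
  have c3 : Xm R.m R.E z2' * Dm R.m (ofR x) = Dm R.m (ofR x) * Xm R.m R.E z2' := by
    rw [← hz2', ← hx]
    have f : ∀ A B : Matrix ι ι ℂ, k1 * A * k1ᴴ * (k1 * B * k1ᴴ) = k1 * (A * B) * k1ᴴ := by
      intro A B
      calc k1 * A * k1ᴴ * (k1 * B * k1ᴴ) = k1 * A * (k1ᴴ * k1) * (B * k1ᴴ) := by
            simp only [Matrix.mul_assoc]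
        _ = k1 * (A * B) * k1ᴴ := by
            rw [hk1.2]
            simp only [Matrix.mul_assoc, Matrix.mul_one]
    rw [f, f, c2]
  obtain ⟨k2, hk2, hk2D, x', hx'⟩ := R.conj_diag hS x (z := z2')
    (by rw [← hz2']; exact t5_herm hY2) c3
  have hk2' := R.K_mul_star hk2
  refine ⟨k2 * k1, R.K_mul hk2 hk1, x, x', ?_, ?_⟩
  · rw [← e1, ← exp_Dm, Matrix.conjTranspose_mul]
    have h1 : k2 * k1 * NormedSpace.exp (Xm R.m R.E z1) * (k1ᴴ * k2ᴴ) =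
        k2 * (k1 * NormedSpace.exp (Xm R.m R.E z1) * k1ᴴ) * k2ᴴ := by
      simp only [Matrix.mul_assoc]
    rw [h1, ← t5_exp R hk1, ← t5_exp R hk2, hx, hk2D, Matrix.mul_assoc, hk2', Matrix.mul_one]
  · rw [← e2, ← exp_Dm, Matrix.conjTranspose_mul]
    have h1 : k2 * k1 * NormedSpace.exp (Xm R.m R.E z2) * (k1ᴴ * k2ᴴ) =
        k2 * (k1 * NormedSpace.exp (Xm R.m R.E z2) * k1ᴴ) * k2ᴴ := by
      simp only [Matrix.mul_assoc]
    rw [h1, ← t5_exp R hk1, ← t5_exp R hk2, hz2', hx']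

end Pool.Agent.LibRG65
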