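import Pool.Agent.LibRG65.T1

/-!
[RG65 T6] SHORT/MEDIUM. Polar decomposition inside `G` (helper65). Cites T1.

Plan. `gᴴ * g ∈ G` is positive definite (`Matrix.PosDef.conjTranspose_mul_self`, injectivity of `g.mulVec` from the unit determinant).
`R.cartan`: `gᴴ g = exp Y`, `Y` hermitian in the Lie algebra.  `P = exp ((1/2 : ℝ) • Y) ∈ G` (`R.lie`, backwards), hermitian, and
positive definite: `P = Sᴴ S` with `S = exp ((1/4) • Y)` invertible hermitian; `P * P = gᴴ g` (`Matrix.exp_add_of_commute`).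
`k = g P⁻¹ ∈ G`, `kᴴ k = P⁻¹ gᴴ g P⁻¹ = 1`.
-/

set_option autoImplicit false

open MeasureTheory
open scoped InnerProductSpace ComplexOrder Matrix

namespace Pool.Agent.LibRG65

open Pool.Agent.LibTK94 Pool.Agent.LibHK65

variable {n : ℕ} {ι β : Type} [Fintype ι] [DecidableEq ι] [Fintype β] [DecidableEq β]

theorem RG.polar (R : RG n ι β) {g : Matrix ι ι ℂ} (hg : g ∈ R.G) :
    ∃ k ∈ R.K, ∃ P ∈ R.G, P.PosDef ∧ g = k * P := by
  have hdet : IsUnit g.det := (R.inv g hg).1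
  have hgu : IsUnit g := (Matrix.isUnit_iff_isUnit_det g).2 hdet
  have hP0 : gᴴ * g ∈ R.G := R.G.mul_mem (R.star g hg) hg
  have hpd : (gᴴ * g).PosDef :=
    Matrix.PosDef.conjTranspose_mul_self g (Matrix.mulVec_injective_of_isUnit hgu)
  obtain ⟨z, hz, hez⟩ := R.cartan _ hP0 hpd
  set Y : Matrix ι ι ℂ := Xm R.m R.E z with hYdef
  have hall : ∀ t : ℝ, NormedSpace.exp (t • Y) ∈ R.G := (R.lie Y).2 ⟨z, rfl⟩
  have hherm : ∀ t : ℝ, (t • Y).IsHermitian := by
    intro t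
    unfold Matrix.IsHermitian
    rw [Matrix.conjTranspose_smul, hz.eq]
    simp
  have hadd : ∀ s t : ℝ, NormedSpace.exp (s • Y) * NormedSpace.exp (t • Y) =
      NormedSpace.exp ((s + t) • Y) := by
    intro s t
    rw [add_smul, Matrix.exp_add_of_commute]
    exact ((Commute.refl Y).smul_left s).smul_right t
  set P : Matrix ι ι ℂ := NormedSpace.exp ((1 / 2 : ℝ) • Y) with hPdef
  set S : Matrix ι ι ℂ := NormedSpace.exp ((1 / 4 : ℝ) • Y) with hSdef
  have hPG : P ∈ R.G := hall _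
  have hSS : Sᴴ * S = P := by
    have h1 : Sᴴ = S := (hherm (1 / 4)).exp
    rw [h1, hSdef, hadd, hPdef]
    norm_num
  have hPP : P * P = gᴴ * g := by
    rw [hPdef, hadd, ← hez]
    norm_num
  have hPpd : P.PosDef := by
    rw [← hSS]
    exact Matrix.PosDef.conjTranspose_mul_self S
      (Matrix.mulVec_injective_of_isUnit (Matrix.isUnit_exp _))
  have hPdet : IsUnit P.det := (R.inv P hPG).1
  have hPH : Pᴴ = P := hPpd.1
  refine ⟨g * P⁻¹, ⟨R.G.mul_mem hg (R.inv P hPG).2, ?_⟩, P, hPG, hPpd, ?_⟩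
  · rw [Matrix.conjTranspose_mul, Matrix.conjTranspose_nonsing_inv, hPH]
    calc P⁻¹ * gᴴ * (g * P⁻¹) = P⁻¹ * (gᴴ * g) * P⁻¹ := by simp only [Matrix.mul_assoc]
      _ = P⁻¹ * (P * P) * P⁻¹ := by rw [hPP]
      _ = (P⁻¹ * P) * (P * P⁻¹) := by simp only [Matrix.mul_assoc]
      _ = 1 := by rw [Matrix.nonsing_inv_mul _ hPdet, Matrix.mul_nonsing_inv _ hPdet, one_mul]
  · rw [Matrix.mul_assoc, Matrix.nonsing_inv_mul _ hPdet, Matrix.mul_one]

end Pool.Agent.LibRG65
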